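import Pool.Agent.TwoCvx.ES

/-!
# A cap with many replacements of every third-second point (positive fraction argument)

Let `M = 3 * L + 2`, `N` from `exists_cap M`, `n = P.card ≥ n₀ = N`, `q = n / N ≥ 1`. Enumerate the points of `P` by abscissa:
`p 0, p 1, …, p (n-1)` (e.g. `Finset.orderEmbOfFin` of `P.image Prod.fst`). For `σ : Fin N → Fin q` let
`pt σ i = p (i * q + σ i)` (`i < N`): points with increasing abscissae. By `exists_cap` there are `s = ±1` and
`f : {0, …, M-1} → {0, …, N-1}` increasing with `Cap s M (fun m => pt σ (f m))`; the number of possible `(s, f)` is at most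
`κ = 2 * N ^ M`. Pigeonhole: some `(s, f)` is good for a set `E` of at least `q ^ N / κ` of the `q ^ N` choices `σ`. For `σ ∈ E`
and `j = f (3 i + 2)` (`i < L`) let `B_j(σ) = {b : Fin q | update σ j b ∈ E}`. With `D = κ * L + 1`: the number of `σ ∈ E` with
`D * |B_j(σ)| < q` is at most `q ^ N / D` (for fixed values of `σ` outside `j` there are at most `|B_j(σ)| ≤ q / D` values at `j`), so,
since `L * q ^ N / D < q ^ N / κ ≤ |E|`, some `σ ∈ E` has `D * |B_j(σ)| ≥ q` for all `i < L`. Put `c m = pt σ (f m)` and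
`B = {p (j * q + b) | b ∈ B_j(σ)}`; `q ≥ n / (2 N)`, so `δ = 1 / (2 N D)` works.
-/

set_option autoImplicit false

namespace Pool.Agent.TwoCvx

open Set

private lemma caps_congr {s : ℝ} {M : ℕ} {c c' : ℕ → ℝ × ℝ} (h : Cap s M c)
    (hc : ∀ m < M, c m = c' m) : Cap s M c' := by
  refine ⟨fun i j hij hj => ?_, fun i j k hij hjk hk => ?_⟩
  · rw [← hc i (hij.trans hj), ← hc j hj]; exact h.1 i j hij hj
  · rw [← hc i (hij.trans (hjk.trans hk)), ← hc j (hjk.trans hk), ← hc k hk]
    exact h.2 i j k hij hjk hk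

private lemma caps_orient {p q r : ℝ × ℝ} (h1 : p.1 < q.1) (h : orient p q r = 0) :
    Collinear ℝ ({p, q, r} : Set (ℝ × ℝ)) := by
  rw [collinear_iff_of_mem (p₀ := p) (by simp)]
  refine ⟨q - p, ?_⟩
  have h2 : q.1 - p.1 ≠ 0 := (sub_pos.mpr h1).ne'
  intro z hz
  simp only [Set.mem_insert_iff, Set.mem_singleton_iff] at hz
  rcases hz with rfl | rfl | rfl
  · exact ⟨0, by simp⟩
  · exact ⟨1, by simp⟩
  · refine ⟨(z.1 - p.1) / (q.1 - p.1), ?_⟩
    unfold orient at h
    ext
    · simp only [vadd_eq_add, Prod.fst_add, Prod.smul_fst, Prod.fst_sub, smul_eq_mul]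
      field_simp
      ring
    · simp only [vadd_eq_add, Prod.snd_add, Prod.smul_snd, Prod.snd_sub, smul_eq_mul]
      field_simp
      linarith

private lemma caps_count {N q : ℕ} (T : Finset (Fin N → Fin q)) (j : Fin N) :
    ∑ σ : Fin N → Fin q, (Finset.univ.filter fun b : Fin q => Function.update σ j b ∈ T).card =
      q * T.card := by
  have hinv : Function.Involutive
      (fun z : (Fin N → Fin q) × Fin q => (Function.update z.1 j z.2, z.1 j)) := by
    intro z
    simp
  have h1 : ∑ σ : Fin N → Fin q, (Finset.univ.filter fun b : Fin q => Function.update σ j b ∈ T).card =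
      ∑ z : (Fin N → Fin q) × Fin q, if Function.update z.1 j z.2 ∈ T then 1 else 0 := by
    rw [Fintype.sum_prod_type]
    refine Finset.sum_congr rfl fun σ _ => ?_
    rw [Finset.card_filter]
  have h2 := (Equiv.sum_comp hinv.toPerm
    (fun z : (Fin N → Fin q) × Fin q => if z.1 ∈ T then 1 else 0))
  rw [h1]
  refine Eq.trans ?_ (h2.trans ?_)
  · rfl
  · rw [Fintype.sum_prod_type]
    have h3 : ∀ x : Fin N → Fin q, (∑ _y : Fin q, if x ∈ T then 1 else 0) = q * if x ∈ T then 1 else 0 := by
      intro x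
      rw [Finset.sum_const, Finset.card_univ, Fintype.card_fin, smul_eq_mul]
    rw [Finset.sum_congr rfl (fun x _ => h3 x), ← Finset.mul_sum]
    congr 1
    rw [← Finset.card_filter]
    congr 1
    ext x
    simp

private lemma caps_bad {N q : ℕ} (hq : 0 < q) (E : Finset (Fin N → Fin q)) (j : Fin N) (D : ℕ) :
    D * (E.filter fun σ =>
      D * (Finset.univ.filter fun b : Fin q => Function.update σ j b ∈ E).card < q).card ≤ q ^ N := by
  set T := E.filter fun σ =>
      D * (Finset.univ.filter fun b : Fin q => Function.update σ j b ∈ E).card < q with hT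
  have h1 : ∀ σ : Fin N → Fin q,
      D * (Finset.univ.filter fun b : Fin q => Function.update σ j b ∈ T).card ≤ q := by
    intro σ
    by_cases hne : ∃ b, Function.update σ j b ∈ T
    · obtain ⟨b, hb⟩ := hne
      rw [hT, Finset.mem_filter] at hb
      have h3 : D * (Finset.univ.filter fun b' : Fin q =>
          Function.update (Function.update σ j b) j b' ∈ E).card < q := hb.2
      simp only [Function.update_idem] at h3
      refine le_trans (Nat.mul_le_mul_left D (Finset.card_le_card ?_)) h3.le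
      intro b' hb'
      rw [Finset.mem_filter] at hb' ⊢
      exact ⟨Finset.mem_univ _, (Finset.mem_filter.1 hb'.2).1⟩
    · have h4 : (Finset.univ.filter fun b : Fin q => Function.update σ j b ∈ T) = ∅ := by
        rw [Finset.filter_eq_empty_iff]
        intro b _ hb
        exact hne ⟨b, hb⟩
      rw [h4]
      simp
  have h2 := Finset.sum_le_sum (fun σ (_ : σ ∈ (Finset.univ : Finset (Fin N → Fin q))) => h1 σ)
  rw [← Finset.mul_sum, caps_count] at h2
  simp only [Finset.sum_const, Finset.card_univ, Fintype.card_pi, Fintype.card_fin, Finset.prod_const,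
    smul_eq_mul] at h2
  have h3 : q * (D * T.card) ≤ q * q ^ N := by nlinarith [h2]
  exact Nat.le_of_mul_le_mul_left h3 hq

private lemma caps_comb {N q : ℕ} (hq : 0 < q) {C : Type} [Fintype C] [DecidableEq C]
    (col : (Fin N → Fin q) → C) (L : ℕ) (j : C → Fin L → Fin N) :
    ∃ σ : Fin N → Fin q, ∀ i : Fin L,
      q ≤ (Fintype.card C * L + 1) *
        (Finset.univ.filter fun b : Fin q => col (Function.update σ (j (col σ) i) b) = col σ).card := by
  obtain ⟨c, -, hc⟩ := Finset.exists_max_image (Finset.univ : Finset C)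
    (fun c => (Finset.univ.filter fun σ : Fin N → Fin q => col σ = c).card)
    ⟨col (fun _ => ⟨0, hq⟩), Finset.mem_univ _⟩
  set E := Finset.univ.filter fun σ : Fin N → Fin q => col σ = c with hE
  have h1 : q ^ N ≤ Fintype.card C * E.card := by
    have h2 := Finset.card_eq_sum_card_fiberwise (f := col) (s := (Finset.univ : Finset (Fin N → Fin q)))
      (t := (Finset.univ : Finset C)) (fun _ _ => by simp)
    have h3 : (Finset.univ : Finset (Fin N → Fin q)).card = q ^ N := by simp
    rw [← h3, h2]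
    refine (Finset.sum_le_card_nsmul _ _ _ (fun d hd => hc d hd)).trans ?_
    simp
  have hE0 : 0 < E.card := by
    rcases Nat.eq_zero_or_pos E.card with h | h
    · rw [h, mul_zero] at h1
      have : 0 < q ^ N := pow_pos hq N
      omega
    · exact h
  set D := Fintype.card C * L + 1 with hD
  by_contra hcon
  push Not at hcon
  have h4 : E ⊆ Finset.univ.biUnion fun i : Fin L => E.filter fun σ =>
      D * (Finset.univ.filter fun b : Fin q => Function.update σ (j c i) b ∈ E).card < q := by
    intro σ hσ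
    obtain ⟨i, hi⟩ := hcon σ
    have hσc : col σ = c := (Finset.mem_filter.1 hσ).2
    rw [hσc] at hi
    rw [Finset.mem_biUnion]
    refine ⟨i, Finset.mem_univ _, Finset.mem_filter.2 ⟨hσ, ?_⟩⟩
    have h9 : (Finset.univ.filter fun b : Fin q => Function.update σ (j c i) b ∈ E) =
        Finset.univ.filter fun b : Fin q => col (Function.update σ (j c i) b) = c := by
      ext b
      simp [hE]
    rw [h9]
    exact hi
  have h5 : E.card ≤ ∑ i : Fin L, (E.filter fun σ =>
      D * (Finset.univ.filter fun b : Fin q => Function.update σ (j c i) b ∈ E).card < q).card :=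
    (Finset.card_le_card h4).trans Finset.card_biUnion_le
  have h6 : D * E.card ≤ L * q ^ N := by
    calc D * E.card ≤ D * ∑ i : Fin L, (E.filter fun σ =>
      D * (Finset.univ.filter fun b : Fin q => Function.update σ (j c i) b ∈ E).card < q).card :=
          Nat.mul_le_mul_left _ h5
      _ = ∑ i : Fin L, D * (E.filter fun σ =>
      D * (Finset.univ.filter fun b : Fin q => Function.update σ (j c i) b ∈ E).card < q).card :=
          Finset.mul_sum _ _ _
      _ ≤ ∑ i : Fin L, q ^ N := Finset.sum_le_sum fun i _ => caps_bad hq E (j c i) D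
      _ = L * q ^ N := by simp
  have h7 : D * E.card ≤ (Fintype.card C * L) * E.card := by
    calc D * E.card ≤ L * q ^ N := h6
      _ ≤ L * (Fintype.card C * E.card) := Nat.mul_le_mul_left _ h1
      _ = (Fintype.card C * L) * E.card := by ring
  have h8 := Nat.le_of_mul_le_mul_right h7 hE0
  omega

theorem exists_caps (L : ℕ) : ∃ δ : ℝ, 0 < δ ∧ δ ≤ 1 ∧ ∃ n₀ : ℕ, ∀ P : Finset (ℝ × ℝ),
    InjOn Prod.fst (P : Set (ℝ × ℝ)) → GenPos (P : Set (ℝ × ℝ)) → n₀ ≤ P.card →
    ∃ s : ℝ, (s = 1 ∨ s = -1) ∧ ∃ c : ℕ → ℝ × ℝ, (∀ m < 3 * L + 2, c m ∈ P) ∧ Cap s (3 * L + 2) c ∧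
      ∀ i < L, ∃ B : Finset (ℝ × ℝ), B ⊆ P ∧ δ * P.card ≤ B.card ∧
        ∀ b ∈ B, Cap s (3 * L + 2) (Function.update c (3 * i + 2) b) := by
  classical
  obtain ⟨N, hN, hcap⟩ := exists_cap (3 * L + 2)
  set M := 3 * L + 2 with hM
  let C := Bool × (Fin M → Fin N)
  set D : ℕ := Fintype.card C * L + 1 with hD
  have hD1 : 1 ≤ D := by omega
  have hND : (1 : ℝ) ≤ 2 * N * D := by
    have h1 : (1 : ℝ) ≤ N := by exact_mod_cast hN
    have h2 : (1 : ℝ) ≤ D := by exact_mod_cast hD1
    nlinarith [mul_le_mul h1 h2 zero_le_one (by linarith)]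
  refine ⟨1 / (2 * N * D), by positivity, ?_, N, ?_⟩
  · rw [div_le_one (by linarith)]
    exact hND
  intro P hinj hgen hn
  set n := P.card with hncard
  have hcardS : (P.image Prod.fst).card = n := Finset.card_image_of_injOn hinj
  set g := (P.image Prod.fst).orderEmbOfFin hcardS with hg
  have hex : ∀ k : ℕ, ∃ z : ℝ × ℝ, ∀ h : k < n, z ∈ P ∧ z.1 = g ⟨k, h⟩ := by
    intro k
    by_cases h : k < n
    · have h1 : g ⟨k, h⟩ ∈ P.image Prod.fst := Finset.orderEmbOfFin_mem _ _ _
      obtain ⟨z, hz, hz1⟩ := Finset.mem_image.1 h1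
      exact ⟨z, fun _ => ⟨hz, hz1⟩⟩
    · exact ⟨0, fun h' => absurd h' h⟩
  choose pp hpp using hex
  have hppP : ∀ k, k < n → pp k ∈ P := fun k hk => (hpp k hk).1
  have hpplt : ∀ k l, k < l → l < n → (pp k).1 < (pp l).1 := by
    intro k l hkl hl
    rw [(hpp k (hkl.trans hl)).2, (hpp l hl).2]
    exact g.strictMono (by simpa using hkl)
  set q := n / N with hq
  have hq0 : 0 < q := Nat.div_pos hn hN
  have hNq : N * q ≤ n := Nat.mul_div_le n N
  have hn2 : n ≤ 2 * N * q := by
    have h1 : n < N * (q + 1) := by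
      have := Nat.lt_mul_div_succ n hN
      simpa [hq] using this
    nlinarith
  let idx : (Fin N → Fin q) → ℕ → ℕ := fun σ i => if h : i < N then i * q + (σ ⟨i, h⟩ : ℕ) else 0
  have hidx : ∀ σ i (h : i < N), idx σ i = i * q + (σ ⟨i, h⟩ : ℕ) := fun σ i h => by
    simp only [idx, dif_pos h]
  have hidxlt : ∀ σ i, i < N → idx σ i < n := by
    intro σ i hi
    rw [hidx σ i hi]
    have h1 := (σ ⟨i, hi⟩).2
    have h2 : (i + 1) * q ≤ N * q := Nat.mul_le_mul_right q hi
    nlinarith
  have hidxmono : ∀ σ i j, i < j → j < N → idx σ i < idx σ j := by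
    intro σ i j hij hj
    rw [hidx σ i (hij.trans hj), hidx σ j hj]
    have h1 := (σ ⟨i, hij.trans hj⟩).2
    have h2 : (i + 1) * q ≤ j * q := Nat.mul_le_mul_right q hij
    nlinarith
  let pt : (Fin N → Fin q) → ℕ → ℝ × ℝ := fun σ i => pp (idx σ i)
  let fx : (Fin M → Fin N) → ℕ → ℕ := fun f m => if h : m < M then (f ⟨m, h⟩ : ℕ) else 0
  let sg : Bool → ℝ := fun b => if b then 1 else -1
  have hcol : ∀ σ : Fin N → Fin q, ∃ c : C, (∀ i j, i < j → j < M → fx c.2 i < fx c.2 j) ∧
      Cap (sg c.1) M (fun m => pt σ (fx c.2 m)) := by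
    intro σ
    obtain ⟨s, hs, f, hf1, hf2, hf3⟩ := hcap (pt σ)
      (fun i j hij hj => hpplt _ _ (hidxmono σ i j hij hj) (hidxlt σ j hj))
      (by
        intro i j k hij hjk hk h0
        have e1 := hpplt _ _ (hidxmono σ i j hij (hjk.trans hk)) (hidxlt σ j (hjk.trans hk))
        have e2 := hpplt _ _ (hidxmono σ j k hjk hk) (hidxlt σ k hk)
        refine hgen _ (hppP _ (hidxlt σ i (hij.trans (hjk.trans hk)))) _
          (hppP _ (hidxlt σ j (hjk.trans hk))) _ (hppP _ (hidxlt σ k hk)) ?_ ?_ ?_
          (caps_orient e1 h0)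
        · intro h; rw [h] at e1; exact lt_irrefl _ e1
        · intro h; rw [h] at e2; exact lt_irrefl _ e2
        · intro h; rw [h] at e1; exact lt_irrefl _ (e1.trans e2))
    have hfx : ∀ m < M, fx (fun m => ⟨f m, hf1 m m.2⟩) m = f m := fun m hm => by
      simp only [fx, dif_pos hm]
    refine ⟨(decide (s = 1), fun m => ⟨f m, hf1 m m.2⟩), ?_, ?_⟩
    · intro i j hij hj
      rw [hfx i (hij.trans hj), hfx j hj]
      exact hf2 i j hij hj
    · have hsg : sg (decide (s = 1)) = s := by
        rcases hs with h | h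
        · simp [sg, h]
        · rw [h]; norm_num [sg]
      rw [hsg]
      refine caps_congr hf3 fun m hm => ?_
      rw [hfx m hm]
  choose col hcol1 hcol2 using hcol
  have hMi : ∀ i : Fin L, 3 * (i : ℕ) + 2 < M := fun i => by have := i.2; omega
  obtain ⟨σ, hσ⟩ := caps_comb hq0 col L (fun c i => c.2 ⟨3 * (i : ℕ) + 2, hMi i⟩)
  refine ⟨sg (col σ).1, ?_, fun m => pt σ (fx (col σ).2 m), ?_, hcol2 σ, ?_⟩
  · cases (col σ).1
    · right; simp [sg]
    · left; simp [sg]
  · intro m hm
    refine hppP _ (hidxlt σ _ ?_)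
    simp only [fx, dif_pos hm]
    exact Fin.is_lt _
  · intro i hi
    have h3i : 3 * i + 2 < M := by omega
    set j := (col σ).2 ⟨3 * i + 2, h3i⟩ with hj
    have hb := hσ ⟨i, hi⟩
    set Bq := Finset.univ.filter fun b : Fin q => col (Function.update σ j b) = col σ with hBq
    have hb' : q ≤ D * Bq.card := hb
    have hjq : ∀ b : Fin q, (j : ℕ) * q + b < n := by
      intro b
      have h1 := b.2
      have h2 : ((j : ℕ) + 1) * q ≤ N * q := Nat.mul_le_mul_right q j.2
      nlinarith
    have hinj2 : Function.Injective (fun b : Fin q => pp ((j : ℕ) * q + b)) := by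
      intro b b' hbb
      by_contra hne
      have hne' : (b : ℕ) ≠ b' := fun h => hne (Fin.ext h)
      rcases lt_or_gt_of_ne hne' with h | h
      · have := hpplt ((j : ℕ) * q + b) ((j : ℕ) * q + b') (by omega) (hjq b')
        simp only at hbb
        rw [hbb] at this
        exact lt_irrefl _ this
      · have := hpplt ((j : ℕ) * q + b') ((j : ℕ) * q + b) (by omega) (hjq b)
        simp only at hbb
        rw [hbb] at this
        exact lt_irrefl _ this
    refine ⟨Bq.image fun b : Fin q => pp ((j : ℕ) * q + b), ?_, ?_, ?_⟩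
    · intro z hz
      obtain ⟨b, -, rfl⟩ := Finset.mem_image.1 hz
      exact hppP _ (hjq b)
    · rw [Finset.card_image_of_injective _ hinj2, div_mul_eq_mul_div, one_mul,
        div_le_iff₀ (by linarith)]
      have h1 : n ≤ 2 * N * (D * Bq.card) := hn2.trans (Nat.mul_le_mul_left _ hb')
      have h2 : (n : ℝ) ≤ 2 * N * (D * Bq.card) := by exact_mod_cast h1
      calc (n : ℝ) ≤ 2 * N * (D * Bq.card) := h2
        _ = Bq.card * (2 * N * D) := by ring
    · intro z hz
      obtain ⟨b, hbB, rfl⟩ := Finset.mem_image.1 hz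
      have hbc : col (Function.update σ j b) = col σ := (Finset.mem_filter.1 hbB).2
      have h1 := hcol2 (Function.update σ j b)
      rw [hbc] at h1
      refine caps_congr h1 fun m hm => ?_
      have hfm : fx (col σ).2 m = ((col σ).2 ⟨m, hm⟩ : ℕ) := by simp only [fx, dif_pos hm]
      have hfN : fx (col σ).2 m < N := by rw [hfm]; exact Fin.is_lt _
      have hfj : fx (col σ).2 (3 * i + 2) = j := by simp only [fx, dif_pos h3i]; rfl
      by_cases hmi : m = 3 * i + 2
      · subst hmi
        rw [Function.update_self]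
        show pp (idx (Function.update σ j b) (fx (col σ).2 (3 * i + 2))) = _
        rw [hfj, hidx _ _ j.2]
        simp
      · rw [Function.update_of_ne hmi]
        show pp (idx (Function.update σ j b) (fx (col σ).2 m)) = pp (idx σ (fx (col σ).2 m))
        rw [hidx _ _ hfN, hidx _ _ hfN]
        have hne : (⟨fx (col σ).2 m, hfN⟩ : Fin N) ≠ j := by
          intro h
          have h2 : fx (col σ).2 m = fx (col σ).2 (3 * i + 2) := by
            rw [hfj, ← h]
          rcases lt_or_gt_of_ne hmi with h3 | h3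
          · have := hcol1 σ m (3 * i + 2) h3 h3i
            omega
          · have := hcol1 σ (3 * i + 2) m h3 hm
            omega
        rw [Function.update_of_ne hne]

end Pool.Agent.TwoCvx
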