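import Pool.Agent.TwoCvx.Stmt

/-!
# Decomposing planar point sets into 2-convex polygons: working notions  (MP_e32f45_co)

The definitions of the final statement are in `Stmt.lean`; this file contains the working notions used in the proof.
-/

set_option autoImplicit false

namespace Pool.Agent.TwoCvx

open Set MeasureTheory

/-! ### Working notions -/

/-- Twice the signed area of the triangle `p q r`. -/
def orient (p q r : ℝ × ℝ) : ℝ := (q.1 - p.1) * (r.2 - p.2) - (q.2 - p.2) * (r.1 - p.1)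

/-- Working version of `2`-convexity: the section by each line is the union of two preconnected sets. -/
def Two (Q : Set (ℝ × ℝ)) : Prop :=
  ∀ (φ : (ℝ × ℝ) →ₗ[ℝ] ℝ) (c : ℝ), φ ≠ 0 → ∃ C₁ C₂ : Set (ℝ × ℝ), IsPreconnected C₁ ∧ IsPreconnected C₂ ∧
    {z | φ z = c} ∩ interior Q = C₁ ∪ C₂

/-- `Q` is an admissible piece for the point set `P`. -/
structure Piece (P : Set (ℝ × ℝ)) (Q : Set (ℝ × ℝ)) : Prop where
  polygon : ∃ k v, IsPolygon k v Q ∧ ∀ i < k, v i ∈ P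
  two : Two Q
  sub : Q ⊆ convexHull ℝ P
  empty : ∀ p ∈ P, p ∉ interior Q

/-- `P` has a decomposition into at most `m` pieces (the convex hull is covered up to a null set). -/
def Dec (P : Set (ℝ × ℝ)) (m : ℕ) : Prop :=
  ∃ F : Finset (Set (ℝ × ℝ)), F.card ≤ m ∧ (∀ Q ∈ F, Piece P Q) ∧
    (∀ Q ∈ F, ∀ Q' ∈ F, Q ≠ Q' → Disjoint (interior Q) (interior Q')) ∧
    volume (convexHull ℝ P \ ⋃ Q ∈ F, Q) = 0

/-- `g` is, on `[a, b]`, the piecewise linear interpolation of points of `P` with increasing abscissae, the first one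
over `a`, the last one over `b`. -/
inductive PL (P : Set (ℝ × ℝ)) (g : ℝ → ℝ) : ℝ → ℝ → Prop
  | single (p : ℝ × ℝ) (hp : p ∈ P) (hg : g p.1 = p.2) : PL P g p.1 p.1
  | cons (p q : ℝ × ℝ) (b : ℝ) (hp : p ∈ P) (hq : q ∈ P) (hpq : p.1 < q.1) (hgp : g p.1 = p.2) (hgq : g q.1 = q.2)
      (hlin : ∀ x ∈ Icc p.1 q.1, g x * (q.1 - p.1) = (q.1 - x) * p.2 + (x - p.1) * q.2)
      (h : PL P g q.1 b) : PL P g p.1 b

/-- The region between the graphs of `g` and `h` over `[a, b]`. -/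
def region (a b : ℝ) (g h : ℝ → ℝ) : Set (ℝ × ℝ) :=
  {z | a ≤ z.1 ∧ z.1 ≤ b ∧ g z.1 ≤ z.2 ∧ z.2 ≤ h z.1}

/-- `g` is affine on `[a, b]`. -/
def AffOn (g : ℝ → ℝ) (a b : ℝ) : Prop := ∃ m k : ℝ, ∀ x ∈ Icc a b, g x = m * x + k

/-- The reflection `(x, y) ↦ (x, -y)`. -/
noncomputable def refl : (ℝ × ℝ) ≃ₗ[ℝ] (ℝ × ℝ) :=
  (LinearEquiv.refl ℝ ℝ).prodCongr (LinearEquiv.neg ℝ)

@[simp] lemma refl_apply (z : ℝ × ℝ) : refl z = (z.1, -z.2) := rfl

/-- The vertical coordinate on the line through `p` and `q` at abscissa `x`. -/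
noncomputable def lineT (p q : ℝ × ℝ) (x : ℝ) : ℝ := p.2 + (q.2 - p.2) / (q.1 - p.1) * (x - p.1)


/-- `p` is the leftmost and `q` the rightmost point of `Q`. -/
structure Ext (Q : Set (ℝ × ℝ)) (p q : ℝ × ℝ) : Prop where
  hp : p ∈ Q
  hq : q ∈ Q
  hmin : ∀ z ∈ Q, p.1 ≤ z.1
  hmax : ∀ z ∈ Q, z.1 ≤ q.1

/-- `u` is the upper hull function of `Q` (leftmost point `p`, rightmost point `q`). -/
structure Upper (Q : Set (ℝ × ℝ)) (p q : ℝ × ℝ) (u : ℝ → ℝ) : Prop where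
  pl : PL Q u p.1 q.1
  cc : ConcaveOn ℝ (Icc p.1 q.1) u
  le : ∀ z ∈ Q, z.2 ≤ u z.1

/-- `l` is the lower hull function of `Q` (leftmost point `p`, rightmost point `q`). -/
structure Lower (Q : Set (ℝ × ℝ)) (p q : ℝ × ℝ) (l : ℝ → ℝ) : Prop where
  pl : PL Q l p.1 q.1
  cv : ConvexOn ℝ (Icc p.1 q.1) l
  le : ∀ z ∈ Q, l z.1 ≤ z.2

/-- The link from `p₁` to `p₂`, then `w` between `p₂` and `q₂`, then the link from `q₂` to `q₁`. -/
noncomputable def bridge (p₁ p₂ q₂ q₁ : ℝ × ℝ) (w : ℝ → ℝ) (x : ℝ) : ℝ :=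
  if x ≤ p₂.1 then lineT p₁ p₂ x else if x ≤ q₂.1 then w x else lineT q₂ q₁ x

/-- `w₁` up to the point `p`, then the link from `p` to `q`, then `w₂`. -/
noncomputable def cross (p q : ℝ × ℝ) (w₁ w₂ : ℝ → ℝ) (x : ℝ) : ℝ :=
  if x ≤ p.1 then w₁ x else if x ≤ q.1 then lineT p q x else w₂ x

end Pool.Agent.TwoCvx
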