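import Pool.Agent.TwoCvx.Defs

/-!
# The Erdős–Szekeres cups-caps argument

* `exists_chain` (any ternary relation `T`, all sets `X` of at least `2 ^ (k + l)` indices): there is a `T`-chain of
  length `k` or a `¬T`-chain of length `l` in `X`. Induction on `k + l`; `k ≤ 2` or `l ≤ 2` is clear (two increasing
  elements; `X` has at least `2 ^ (k + l) ≥ 2` elements resp. `k, l` elements). Let `k, l ≥ 3` and let `X'` be the set of the right
  end points of the `T`-chains of length `k - 1` in `X`. If `|X \ X'| ≥ 2 ^ (k - 1 + l)`: by induction `X \ X'` has a `T`-chain of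
  length `k - 1` (impossible, its right end point is in `X'`) or a `¬T`-chain of length `l`: done. Otherwise
  `|X'| ≥ 2 ^ (k + l - 1)` and `X'` has a `T`-chain of length `k`: done, or a `¬T`-chain `f` of length `l - 1`, with left end point
  `f 0`, which is the right end point of a `T`-chain `h` of length `k - 1`: if `T (h (k-3)) (f 0) (f 1)` (`h (k - 2) = f 0`) then
  `h` extended by `f 1` is a `T`-chain of length `k`, otherwise `f` extended by `h (k-3)` to the left is a `¬T`-chain of length `l`.
* `cap_of_consecutive`: transitivity: for four points `p, q, r, t` with increasing abscissae, caps `p q r` and `q r t` give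
  caps `p q t` and `p r t` (compare slopes); then all triples are caps by two inductions.
* `exists_cap`: `N = 2 ^ (M + M)`.
-/

set_option autoImplicit false

namespace Pool.Agent.TwoCvx

open Set

/-- chains of a ternary relation -/
def esCh (T : ℕ → ℕ → ℕ → Prop) (k : ℕ) (X : Finset ℕ) (f : ℕ → ℕ) : Prop :=
  (∀ i < k, f i ∈ X) ∧ (∀ i, i + 1 < k → f i < f (i + 1)) ∧
    ∀ i, i + 2 < k → T (f i) (f (i + 1)) (f (i + 2))

theorem esCh.mono {T : ℕ → ℕ → ℕ → Prop} {k : ℕ} {X Y : Finset ℕ} {f : ℕ → ℕ}
    (h : esCh T k X f) (hXY : X ⊆ Y) : esCh T k Y f :=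
  ⟨fun i hi => hXY (h.1 i hi), h.2.1, h.2.2⟩

theorem es_small (T : ℕ → ℕ → ℕ → Prop) (k : ℕ) (hk : k ≤ 2) (X : Finset ℕ) (hX : k ≤ X.card) :
    ∃ f, esCh T k X f := by
  classical
  refine ⟨fun i => if h : i < k then X.orderEmbOfCardLe hX ⟨i, h⟩ else 0, ?_, ?_, ?_⟩
  · intro i hi
    simp only
    rw [dif_pos hi]
    exact X.orderEmbOfCardLe_mem hX _
  · intro i hi
    simp only
    rw [dif_pos (by omega), dif_pos hi]
    exact (X.orderEmbOfCardLe hX).strictMono (by
      rw [Fin.lt_def]
      exact Nat.lt_succ_self i)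
  · intro i hi
    omega

theorem es_aux (T : ℕ → ℕ → ℕ → Prop) (n : ℕ) : ∀ k l : ℕ, k + l = n → ∀ X : Finset ℕ,
    2 ^ (k + l) ≤ X.card →
    (∃ f, esCh T k X f) ∨ (∃ f, esCh (fun a b c => ¬ T a b c) l X f) := by
  classical
  induction n with
  | zero =>
    intro k l hkl X hX
    exact Or.inl (es_small T k (by omega) X (by omega))
  | succ n ih =>
    intro k l hkl X hX
    have hlt : k + l < 2 ^ (k + l) := Nat.lt_two_pow_self
    by_cases hk : k ≤ 2
    · exact Or.inl (es_small T k hk X (by omega))
    by_cases hl : l ≤ 2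
    · exact Or.inr (es_small _ l hl X (by omega))
    obtain ⟨k, rfl⟩ : ∃ k', k = k' + 3 := ⟨k - 3, by omega⟩
    obtain ⟨l, rfl⟩ : ∃ l', l = l' + 3 := ⟨l - 3, by omega⟩
    obtain ⟨X', hX'⟩ : ∃ X', X' = X.filter (fun x => ∃ f, esCh T (k + 2) X f ∧ f (k + 1) = x) :=
      ⟨_, rfl⟩
    have hsub : X' ⊆ X := by rw [hX']; exact Finset.filter_subset _ _
    have hcard : (X \ X').card + X'.card = X.card := Finset.card_sdiff_add_card_eq_card hsub
    have hpow : 2 ^ (k + 3 + (l + 3)) = 2 * 2 ^ (k + 2 + (l + 3)) := by
      rw [← pow_succ']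
      congr 1
      omega
    by_cases hc : 2 ^ (k + 2 + (l + 3)) ≤ (X \ X').card
    · rcases ih (k + 2) (l + 3) (by omega) (X \ X') hc with ⟨f, hf⟩ | ⟨f, hf⟩
      · exfalso
        have h1 := hf.1 (k + 1) (by omega)
        rw [Finset.mem_sdiff] at h1
        apply h1.2
        rw [hX', Finset.mem_filter]
        exact ⟨h1.1, f, hf.mono Finset.sdiff_subset, rfl⟩
      · exact Or.inr ⟨f, hf.mono Finset.sdiff_subset⟩
    · have hc' : 2 ^ (k + 3 + (l + 2)) ≤ X'.card := by
        have : 2 ^ (k + 3 + (l + 2)) = 2 ^ (k + 2 + (l + 3)) := by congr 1; omega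
        omega
      rcases ih (k + 3) (l + 2) (by omega) X' hc' with ⟨f, hf⟩ | ⟨f, hf⟩
      · exact Or.inl ⟨f, hf.mono hsub⟩
      · have h0 := hf.1 0 (by omega)
        rw [hX', Finset.mem_filter] at h0
        obtain ⟨-, h, hh, hh0⟩ := h0
        have h01 : f 0 < f 1 := hf.2.1 0 (by omega)
        by_cases hT : T (h k) (f 0) (f 1)
        · left
          refine ⟨fun i => if i < k + 2 then h i else f 1, ?_, ?_, ?_⟩
          · intro i hi
            simp only
            split_ifs with hi2
            · exact hh.1 i hi2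
            · exact hsub (hf.1 1 (by omega))
          · intro i hi
            simp only
            rw [if_pos (by omega)]
            split_ifs with hi2
            · exact hh.2.1 i hi2
            · have : i = k + 1 := by omega
              rw [this, hh0]
              exact h01
          · intro i hi
            simp only
            rw [if_pos (by omega), if_pos (by omega)]
            split_ifs with hi2
            · exact hh.2.2 i hi2
            · have : i = k := by omega
              rw [this, hh0]
              exact hT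
        · right
          refine ⟨fun i => if i = 0 then h k else f (i - 1), ?_, ?_, ?_⟩
          · intro i hi
            simp only
            split_ifs with hi2
            · exact hh.1 k (by omega)
            · exact hsub (hf.1 (i - 1) (by omega))
          · intro i hi
            simp only
            rw [if_neg (by omega : ¬ i + 1 = 0)]
            split_ifs with hi2
            · rw [hi2]
              have := hh.2.1 k (by omega)
              rw [hh0] at this
              exact this
            · have := hf.2.1 (i - 1) (by omega)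
              have e : i + 1 - 1 = i - 1 + 1 := by omega
              rw [e]
              exact this
          · intro i hi
            simp only
            rw [if_neg (by omega : ¬ i + 1 = 0), if_neg (by omega : ¬ i + 2 = 0)]
            split_ifs with hi2
            · rw [hi2]
              exact hT
            · have := hf.2.2 (i - 1) (by omega)
              have e1 : i + 1 - 1 = i - 1 + 1 := by omega
              have e2 : i + 2 - 1 = i - 1 + 2 := by omega
              rw [e1, e2]
              exact this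

theorem exists_chain (T : ℕ → ℕ → ℕ → Prop) (k l : ℕ) (X : Finset ℕ) (hX : 2 ^ (k + l) ≤ X.card) :
    (∃ f : ℕ → ℕ, (∀ i < k, f i ∈ X) ∧ (∀ i, i + 1 < k → f i < f (i + 1)) ∧
      ∀ i, i + 2 < k → T (f i) (f (i + 1)) (f (i + 2))) ∨
    (∃ f : ℕ → ℕ, (∀ i < l, f i ∈ X) ∧ (∀ i, i + 1 < l → f i < f (i + 1)) ∧
      ∀ i, i + 2 < l → ¬ T (f i) (f (i + 1)) (f (i + 2))) :=
  es_aux T (k + l) k l rfl X hX

/-- `c 0, …, c (M-1)` have increasing abscissae and form a cap (`s = 1`) or a cup (`s = -1`). -/
def Cap (s : ℝ) (M : ℕ) (c : ℕ → ℝ × ℝ) : Prop :=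
  (∀ i j, i < j → j < M → (c i).1 < (c j).1) ∧
    ∀ i j k, i < j → j < k → k < M → s * orient (c i) (c j) (c k) < 0

theorem es_lt {β : Type*} [Preorder β] {M : ℕ} {f : ℕ → β} (h : ∀ i, i + 1 < M → f i < f (i + 1)) :
    ∀ i j, i < j → j < M → f i < f j := by
  intro i j hij
  induction j, hij using Nat.le_induction with
  | base => intro hj; exact h i hj
  | succ j _ ih => intro hj; exact (ih (by omega)).trans (h j hj)

theorem es_trans {s : ℝ} {p q r t : ℝ × ℝ} (hpq : p.1 < q.1) (hqr : q.1 < r.1) (hrt : r.1 < t.1)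
    (h1 : s * orient p q r < 0) (h2 : s * orient q r t < 0) :
    s * orient p q t < 0 ∧ s * orient p r t < 0 := by
  have e1 : (s * orient p q t) * (r.1 - q.1) =
      (s * orient p q r) * (t.1 - q.1) + (s * orient q r t) * (q.1 - p.1) := by
    unfold orient
    ring
  have e2 : (s * orient p r t) * (r.1 - q.1) =
      (s * orient q r t) * (r.1 - p.1) + (s * orient p q r) * (t.1 - r.1) := by
    unfold orient
    ring
  have hd : 0 < r.1 - q.1 := sub_pos.mpr hqr
  constructor
  · have h3 : (s * orient p q r) * (t.1 - q.1) < 0 := mul_neg_of_neg_of_pos h1 (by linarith)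
    have h4 : (s * orient q r t) * (q.1 - p.1) < 0 := mul_neg_of_neg_of_pos h2 (by linarith)
    by_contra hcon
    rw [not_lt] at hcon
    have := mul_nonneg hcon hd.le
    linarith
  · have h3 : (s * orient q r t) * (r.1 - p.1) < 0 := mul_neg_of_neg_of_pos h2 (by linarith)
    have h4 : (s * orient p q r) * (t.1 - r.1) < 0 := mul_neg_of_neg_of_pos h1 (by linarith)
    by_contra hcon
    rw [not_lt] at hcon
    have := mul_nonneg hcon hd.le
    linarith

theorem cap_of_consecutive {s : ℝ} (hs : s = 1 ∨ s = -1) {M : ℕ} {c : ℕ → ℝ × ℝ}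
    (h1 : ∀ i, i + 1 < M → (c i).1 < (c (i + 1)).1)
    (h2 : ∀ i, i + 2 < M → s * orient (c i) (c (i + 1)) (c (i + 2)) < 0) : Cap s M c := by
  have hlt : ∀ i j, i < j → j < M → (c i).1 < (c j).1 :=
    es_lt (f := fun i => (c i).1) h1
  have hA : ∀ i j, i < j → j + 1 < M → s * orient (c i) (c j) (c (j + 1)) < 0 := by
    intro i j hij
    induction j, hij using Nat.le_induction with
    | base => intro hj; exact h2 i hj
    | succ j hj0 ih =>
      intro hj
      exact (es_trans (hlt i j (by omega) (by omega)) (hlt j (j + 1) (by omega) (by omega))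
        (hlt (j + 1) (j + 2) (by omega) (by omega)) (ih (by omega)) (h2 j (by omega))).2
  refine ⟨hlt, ?_⟩
  intro i j k hij hjk
  induction k, hjk using Nat.le_induction with
  | base => intro hk; exact hA i j hij hk
  | succ k hk0 ih =>
    intro hk
    exact (es_trans (hlt i j hij (by omega)) (hlt j k (by omega) (by omega))
      (hlt k (k + 1) (by omega) hk) (ih (by omega)) (hA j k (by omega) hk)).1

theorem exists_cap (M : ℕ) : ∃ N : ℕ, 0 < N ∧ ∀ c : ℕ → ℝ × ℝ, (∀ i j, i < j → j < N → (c i).1 < (c j).1) →
    (∀ i j k, i < j → j < k → k < N → orient (c i) (c j) (c k) ≠ 0) →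
    ∃ s : ℝ, (s = 1 ∨ s = -1) ∧ ∃ f : ℕ → ℕ, (∀ i < M, f i < N) ∧ (∀ i j, i < j → j < M → f i < f j) ∧
      Cap s M (fun i => c (f i)) := by
  refine ⟨2 ^ (M + M), by positivity, ?_⟩
  intro c hc hne
  rcases exists_chain (fun a b d => orient (c a) (c b) (c d) < 0) M M (Finset.range (2 ^ (M + M)))
    (by rw [Finset.card_range]) with ⟨f, hf1, hf2, hf3⟩ | ⟨f, hf1, hf2, hf3⟩
  · have hfN : ∀ i < M, f i < 2 ^ (M + M) := fun i hi => Finset.mem_range.mp (hf1 i hi)
    refine ⟨1, Or.inl rfl, f, hfN, es_lt hf2, ?_⟩
    refine cap_of_consecutive (Or.inl rfl) ?_ ?_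
    · intro i hi
      exact hc _ _ (hf2 i hi) (hfN _ hi)
    · intro i hi
      rw [one_mul]
      exact hf3 i hi
  · have hfN : ∀ i < M, f i < 2 ^ (M + M) := fun i hi => Finset.mem_range.mp (hf1 i hi)
    refine ⟨-1, Or.inr rfl, f, hfN, es_lt hf2, ?_⟩
    refine cap_of_consecutive (Or.inr rfl) ?_ ?_
    · intro i hi
      exact hc _ _ (hf2 i hi) (hfN _ hi)
    · intro i hi
      have h1 := hf3 i hi
      rw [not_lt] at h1
      have h2 := hne (f i) (f (i + 1)) (f (i + 2)) (hf2 i (by omega)) (hf2 (i + 1) (by omega))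
        (hfN _ hi)
      have h3 : 0 < orient (c (f i)) (c (f (i + 1))) (c (f (i + 2))) := lt_of_le_of_ne h1 (Ne.symm h2)
      linarith

end Pool.Agent.TwoCvx
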