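import Pool.Agent.TwoCvx.Map

/-!
# From the working predicate `Dec` to decompositions

* `Two.kConvex`: if `l ∩ interior Q = C₁ ∪ C₂` with preconnected `C₁, C₂`, then any two points of `C₁` are in the same
  connected component of the subtype (`IsPreconnected.subset_connectedComponent`,
  `Topology.IsInducing.isPreconnected_image`), so choosing for every component a point and deciding whether it is
  in `C₁` is injective: at most two components.
* `Dec.isDecomposition`: general position and three points give a nonempty interior of the hull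
  (`interior_convexHull_nonempty_iff_affineSpan_eq_top`). The union of the members is closed and covers the hull up
  to a null set; if `z` in the hull were not in the union `U`, an open neighbourhood `V` of `z` would miss `U`; `z` is in the
  closure of the interior of the hull, so `V ∩ interior (hull)` is open and nonempty, so not a null set. Each member is
  contained in the hull.
-/

set_option autoImplicit false

namespace Pool.Agent.TwoCvx

open Set MeasureTheory

theorem upgrade_comp {S C : Set (ℝ × ℝ)} (hC : IsPreconnected C) (hCS : C ⊆ S) (x y : ↥S) (hx : x.1 ∈ C)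
    (hy : y.1 ∈ C) : (x : ConnectedComponents ↥S) = (y : ConnectedComponents ↥S) := by
  have h1 : IsPreconnected ((fun z : ↥S => (z : ℝ × ℝ)) ⁻¹' C) := by
    rw [← Topology.IsInducing.subtypeVal.isPreconnected_image]
    have : (Subtype.val '' ((fun z : ↥S => (z : ℝ × ℝ)) ⁻¹' C)) = C := by
      ext z
      constructor
      · rintro ⟨w, hw, rfl⟩
        exact hw
      · intro hz
        exact ⟨⟨z, hCS hz⟩, hz, rfl⟩
    rw [this]
    exact hC
  rw [ConnectedComponents.coe_eq_coe']
  exact h1.subset_connectedComponent (x := y) hy hx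

theorem Two.kConvex {Q : Set (ℝ × ℝ)} (h : Two Q) : KConvex 2 Q := by
  rintro l ⟨φ, c, hφ, rfl⟩
  obtain ⟨C₁, C₂, h1, h2, he⟩ := h φ c hφ
  classical
  have hs1 : C₁ ⊆ {z | φ z = c} ∩ interior Q := by rw [he]; exact subset_union_left
  have hs2 : C₂ ⊆ {z | φ z = c} ∩ interior Q := by rw [he]; exact subset_union_right
  have hsur : ∀ c' : ConnectedComponents ↥({z | φ z = c} ∩ interior Q),
      ∃ x : ↥({z | φ z = c} ∩ interior Q), (x : ConnectedComponents ↥({z | φ z = c} ∩ interior Q)) = c' := by
    intro c'
    exact ConnectedComponents.surjective_coe c'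
  choose g hg using hsur
  have hinj : Function.Injective (fun c' => decide ((g c').1 ∈ C₁)) := by
    intro a b hab
    rw [← hg a, ← hg b]
    have hab' : ((g a).1 ∈ C₁) ↔ ((g b).1 ∈ C₁) := by
      simpa using hab
    by_cases ha : (g a).1 ∈ C₁
    · exact upgrade_comp h1 hs1 _ _ ha (hab'.1 ha)
    · have hb : (g b).1 ∉ C₁ := fun hb => ha (hab'.2 hb)
      have ha2 : (g a).1 ∈ C₂ := (he.subset (g a).2).resolve_left ha
      have hb2 : (g b).1 ∈ C₂ := (he.subset (g b).2).resolve_left hb
      exact upgrade_comp h2 hs2 _ _ ha2 hb2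
  have h3 := ENat.card_le_card_of_injective hinj
  refine h3.trans ?_
  simp

theorem interior_nonempty_of_genPos {P : Set (ℝ × ℝ)} (hf : P.Finite) (hgp : GenPos P) (h3 : 3 ≤ P.ncard) :
    (interior (convexHull ℝ P)).Nonempty := by
  obtain ⟨p, q, r, hp, hq, hr, hpq, hpr, hqr⟩ := (Set.two_lt_ncard_iff hf).1 (show 2 < P.ncard by omega)
  have hnc := hgp p hp q hq r hr hpq hqr hpr
  rw [← affineIndependent_iff_not_collinear_set] at hnc
  have htop : affineSpan ℝ (Set.range ![p, q, r]) = ⊤ := by
    rw [hnc.affineSpan_eq_top_iff_card_eq_finrank_add_one]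
    simp
  have hsub : Set.range ![p, q, r] ⊆ P := by
    rintro _ ⟨i, rfl⟩
    fin_cases i
    · exact hp
    · exact hq
    · exact hr
  rw [interior_convexHull_nonempty_iff_affineSpan_eq_top]
  exact top_le_iff.1 (htop ▸ affineSpan_mono ℝ hsub)

theorem Dec.isDecomposition {P : Set (ℝ × ℝ)} (hf : P.Finite) (hgp : GenPos P) (h3 : 3 ≤ P.ncard) {m : ℕ}
    (h : Dec P m) : ∃ F : Finset (Set (ℝ × ℝ)), IsDecomposition P F ∧ F.card ≤ m := by
  obtain ⟨F, hc, hP, hd, hv⟩ := h
  refine ⟨F, ⟨fun Q hQ => (hP Q hQ).polygon, fun Q hQ => (hP Q hQ).two.kConvex, hd, ?_,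
    fun Q hQ => (hP Q hQ).empty⟩, hc⟩
  apply Subset.antisymm
  · exact iUnion₂_subset fun Q hQ => (hP Q hQ).sub
  · have hclosed : IsClosed (⋃ Q ∈ F, Q) := by
      apply isClosed_biUnion_finset
      intro Q hQ
      obtain ⟨k, v, hk, -⟩ := (hP Q hQ).polygon
      exact hk.2.1.isClosed
    intro z hz
    by_contra hzU
    have hcl : z ∈ closure (interior (convexHull ℝ P)) := by
      rw [(convex_convexHull ℝ P).closure_interior_eq_closure_of_nonempty_interior
        (interior_nonempty_of_genPos hf hgp h3)]
      exact subset_closure hz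
    have hne : ((⋃ Q ∈ F, Q)ᶜ ∩ interior (convexHull ℝ P)).Nonempty :=
      mem_closure_iff.1 hcl _ hclosed.isOpen_compl hzU
    have hopen : IsOpen ((⋃ Q ∈ F, Q)ᶜ ∩ interior (convexHull ℝ P)) :=
      hclosed.isOpen_compl.inter isOpen_interior
    have hpos := hopen.measure_pos volume hne
    have hle : volume ((⋃ Q ∈ F, Q)ᶜ ∩ interior (convexHull ℝ P)) ≤ volume (convexHull ℝ P \ ⋃ Q ∈ F, Q) := by
      apply measure_mono
      rintro w ⟨hw1, hw2⟩
      exact ⟨interior_subset hw2, hw1⟩
    rw [hv] at hle
    exact absurd hpos (not_lt.2 hle)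

end Pool.Agent.TwoCvx
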