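import Pool.Agent.TwoCvx.Proc
import Pool.Agent.TwoCvx.Caps
import Pool.Agent.TwoCvx.Upgrade

/-!
# Assembly: `D(n) = o(n)`
-/

set_option autoImplicit false

namespace Pool.Agent.TwoCvx

open Set Filter

/-- the linear functional whose level lines are parallel to `p q` -/
noncomputable def lin (p q : ℝ × ℝ) : (ℝ × ℝ) →ₗ[ℝ] ℝ :=
  (q.1 - p.1) • LinearMap.snd ℝ ℝ ℝ - (q.2 - p.2) • LinearMap.fst ℝ ℝ ℝ

lemma lin_apply (p q z : ℝ × ℝ) : lin p q z = (q.1 - p.1) * z.2 - (q.2 - p.2) * z.1 := rfl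

lemma orient_eq_lin (p q z : ℝ × ℝ) : orient p q z = lin p q z - lin p q p := by
  rw [lin_apply, lin_apply, orient]; ring

lemma lin_ne_zero {p q : ℝ × ℝ} (h : p.1 < q.1) : lin p q ≠ 0 := by
  intro h0
  have h1 : lin p q ((0 : ℝ), (1 : ℝ)) = 0 := by rw [h0]; rfl
  rw [lin_apply] at h1
  simp at h1
  linarith

lemma orient_cyc (p q r : ℝ × ℝ) : orient p q r = orient q r p := by
  unfold orient; ring

lemma orient_swap (p q r : ℝ × ℝ) : orient p q r = - orient p r q := by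
  unfold orient; ring

/-- left end of the cap window -/
lemma window_left {p q r z : ℝ × ℝ} (hpq : p.1 < q.1) (hqr : q.1 < r.1) (hc : orient p q r < 0)
    (h1 : orient p q z ≤ 0) (h2 : 0 < orient q r z) : q.1 < z.1 := by
  by_contra hcon
  push Not at hcon
  unfold orient at hc h1 h2
  have ha : 0 < q.1 - p.1 := by linarith
  have hb : 0 < r.1 - q.1 := by linarith
  have e1 : 0 < (q.1 - p.1) * ((r.1 - q.1) * (z.2 - q.2) - (r.2 - q.2) * (z.1 - q.1)) := mul_pos ha h2
  have e2 : (r.1 - q.1) * ((q.1 - p.1) * (z.2 - p.2) - (q.2 - p.2) * (z.1 - p.1)) ≤ 0 :=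
    mul_nonpos_of_nonneg_of_nonpos hb.le h1
  have e3 : 0 ≤ ((q.1 - p.1) * (r.2 - p.2) - (q.2 - p.2) * (r.1 - p.1)) * (z.1 - q.1) :=
    mul_nonneg_of_nonpos_of_nonpos hc.le (by linarith)
  nlinarith [e1, e2, e3]

lemma window_right {q r t z : ℝ × ℝ} (hqr : q.1 < r.1) (hrt : r.1 < t.1) (hc : orient q r t < 0)
    (h1 : orient r t z ≤ 0) (h2 : 0 < orient q r z) : z.1 < r.1 := by
  by_contra hcon
  push Not at hcon
  unfold orient at hc h1 h2
  have ha : 0 < t.1 - r.1 := by linarith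
  have hb : 0 < r.1 - q.1 := by linarith
  have e1 : 0 < (t.1 - r.1) * ((r.1 - q.1) * (z.2 - q.2) - (r.2 - q.2) * (z.1 - q.1)) := mul_pos ha h2
  have e2 : (r.1 - q.1) * ((t.1 - r.1) * (z.2 - r.2) - (t.2 - r.2) * (z.1 - r.1)) ≤ 0 :=
    mul_nonpos_of_nonneg_of_nonpos hb.le h1
  have e3 : ((r.1 - q.1) * (t.2 - q.2) - (r.2 - q.2) * (t.1 - q.1)) * (z.1 - r.1) ≤ 0 :=
    mul_nonpos_of_nonpos_of_nonneg hc.le (by linarith)
  nlinarith [e1, e2, e3]

/-- the step for a point set with a cap with many replacements -/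
theorem step_cap {L : ℕ} (hL : 1 ≤ L) {δ : ℝ} {α C : ℝ} (hα : 2 / (L : ℝ) ≤ α) (hB : Bd α C)
    {P : Finset (ℝ × ℝ)} (hgp : GenPos (P : Set (ℝ × ℝ))) {c : ℕ → ℝ × ℝ} (hc : Cap 1 (3 * L + 2) c)
    (hrep : ∀ i < L, ∃ B : Finset (ℝ × ℝ), B ⊆ P ∧ δ * P.card ≤ B.card ∧
        ∀ b ∈ B, Cap 1 (3 * L + 2) (Function.update c (3 * i + 2) b)) :
    ∃ m : ℕ, Dec (P : Set (ℝ × ℝ)) m ∧
      (m : ℝ) ≤ (α - (α - 2 / L) * δ) * P.card + (C + (L + 1) * (C + 2)) := by
  classical
  have hx : ∀ i j, i < j → j < 3 * L + 2 → (c i).1 < (c j).1 := hc.1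
  have ho : ∀ i j k, i < j → j < k → k < 3 * L + 2 → orient (c i) (c j) (c k) < 0 := by
    intro i j k h1 h2 h3
    have := hc.2 i j k h1 h2 h3
    simpa using this
  -- the cutting lines
  let κ : ℕ → (ℝ × ℝ) →ₗ[ℝ] ℝ := fun i => lin (c (3 * i)) (c (3 * i + 1))
  let τ : ℕ → ℝ := fun i => κ i (c (3 * i))
  -- the windows
  let φ : ℕ → (ℝ × ℝ) →ₗ[ℝ] ℝ := fun i => lin (c (3 * i + 1)) (c (3 * i + 3))
  let t : ℕ → ℝ := fun i => φ i (c (3 * i + 1))
  have hφ : ∀ i < L, φ i ≠ 0 := fun i hi => lin_ne_zero (hx _ _ (by omega) (by omega))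
  set Q := P.filter (fun z => ∀ i < L + 1, κ i z ≤ τ i) with hQ
  have hwin : ∀ z ∈ Q, ∀ i < L, t i < φ i z → (c (3 * i + 1)).1 < z.1 ∧ z.1 < (c (3 * i + 3)).1 := by
    intro z hz i hi hti
    have hz' := (Finset.mem_filter.mp hz).2
    have h1 : orient (c (3 * i)) (c (3 * i + 1)) z ≤ 0 := by
      rw [orient_eq_lin]; have := hz' i (by omega); simp only [κ, τ] at this; linarith
    have h2 : 0 < orient (c (3 * i + 1)) (c (3 * i + 3)) z := by
      rw [orient_eq_lin]; simp only [φ, t] at hti; linarith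
    have h3 : orient (c (3 * i + 3)) (c (3 * i + 4)) z ≤ 0 := by
      rw [orient_eq_lin]
      have := hz' (i + 1) (by omega)
      simp only [κ, τ] at this
      rw [show 3 * (i + 1) = 3 * i + 3 by ring] at this
      linarith
    exact ⟨window_left (hx _ _ (by omega) (by omega)) (hx _ _ (by omega) (by omega))
        (ho _ _ _ (by omega) (by omega) (by omega)) h1 h2,
      window_right (hx _ _ (by omega) (by omega)) (hx _ _ (by omega) (by omega))
        (ho _ _ _ (by omega) (by omega) (by omega)) h3 h2⟩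
  have hdis : ∀ z ∈ Q, ∀ i < L, ∀ j < L, t i < φ i z → t j < φ j z → i = j := by
    intro z hz i hi j hj h1 h2
    have w1 := hwin z hz i hi h1
    have w2 := hwin z hz j hj h2
    by_contra hne
    rcases lt_or_gt_of_ne hne with h | h
    · have : (c (3 * i + 3)).1 < (c (3 * j + 1)).1 := hx _ _ (by omega) (by omega)
      linarith [w1.2, w2.1]
    · have : (c (3 * j + 3)).1 < (c (3 * i + 1)).1 := hx _ _ (by omega) (by omega)
      linarith [w1.1, w2.2]
  obtain ⟨R, hRQ, s, hs, ⟨i, hi, hRi⟩, hD⟩ := process L hL φ t hφ Q.card Q rfl hdis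
  -- the lower bound for the number of removed points
  obtain ⟨B, hBP, hBc, hBr⟩ := hrep i hi
  have hBQR : B ⊆ Q \ R := by
    intro b hb
    have hcap := hBr b hb
    have hup : ∀ j, j ≠ 3 * i + 2 → Function.update c (3 * i + 2) b j = c j := fun j hj =>
      Function.update_of_ne hj _ _
    have hus : Function.update c (3 * i + 2) b (3 * i + 2) = b := Function.update_self _ _ _
    have hco : ∀ a₁ a₂ a₃, a₁ < a₂ → a₂ < a₃ → a₃ < 3 * L + 2 →
        orient (Function.update c (3 * i + 2) b a₁) (Function.update c (3 * i + 2) b a₂)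
          (Function.update c (3 * i + 2) b a₃) < 0 := by
      intro a₁ a₂ a₃ h1 h2 h3
      have := hcap.2 a₁ a₂ a₃ h1 h2 h3
      simpa using this
    have hbQ : b ∈ Q := by
      rw [hQ, Finset.mem_filter]
      refine ⟨hBP hb, fun j hj => ?_⟩
      have key : orient (c (3 * j)) (c (3 * j + 1)) b ≤ 0 := by
        rcases lt_or_ge (3 * j + 1) (3 * i + 2) with h | h
        · have := hco (3 * j) (3 * j + 1) (3 * i + 2) (by omega) h (by omega)
          rw [hus, hup (3 * j) (by omega), hup (3 * j + 1) (by omega)] at this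
          exact this.le
        · have := hco (3 * i + 2) (3 * j) (3 * j + 1) (by omega) (by omega) (by omega)
          rw [hus, hup (3 * j) (by omega), hup (3 * j + 1) (by omega), orient_cyc] at this
          exact this.le
      rw [orient_eq_lin] at key
      simp only [κ, τ]
      linarith
    rw [Finset.mem_sdiff]
    refine ⟨hbQ, fun hbR => ?_⟩
    have h1 := hRi b hbR
    have h2 := hco (3 * i + 1) (3 * i + 2) (3 * i + 3) (by omega) (by omega) (by omega)
    rw [hus, hup (3 * i + 1) (by omega), hup (3 * i + 3) (by omega), orient_swap, orient_eq_lin] at h2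
    simp only [φ, t] at h1
    linarith
  have hcard1 : (B.card : ℝ) + R.card ≤ Q.card := by
    have h1 := Finset.card_le_card hBQR
    have h2 := Finset.card_sdiff_add_card_eq_card hRQ
    exact_mod_cast (by omega : B.card + R.card ≤ Q.card)
  have hgpR : GenPos (R : Set (ℝ × ℝ)) := hgp.mono (by
    intro z hz
    exact Finset.filter_subset _ _ (hRQ (Finset.mem_coe.mp hz)))
  obtain ⟨mR, hmR, hmRle⟩ := hB R hgpR
  obtain ⟨m, hm, hmle⟩ := cut hB κ τ (L + 1) P hgp _ (hD mR hmR)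
  refine ⟨m, hm, ?_⟩
  rw [← hQ] at hmle
  push_cast at hmle
  have hLpos : (0 : ℝ) < L := by exact_mod_cast hL
  have hs' : (L : ℝ) * s + R.card ≤ Q.card := by exact_mod_cast hs
  have hs2 : 2 * (s : ℝ) ≤ 2 / L * ((Q.card : ℝ) - R.card) := by
    have : (s : ℝ) ≤ ((Q.card : ℝ) - R.card) / L := by
      rw [le_div_iff₀ hLpos]; linarith
    calc 2 * (s : ℝ) ≤ 2 * (((Q.card : ℝ) - R.card) / L) := by linarith
      _ = _ := by ring
  have hkey : (α - 2 / L) * (δ * P.card) ≤ (α - 2 / L) * ((Q.card : ℝ) - R.card) :=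
    mul_le_mul_of_nonneg_left (by linarith) (by linarith)
  nlinarith [hmle, hmRle, hs2, hkey]

lemma orient_refl (p q r : ℝ × ℝ) : orient (refl p) (refl q) (refl r) = - orient p q r := by
  simp only [orient, refl_apply]; ring

theorem Cap.refl {M : ℕ} {c : ℕ → ℝ × ℝ} (h : Cap (-1) M c) : Cap 1 M (fun i => TwoCvx.refl (c i)) := by
  refine ⟨fun i j h1 h2 => h.1 i j h1 h2, fun i j k h1 h2 h3 => ?_⟩
  have := h.2 i j k h1 h2 h3
  simp only [orient_refl]
  linarith

/-- one step of the improvement of the linear bound -/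
theorem step (L : ℕ) (hL : 1 ≤ L) : ∃ δ : ℝ, 0 < δ ∧ δ ≤ 1 ∧ ∀ α C : ℝ, 2 / (L : ℝ) ≤ α → 0 ≤ C → Bd α C →
    ∃ C' : ℝ, 0 ≤ C' ∧ Bd (α - (α - 2 / L) * δ) C' := by
  classical
  obtain ⟨δ, hδ, hδ1, n₀, hcaps⟩ := exists_caps L
  refine ⟨δ, hδ, hδ1, fun α C hα hC hB => ?_⟩
  have hLpos : (0 : ℝ) < L := by exact_mod_cast hL
  have hα0 : 0 ≤ α := le_trans (by positivity) hα
  refine ⟨C + (L + 1) * (C + 2) + α * n₀, by positivity, fun P hgp => ?_⟩
  have hα' : 0 ≤ α - (α - 2 / L) * δ := by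
    have h1 : (α - 2 / L) * δ ≤ (α - 2 / L) * 1 := mul_le_mul_of_nonneg_left hδ1 (by linarith)
    have h2 : 0 ≤ 2 / (L : ℝ) := by positivity
    linarith
  rcases lt_or_ge P.card n₀ with hsmall | hlarge
  · obtain ⟨m, hm, hmle⟩ := hB P hgp
    refine ⟨m, hm, ?_⟩
    have h1 : (P.card : ℝ) ≤ n₀ := by exact_mod_cast hsmall.le
    have h2 : α * P.card ≤ α * n₀ := mul_le_mul_of_nonneg_left h1 hα0
    have h3 : 0 ≤ (α - (α - 2 / L) * δ) * P.card := by positivity
    have h4 : 0 ≤ ((L : ℝ) + 1) * (C + 2) := by positivity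
    linarith
  · -- make the abscissae distinct
    obtain ⟨e, he, _⟩ := exists_generic P.finite_toSet (LinearMap.fst ℝ ℝ ℝ)
      (by
        intro h0
        have : (LinearMap.fst ℝ ℝ ℝ) ((1 : ℝ), (0 : ℝ)) = 0 := by rw [h0]; rfl
        simp at this) one_pos
    set P' : Finset (ℝ × ℝ) := P.image e with hP'
    have hcoe : (P' : Set (ℝ × ℝ)) = e '' (P : Set (ℝ × ℝ)) := by rw [hP', Finset.coe_image]
    have hcard : P'.card = P.card := Finset.card_image_of_injective _ e.injective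
    have hinj : InjOn Prod.fst (P' : Set (ℝ × ℝ)) := by
      rw [hcoe]
      rintro _ ⟨x, hx, rfl⟩ _ ⟨y, hy, rfl⟩ hxy
      rw [he hx hy hxy]
    have hgp' : GenPos (P' : Set (ℝ × ℝ)) := by rw [hcoe]; exact hgp.map e
    obtain ⟨s, hs, c, hcP, hcap, hrep⟩ := hcaps P' hinj hgp' (by rw [hcard]; exact hlarge)
    have hfin : ∀ m : ℕ, Dec (P' : Set (ℝ × ℝ)) m → Dec (P : Set (ℝ × ℝ)) m := fun m hm =>
      Dec.of_map e (by rwa [hcoe] at hm)
    rcases hs with rfl | rfl
    · obtain ⟨m, hm, hmle⟩ := step_cap hL hα hB hgp' hcap hrep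
      refine ⟨m, hfin m hm, ?_⟩
      rw [hcard] at hmle
      have : 0 ≤ α * n₀ := by positivity
      linarith
    · -- reflect
      set P'' : Finset (ℝ × ℝ) := P'.image refl with hP''
      have hcoe' : (P'' : Set (ℝ × ℝ)) = refl '' (P' : Set (ℝ × ℝ)) := by rw [hP'', Finset.coe_image]
      have hcard' : P''.card = P'.card := Finset.card_image_of_injective _ refl.injective
      have hgp'' : GenPos (P'' : Set (ℝ × ℝ)) := by rw [hcoe']; exact hgp'.map refl
      obtain ⟨m, hm, hmle⟩ := step_cap (δ := δ) hL hα hB hgp'' hcap.refl (by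
        intro i hi
        obtain ⟨B, hBP, hBc, hBr⟩ := hrep i hi
        refine ⟨B.image refl, Finset.image_subset_image hBP, ?_, ?_⟩
        · rw [hcard', Finset.card_image_of_injective _ refl.injective]; exact hBc
        · intro b hb
          rw [Finset.mem_image] at hb
          obtain ⟨b', hb', rfl⟩ := hb
          have h1 := (hBr b' hb').refl
          have h2 : (fun j => TwoCvx.refl (Function.update c (3 * i + 2) b' j)) =
              Function.update (fun j => TwoCvx.refl (c j)) (3 * i + 2) (TwoCvx.refl b') := by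
            funext j
            by_cases hj : j = 3 * i + 2
            · subst hj; simp
            · simp [Function.update_of_ne hj]
          rwa [h2] at h1)
      refine ⟨m, hfin m (Dec.of_map refl (by rwa [hcoe'] at hm)), ?_⟩
      rw [hcard', hcard] at hmle
      have : 0 ≤ α * n₀ := by positivity
      linarith

theorem bd_two : Bd 2 0 := by
  classical
  have key : ∀ (n : ℕ) (P : Finset (ℝ × ℝ)), P.card = n → Dec (P : Set (ℝ × ℝ)) (2 * n) := by
    intro n
    induction n using Nat.strong_induction_on with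
    | _ n ih =>
      intro P hP
      rcases P.eq_empty_or_nonempty with rfl | hne
      · simpa using dec_empty (2 * n)
      · obtain ⟨z, hz, hzmax⟩ := P.exists_max_image (LinearMap.fst ℝ ℝ ℝ) hne
        set Q : Finset (ℝ × ℝ) := P.filter (fun w => w ∈ inner (P : Set (ℝ × ℝ))) with hQ
        have hcoe : (Q : Set (ℝ × ℝ)) = inner (P : Set (ℝ × ℝ)) := by
          ext w
          simp only [hQ, Finset.coe_filter, mem_ofPred_eq]
          exact ⟨fun h => h.2, fun h => ⟨h.1, h⟩⟩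
        have hlt : Q.card < P.card := by
          apply Finset.card_lt_card
          rw [Finset.ssubset_iff_of_subset (Finset.filter_subset _ _)]
          refine ⟨z, hz, fun h => ?_⟩
          refine not_inner_of_max (φ := LinearMap.fst ℝ ℝ ℝ) ?_ (fun w hw => hzmax w hw)
            (Finset.mem_filter.mp h).2
          intro h0
          have : (LinearMap.fst ℝ ℝ ℝ) ((1 : ℝ), (0 : ℝ)) = 0 := by rw [h0]; rfl
          simp at this
        have h1 := ih Q.card (by omega) Q rfl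
        rw [hcoe] at h1
        have h2 := peel P.finite_toSet h1
        exact h2.mono (by omega)
  intro P _
  refine ⟨2 * P.card, key _ P rfl, ?_⟩
  push_cast; linarith

theorem bd_all (ε : ℝ) (hε : 0 < ε) : ∃ C : ℝ, 0 ≤ C ∧ Bd ε C := by
  obtain ⟨L, hLε⟩ := exists_nat_gt (2 / ε)
  have hL0 : (0 : ℝ) < L := lt_trans (by positivity) hLε
  have hL : 1 ≤ L := by exact_mod_cast hL0
  have h2L : 2 / (L : ℝ) < ε := by
    rw [div_lt_iff₀ hε] at hLε
    rw [div_lt_iff₀ hL0]; linarith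
  obtain ⟨δ, hδ, hδ1, hstep⟩ := step L hL
  have hk : ∀ k : ℕ, ∃ C : ℝ, 0 ≤ C ∧ Bd (2 / L + (1 - δ) ^ k * 2) C := by
    intro k
    induction k with
    | zero =>
      refine ⟨0, le_rfl, fun P hP => ?_⟩
      obtain ⟨m, hm, hmle⟩ := bd_two P hP
      refine ⟨m, hm, ?_⟩
      have : 0 ≤ 2 / (L : ℝ) * P.card := by positivity
      simp only [pow_zero]
      nlinarith
    | succ k ih =>
      obtain ⟨C, hC, hB⟩ := ih
      have h1 : (0 : ℝ) ≤ (1 - δ) ^ k * 2 := by
        have : 0 ≤ 1 - δ := by linarith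
        positivity
      obtain ⟨C', hC', hB'⟩ := hstep _ C (by linarith) hC hB
      refine ⟨C', hC', ?_⟩
      have e : 2 / (L : ℝ) + (1 - δ) ^ k * 2 - (2 / (L : ℝ) + (1 - δ) ^ k * 2 - 2 / (L : ℝ)) * δ
          = 2 / (L : ℝ) + (1 - δ) ^ (k + 1) * 2 := by rw [pow_succ]; ring
      rwa [e] at hB'
  obtain ⟨k, hk1⟩ := exists_pow_lt_of_lt_one (show (0 : ℝ) < (ε - 2 / L) / 2 by linarith)
    (show 1 - δ < 1 by linarith)
  obtain ⟨C, hC, hB⟩ := hk k
  refine ⟨C, hC, fun P hP => ?_⟩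
  obtain ⟨m, hm, hmle⟩ := hB P hP
  refine ⟨m, hm, hmle.trans ?_⟩
  have : (2 / (L : ℝ) + (1 - δ) ^ k * 2) * P.card ≤ ε * P.card :=
    mul_le_mul_of_nonneg_right (by linarith) (by positivity)
  linarith

/-- **Main theorem**: every planar point set in general position has a decomposition into a sublinear number of
`2`-convex polygons. -/
theorem main : ∃ f : ℕ → ℕ, Tendsto (fun n : ℕ => (f n : ℝ) / n) atTop (nhds 0) ∧
    ∀ P : Finset (ℝ × ℝ), GenPos (P : Set (ℝ × ℝ)) → 3 ≤ P.card →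
      ∃ F : Finset (Set (ℝ × ℝ)), IsDecomposition (P : Set (ℝ × ℝ)) F ∧ F.card ≤ f P.card := by
  classical
  let S : ℕ → Set ℕ := fun n => {m | ∀ P : Finset (ℝ × ℝ), P.card = n → GenPos (P : Set (ℝ × ℝ)) →
    Dec (P : Set (ℝ × ℝ)) m}
  have hmem : ∀ n, ∀ m : ℕ, ∀ r : ℝ, (∀ P : Finset (ℝ × ℝ), P.card = n → GenPos (P : Set (ℝ × ℝ)) →
      ∃ m : ℕ, Dec (P : Set (ℝ × ℝ)) m ∧ (m : ℝ) ≤ r) → r < m + 1 → m ∈ S n := by
    intro n m r h hr P hP hgp
    obtain ⟨m', hm', hle⟩ := h P hP hgp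
    refine hm'.mono ?_
    have : (m' : ℝ) < m + 1 := lt_of_le_of_lt hle hr
    have : m' < m + 1 := by exact_mod_cast this
    omega
  have hne : ∀ n, (S n).Nonempty := by
    intro n
    refine ⟨2 * n, hmem n (2 * n) (2 * n) (fun P hP hgp => ?_) (by push_cast; linarith)⟩
    obtain ⟨m, hm, hle⟩ := bd_two P hgp
    exact ⟨m, hm, by rw [hP] at hle; linarith⟩
  refine ⟨fun n => sInf (S n), ?_, ?_⟩
  · rw [Metric.tendsto_atTop]
    intro ε hε
    obtain ⟨C, hC, hB⟩ := bd_all (ε / 2) (by linarith)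
    obtain ⟨N, hN⟩ := exists_nat_gt (2 * C / ε)
    refine ⟨N + 1, fun n hn => ?_⟩
    have hnpos : (0 : ℝ) < n := by exact_mod_cast (by omega : 0 < n)
    have hfl : ⌊ε / 2 * n + C⌋₊ ∈ S n := by
      refine hmem n _ (ε / 2 * n + C) (fun P hP hgp => ?_) (Nat.lt_floor_add_one _)
      obtain ⟨m, hm, hle⟩ := hB P hgp
      exact ⟨m, hm, by rw [hP] at hle; exact hle⟩
    have h1 : (sInf (S n) : ℕ) ≤ ⌊ε / 2 * n + C⌋₊ := Nat.sInf_le hfl
    have h2 : ((sInf (S n) : ℕ) : ℝ) ≤ ε / 2 * n + C :=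
      le_trans (by exact_mod_cast h1) (Nat.floor_le (by positivity))
    have hnN : (N : ℝ) < n := by exact_mod_cast (by omega : N < n)
    have h3 : 2 * C < ε * n := by
      have : 2 * C / ε < n := lt_trans hN hnN
      rw [div_lt_iff₀ hε] at this
      linarith
    rw [Real.dist_eq, sub_zero, abs_of_nonneg (by positivity), div_lt_iff₀ hnpos]
    linarith
  · intro P hgp h3
    have h1 : Dec (P : Set (ℝ × ℝ)) (sInf (S P.card)) := Nat.sInf_mem (hne P.card) P rfl hgp
    exact h1.isDecomposition P.finite_toSet hgp (by rw [Set.ncard_coe_finset]; exact h3)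

end Pool.Agent.TwoCvx
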