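import Pool.Agent.TwoCvx.JoinUp

/-!
# Joining: two point sets separated by a vertical line, distinct abscissae

`Dec A m → Dec B m' → Dec (A ∪ B) (m + m' + 2)`.
If `A = ∅` or `B = ∅` this is trivial. Otherwise take the families `F_A`, `F_B` and the families `F_up`, `F_low` (at most one
member each) of `join_up`, `join_low`.
* members of `F_A` are pieces for `A ∪ B`: the points of `B` are not in `convexHull A ⊆ {x < c}`; the same for `B`;
* disjointness: `convexHull A` and `convexHull B` are disjoint; `convexHull A = region a₀.1 a₁.1 l u` (`convexHull_eq`)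
  lies in `{z.2 ≤ G₊ z.1}` and in `{G₋ z.1 ≤ z.2}`, the same for `B`, where `G₊ = cross a₁ b₀ u v`, `G₋ = cross a₁ b₀ l l'`; and
  `G₋ ≤ G₊` on `[a₀.1, b₁.1]`;
* covering: a point `z` of `convexHull (A ∪ B)` (abscissa in `[a₀.1, b₁.1]`) with `z.2 > G₊ z.1` is covered by `F_up`, with
  `z.2 < G₋ z.1` by `F_low`; if `G₋ z.1 ≤ z.2 ≤ G₊ z.1` then it is in `convexHull A`, or in `convexHull B`, or on the line
  through `a₁` and `b₀`, which is a null set.
-/

set_option autoImplicit false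

namespace Pool.Agent.TwoCvx

open Set MeasureTheory

theorem volume_line (m k : ℝ) : volume {z : ℝ × ℝ | z.2 = m * z.1 + k} = 0 := by
  have hmeas : MeasurableSet {z : ℝ × ℝ | z.2 = m * z.1 + k} :=
    measurableSet_eq_fun measurable_snd ((measurable_fst.const_mul m).add_const k)
  rw [Measure.volume_eq_prod, Measure.measure_prod_null hmeas]
  refine Filter.Eventually.of_forall fun x => ?_
  have : (Prod.mk x ⁻¹' {z : ℝ × ℝ | z.2 = m * z.1 + k}) = {m * x + k} := by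
    ext y
    simp
  simp [this]

lemma Join_Dec_mono {P : Set (ℝ × ℝ)} {m n : ℕ} (h : Dec P m) (hmn : m ≤ n) : Dec P n := by
  obtain ⟨F, h1, h2⟩ := h
  exact ⟨F, h1.trans hmn, h2⟩

lemma Join_hull_lt {A : Set (ℝ × ℝ)} {c : ℝ} (hAc : ∀ z ∈ A, z.1 < c) : ∀ z ∈ convexHull ℝ A, z.1 < c := by
  intro z hz
  have hc : Convex ℝ {z : ℝ × ℝ | z.1 < c} :=
    convex_halfSpace_lt (f := fun z : ℝ × ℝ => z.1) ⟨fun _ _ => rfl, fun _ _ => rfl⟩ c
  exact convexHull_min hAc hc hz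

lemma Join_hull_gt {A : Set (ℝ × ℝ)} {c : ℝ} (hAc : ∀ z ∈ A, c < z.1) : ∀ z ∈ convexHull ℝ A, c < z.1 := by
  intro z hz
  have hc : Convex ℝ {z : ℝ × ℝ | c < z.1} :=
    convex_halfSpace_gt (f := fun z : ℝ × ℝ => z.1) ⟨fun _ _ => rfl, fun _ _ => rfl⟩ c
  exact convexHull_min hAc hc hz

lemma Join_hull_le {A : Set (ℝ × ℝ)} {c : ℝ} (hAc : ∀ z ∈ A, z.1 ≤ c) : ∀ z ∈ convexHull ℝ A, z.1 ≤ c := by
  intro z hz
  have hc : Convex ℝ {z : ℝ × ℝ | z.1 ≤ c} :=
    convex_halfSpace_le (f := fun z : ℝ × ℝ => z.1) ⟨fun _ _ => rfl, fun _ _ => rfl⟩ c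
  exact convexHull_min hAc hc hz

lemma Join_hull_ge {A : Set (ℝ × ℝ)} {c : ℝ} (hAc : ∀ z ∈ A, c ≤ z.1) : ∀ z ∈ convexHull ℝ A, c ≤ z.1 := by
  intro z hz
  have hc : Convex ℝ {z : ℝ × ℝ | c ≤ z.1} :=
    convex_halfSpace_ge (f := fun z : ℝ × ℝ => z.1) ⟨fun _ _ => rfl, fun _ _ => rfl⟩ c
  exact convexHull_min hAc hc hz

lemma Join_lower_le_upper {P : Set (ℝ × ℝ)} {p q : ℝ × ℝ} {l u : ℝ → ℝ} (hE : Ext P p q) (hl : Lower P p q l)
    (hu : Upper P p q u) {x : ℝ} (h1 : p.1 ≤ x) (h2 : x ≤ q.1) : l x ≤ u x := by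
  have h := hl.pl.mem_convexHull (x := x) ⟨h1, h2⟩
  rw [convexHull_eq hE hl hu] at h
  exact h.2.2.2

lemma Join_cross_left {p q : ℝ × ℝ} {w₁ w₂ : ℝ → ℝ} {x : ℝ} (hx : x ≤ p.1) : cross p q w₁ w₂ x = w₁ x := by
  simp [cross, hx]

lemma Join_cross_mid {p q : ℝ × ℝ} {w₁ w₂ : ℝ → ℝ} {x : ℝ} (hx : p.1 < x) (hx' : x ≤ q.1) :
    cross p q w₁ w₂ x = lineT p q x := by
  simp [cross, hx', not_le.2 hx]

lemma Join_cross_right {p q : ℝ × ℝ} {w₁ w₂ : ℝ → ℝ} {x : ℝ} (hpq : p.1 < q.1) (hw : w₂ q.1 = q.2) (hx : q.1 ≤ x) :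
    cross p q w₁ w₂ x = w₂ x := by
  rcases hx.eq_or_lt with h | h
  · subst h
    rw [Join_cross_mid hpq le_rfl, lineT_right hpq, hw]
  · simp [cross, not_le.2 h, not_le.2 (hpq.trans h)]

lemma Join_piece_left {A B : Set (ℝ × ℝ)} {Q : Set (ℝ × ℝ)} (hsep : ∀ p ∈ B, p ∉ convexHull ℝ A)
    (h : Piece A Q) : Piece (A ∪ B) Q := by
  refine ⟨?_, h.two, h.sub.trans (convexHull_mono subset_union_left), ?_⟩
  · obtain ⟨k, v, h1, h2⟩ := h.polygon
    exact ⟨k, v, h1, fun i hi => Or.inl (h2 i hi)⟩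
  · rintro p (hp | hp) hpQ
    · exact h.empty p hp hpQ
    · exact hsep p hp (h.sub (interior_subset hpQ))

theorem join_inj {A B : Set (ℝ × ℝ)} {c : ℝ} (hfA : A.Finite) (hfB : B.Finite) (hinj : InjOn Prod.fst (A ∪ B))
    (hgp : GenPos (A ∪ B)) (hAc : ∀ z ∈ A, z.1 < c) (hBc : ∀ z ∈ B, c < z.1) {m m' : ℕ} (h : Dec A m)
    (h' : Dec B m') : Dec (A ∪ B) (m + m' + 2) := by
  classical
  rcases A.eq_empty_or_nonempty with hA0 | hAne
  · subst hA0
    rw [empty_union]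
    exact Join_Dec_mono h' (by omega)
  rcases B.eq_empty_or_nonempty with hB0 | hBne
  · subst hB0
    rw [union_empty]
    exact Join_Dec_mono h (by omega)
  obtain ⟨a₀, a₁, hA⟩ := exists_ext hfA hAne
  obtain ⟨b₀, b₁, hB⟩ := exists_ext hfB hBne
  have hinjA : InjOn Prod.fst A := hinj.mono subset_union_left
  have hinjB : InjOn Prod.fst B := hinj.mono subset_union_right
  obtain ⟨l, hl⟩ := exists_lower hfA hinjA hA
  obtain ⟨u, hu⟩ := exists_upper hfA hinjA hA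
  obtain ⟨l', hl'⟩ := exists_lower hfB hinjB hB
  obtain ⟨v, hv⟩ := exists_upper hfB hinjB hB
  obtain ⟨F1, hF1c, hF1P, hF1i, hF1v⟩ := join_up hfA hfB hinj hgp hAc hBc hA hB hu hv
  obtain ⟨F2, hF2c, hF2P, hF2i, hF2v⟩ := join_low hfA hfB hinj hgp hAc hBc hA hB hl hl'
  obtain ⟨FA, hFAc, hFAP, hFAd, hFAv⟩ := h
  obtain ⟨FB, hFBc, hFBP, hFBd, hFBv⟩ := h'
  have ha1 : a₁.1 < c := hAc _ hA.hq
  have hb0 : c < b₀.1 := hBc _ hB.hp
  have hab : a₁.1 < b₀.1 := ha1.trans hb0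
  have ha01 : a₀.1 ≤ a₁.1 := hA.hmin _ hA.hq
  have hb01 : b₀.1 ≤ b₁.1 := hB.hmin _ hB.hq
  have hvb : v b₀.1 = b₀.2 := Upper.left hinjB hB hv
  have hlb : l' b₀.1 = b₀.2 := Lower.left hinjB hB hl'
  have hullA := convexHull_eq hA hl hu
  have hullB := convexHull_eq hB hl' hv
  have hsA : ∀ z ∈ convexHull ℝ A, z.1 < c := Join_hull_lt hAc
  have hsB : ∀ z ∈ convexHull ℝ B, c < z.1 := Join_hull_gt hBc
  -- position of the two hulls with respect to the two crossing graphs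
  have hAup : ∀ z ∈ convexHull ℝ A, z.2 ≤ cross a₁ b₀ u v z.1 := by
    intro z hz
    rw [hullA] at hz
    rw [Join_cross_left hz.2.1]
    exact hz.2.2.2
  have hAlow : ∀ z ∈ convexHull ℝ A, cross a₁ b₀ l l' z.1 ≤ z.2 := by
    intro z hz
    rw [hullA] at hz
    rw [Join_cross_left hz.2.1]
    exact hz.2.2.1
  have hBup : ∀ z ∈ convexHull ℝ B, z.2 ≤ cross a₁ b₀ u v z.1 := by
    intro z hz
    rw [hullB] at hz
    rw [Join_cross_right hab hvb hz.1]
    exact hz.2.2.2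
  have hBlow : ∀ z ∈ convexHull ℝ B, cross a₁ b₀ l l' z.1 ≤ z.2 := by
    intro z hz
    rw [hullB] at hz
    rw [Join_cross_right hab hlb hz.1]
    exact hz.2.2.1
  have hG : ∀ x, a₀.1 ≤ x → x ≤ b₁.1 → cross a₁ b₀ l l' x ≤ cross a₁ b₀ u v x := by
    intro x hx1 hx2
    rcases le_or_gt x a₁.1 with hx | hx
    · rw [Join_cross_left hx, Join_cross_left hx]
      exact Join_lower_le_upper hA hl hu hx1 hx
    rcases le_or_gt x b₀.1 with hx' | hx'
    · rw [Join_cross_mid hx hx', Join_cross_mid hx hx']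
    · rw [Join_cross_right hab hlb hx'.le, Join_cross_right hab hvb hx'.le]
      exact Join_lower_le_upper hB hl' hv hx'.le hx2
  -- disjointness of members of different families
  have dAB : ∀ Q ∈ FA, ∀ Q' ∈ FB, Disjoint (interior Q) (interior Q') := by
    intro Q hQ Q' hQ'
    refine Set.disjoint_left.2 fun z hz hz' => ?_
    have h1 := hsA z ((hFAP Q hQ).sub (interior_subset hz))
    have h2 := hsB z ((hFBP Q' hQ').sub (interior_subset hz'))
    exact lt_asymm h1 h2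
  have dA1 : ∀ Q ∈ FA, ∀ R ∈ F1, Disjoint (interior Q) (interior R) := by
    intro Q hQ R hR
    refine Set.disjoint_left.2 fun z hz hz' => ?_
    exact absurd (hF1i R hR z hz').2.2 (not_lt.2 (hAup z ((hFAP Q hQ).sub (interior_subset hz))))
  have dA2 : ∀ Q ∈ FA, ∀ R ∈ F2, Disjoint (interior Q) (interior R) := by
    intro Q hQ R hR
    refine Set.disjoint_left.2 fun z hz hz' => ?_
    exact absurd (hF2i R hR z hz').2.2 (not_lt.2 (hAlow z ((hFAP Q hQ).sub (interior_subset hz))))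
  have dB1 : ∀ Q ∈ FB, ∀ R ∈ F1, Disjoint (interior Q) (interior R) := by
    intro Q hQ R hR
    refine Set.disjoint_left.2 fun z hz hz' => ?_
    exact absurd (hF1i R hR z hz').2.2 (not_lt.2 (hBup z ((hFBP Q hQ).sub (interior_subset hz))))
  have dB2 : ∀ Q ∈ FB, ∀ R ∈ F2, Disjoint (interior Q) (interior R) := by
    intro Q hQ R hR
    refine Set.disjoint_left.2 fun z hz hz' => ?_
    exact absurd (hF2i R hR z hz').2.2 (not_lt.2 (hBlow z ((hFBP Q hQ).sub (interior_subset hz))))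
  have d12 : ∀ Q ∈ F1, ∀ R ∈ F2, Disjoint (interior Q) (interior R) := by
    intro Q hQ R hR
    refine Set.disjoint_left.2 fun z hz hz' => ?_
    obtain ⟨h1, h2, h3⟩ := hF1i Q hQ z hz
    have h4 := (hF2i R hR z hz').2.2
    have h5 := hG z.1 h1 h2
    linarith
  refine ⟨FA ∪ FB ∪ F1 ∪ F2, ?_, ?_, ?_, ?_⟩
  · calc (FA ∪ FB ∪ F1 ∪ F2).card ≤ (FA ∪ FB ∪ F1).card + F2.card := Finset.card_union_le _ _
      _ ≤ (FA ∪ FB).card + F1.card + F2.card := by
        gcongr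
        exact Finset.card_union_le _ _
      _ ≤ FA.card + FB.card + F1.card + F2.card := by
        gcongr
        exact Finset.card_union_le _ _
      _ ≤ m + m' + 2 := by omega
  · intro Q hQ
    simp only [Finset.mem_union] at hQ
    rcases hQ with ((hQ | hQ) | hQ) | hQ
    · exact Join_piece_left (fun p hp hpA => lt_asymm (hsA p hpA) (hBc p hp)) (hFAP Q hQ)
    · rw [union_comm]
      exact Join_piece_left (fun p hp hpB => lt_asymm (hsB p hpB) (hAc p hp)) (hFBP Q hQ)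
    · exact hF1P Q hQ
    · exact hF2P Q hQ
  · intro Q hQ Q' hQ' hne
    simp only [Finset.mem_union] at hQ hQ'
    rcases hQ with ((hQ | hQ) | hQ) | hQ <;> rcases hQ' with ((hQ' | hQ') | hQ') | hQ'
    · exact hFAd Q hQ Q' hQ' hne
    · exact dAB Q hQ Q' hQ'
    · exact dA1 Q hQ Q' hQ'
    · exact dA2 Q hQ Q' hQ'
    · exact (dAB Q' hQ' Q hQ).symm
    · exact hFBd Q hQ Q' hQ' hne
    · exact dB1 Q hQ Q' hQ'
    · exact dB2 Q hQ Q' hQ'
    · exact (dA1 Q' hQ' Q hQ).symm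
    · exact (dB1 Q' hQ' Q hQ).symm
    · exact absurd (Finset.card_le_one.1 hF1c Q hQ Q' hQ') hne
    · exact d12 Q hQ Q' hQ'
    · exact (dA2 Q' hQ' Q hQ).symm
    · exact (dB2 Q' hQ' Q hQ).symm
    · exact (d12 Q' hQ' Q hQ).symm
    · exact absurd (Finset.card_le_one.1 hF2c Q hQ Q' hQ') hne
  · obtain ⟨μ, κ, hμκ⟩ := lineT_affine a₁ b₀
    refine measure_mono_null (t := (convexHull ℝ A \ ⋃ Q ∈ FA, Q) ∪ (convexHull ℝ B \ ⋃ Q ∈ FB, Q) ∪
      {z : ℝ × ℝ | z.2 = μ * z.1 + κ}) ?_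
      (measure_union_null (measure_union_null hFAv hFBv) (volume_line μ κ))
    rintro z ⟨hz, hzF⟩
    have hx1 : a₀.1 ≤ z.1 := by
      refine Join_hull_ge ?_ z hz
      rintro w (hw | hw)
      · exact hA.hmin w hw
      · linarith [hB.hmin w hw]
    have hx2 : z.1 ≤ b₁.1 := by
      refine Join_hull_le ?_ z hz
      rintro w (hw | hw)
      · linarith [hA.hmax w hw]
      · exact hB.hmax w hw
    have hnot : ∀ Q ∈ FA ∪ FB ∪ F1 ∪ F2, z ∉ Q := by
      intro Q hQ hzQ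
      exact hzF (mem_iUnion₂.2 ⟨Q, hQ, hzQ⟩)
    have hup : z.2 ≤ cross a₁ b₀ u v z.1 := by
      by_contra hcon
      obtain ⟨R, hR, hzR⟩ := hF1v z hz (not_le.1 hcon)
      exact hnot R (by simp [hR]) hzR
    have hlow : cross a₁ b₀ l l' z.1 ≤ z.2 := by
      by_contra hcon
      obtain ⟨R, hR, hzR⟩ := hF2v z hz (not_le.1 hcon)
      exact hnot R (by simp [hR]) hzR
    rcases le_or_gt z.1 a₁.1 with hx | hx
    · left; left
      rw [Join_cross_left hx] at hup hlow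
      refine ⟨?_, ?_⟩
      · rw [hullA]
        exact ⟨hx1, hx, hlow, hup⟩
      · intro hcon
        obtain ⟨Q, hQ, hzQ⟩ := mem_iUnion₂.1 hcon
        exact hnot Q (by simp [hQ]) hzQ
    rcases le_or_gt z.1 b₀.1 with hx' | hx'
    · right
      rw [Join_cross_mid hx hx'] at hup hlow
      have : z.2 = lineT a₁ b₀ z.1 := le_antisymm hup hlow
      rw [hμκ] at this
      exact this
    · left; right
      rw [Join_cross_right hab hvb hx'.le] at hup
      rw [Join_cross_right hab hlb hx'.le] at hlow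
      refine ⟨?_, ?_⟩
      · rw [hullB]
        exact ⟨hx'.le, hx2, hlow, hup⟩
      · intro hcon
        obtain ⟨Q, hQ, hzQ⟩ := mem_iUnion₂.1 hcon
        exact hnot Q (by simp [hQ]) hzQ

end Pool.Agent.TwoCvx
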