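import Pool.Agent.TwoCvx.Peel
import Pool.Agent.TwoCvx.Join

/-!
# Peeling and joining in general

* `exists_generic`: `φ z = α z.1 + β z.2`, `(α, β) ≠ 0`, `ψ z = -β z.1 + α z.2`; for every `t` the map
  `e_t z = (φ z + t ψ z, ψ z)` is a linear isomorphism. For a pair `z ≠ w` of `P` the equation
  `φ (z - w) + t ψ (z - w) = 0` has at most one solution `t` (not both `φ (z - w)` and `ψ (z - w)` are zero), so all but
  finitely many `t` are good, and `|t ψ z| < ε` on `P` for small `t > 0`.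
* `peel`: `exists_generic` with `φ = fst`, `peel_inj`, `Dec.map`, `Dec.of_map`, `image_inter_interior`.
* `join`: if `A` or `B` is empty this is trivial; otherwise `φ ≠ 0`; `exists_generic` with
  `ε = min (c - max_A φ) (min_B φ - c)`, then `join_inj` for the images.
-/

set_option autoImplicit false

namespace Pool.Agent.TwoCvx

open Set

theorem Gen_lin_eq (φ : (ℝ × ℝ) →ₗ[ℝ] ℝ) (z : ℝ × ℝ) : φ z = φ (1, 0) * z.1 + φ (0, 1) * z.2 := by
  have h : z = z.1 • ((1, 0) : ℝ × ℝ) + z.2 • ((0, 1) : ℝ × ℝ) := by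
    ext <;> simp
  conv_lhs => rw [h]
  rw [map_add, map_smul, map_smul, smul_eq_mul, smul_eq_mul]
  ring

theorem exists_generic {P : Set (ℝ × ℝ)} (hf : P.Finite) (φ : (ℝ × ℝ) →ₗ[ℝ] ℝ) (hφ : φ ≠ 0) {ε : ℝ}
    (hε : 0 < ε) :
    ∃ e : (ℝ × ℝ) ≃ₗ[ℝ] (ℝ × ℝ), InjOn (fun z => (e z).1) P ∧ ∀ z ∈ P, |(e z).1 - φ z| < ε := by
  classical
  set α := φ (1, 0) with hα
  set β := φ (0, 1) with hβ
  have hφz : ∀ z, φ z = α * z.1 + β * z.2 := fun z => Gen_lin_eq φ z
  have hD : 0 < α ^ 2 + β ^ 2 := by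
    by_contra hcon
    have h1 : α ^ 2 + β ^ 2 = 0 := le_antisymm (not_lt.1 hcon) (by positivity)
    have h2 : α = 0 := by nlinarith [sq_nonneg α, sq_nonneg β]
    have h3 : β = 0 := by nlinarith [sq_nonneg α, sq_nonneg β]
    apply hφ
    ext
    · simpa using h2
    · simpa using h3
  let ψ : (ℝ × ℝ) →ₗ[ℝ] ℝ := (-β) • LinearMap.fst ℝ ℝ ℝ + α • LinearMap.snd ℝ ℝ ℝ
  have hψz : ∀ z : ℝ × ℝ, ψ z = -β * z.1 + α * z.2 := fun z => rfl
  have hzero : ∀ z : ℝ × ℝ, φ z = 0 → ψ z = 0 → z = 0 := by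
    intro z h1 h2
    rw [hφz] at h1
    rw [hψz] at h2
    have h3 : (α ^ 2 + β ^ 2) * z.1 = 0 := by
      have : (α ^ 2 + β ^ 2) * z.1 = α * (α * z.1 + β * z.2) - β * (-β * z.1 + α * z.2) := by ring
      rw [this, h1, h2]; ring
    have h4 : (α ^ 2 + β ^ 2) * z.2 = 0 := by
      have : (α ^ 2 + β ^ 2) * z.2 = β * (α * z.1 + β * z.2) + α * (-β * z.1 + α * z.2) := by ring
      rw [this, h1, h2]; ring
    ext
    · exact (mul_eq_zero.1 h3).resolve_left hD.ne'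
    · exact (mul_eq_zero.1 h4).resolve_left hD.ne'
  obtain ⟨M, hM⟩ := (hf.image fun z => |ψ z|).bddAbove
  have hM' : ∀ z ∈ P, |ψ z| ≤ |M| + 1 := fun z hz =>
    (hM (mem_image_of_mem _ hz)).trans ((le_abs_self M).trans (by linarith))
  have hMpos : 0 < |M| + 1 := by positivity
  set δ := ε / (|M| + 1) with hδ
  have hδpos : 0 < δ := div_pos hε hMpos
  -- the bad parameters
  let bad : Set ℝ := ⋃ z ∈ P, ⋃ w ∈ P, {t | z ≠ w ∧ φ (z - w) + t * ψ (z - w) = 0}
  have hbad : bad.Finite := by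
    refine hf.biUnion fun z _ => hf.biUnion fun w _ => ?_
    refine Set.Subsingleton.finite ?_
    rintro t ⟨hne, ht⟩ s ⟨_, hs⟩
    have hzw : z - w ≠ 0 := sub_ne_zero.2 hne
    by_contra hts
    have h1 : (t - s) * ψ (z - w) = 0 := by linarith
    have h2 : ψ (z - w) = 0 := (mul_eq_zero.1 h1).resolve_left (sub_ne_zero.2 hts)
    have h3 : φ (z - w) = 0 := by rw [h2] at ht; simpa using ht
    exact hzw (hzero _ h3 h2)
  have hinf : (Ioo (0 : ℝ) δ).Infinite := Ioo_infinite hδpos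
  obtain ⟨t, ht, htb⟩ := (hinf.sdiff hbad).nonempty
  have hinj : Function.Injective ((φ + t • ψ).prod ψ) := by
    rw [injective_iff_map_eq_zero]
    intro z hz
    have h1 := congrArg Prod.fst hz
    have h2 := congrArg Prod.snd hz
    simp only [LinearMap.prod_apply, Function.prod, LinearMap.add_apply, LinearMap.smul_apply, smul_eq_mul, Prod.fst_zero,
      Prod.snd_zero] at h1 h2
    rw [h2] at h1
    exact hzero z (by simpa using h1) h2
  refine ⟨LinearEquiv.ofInjectiveEndo _ hinj, ?_, ?_⟩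
  · intro z hz w hw hzw
    have hzw' : φ z + t * ψ z = φ w + t * ψ w := hzw
    by_contra hne
    apply htb
    refine mem_iUnion₂.2 ⟨z, hz, mem_iUnion₂.2 ⟨w, hw, hne, ?_⟩⟩
    rw [map_sub, map_sub]
    linarith
  · intro z hz
    have h1 : ((LinearEquiv.ofInjectiveEndo _ hinj) z).1 = φ z + t * ψ z := rfl
    rw [h1, add_sub_cancel_left, abs_mul, abs_of_pos ht.1]
    calc t * |ψ z| ≤ t * (|M| + 1) := mul_le_mul_of_nonneg_left (hM' z hz) ht.1.le
      _ < δ * (|M| + 1) := mul_lt_mul_of_pos_right ht.2 hMpos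
      _ = ε := by rw [hδ]; field_simp

theorem Gen_injOn {P : Set (ℝ × ℝ)} {e : (ℝ × ℝ) ≃ₗ[ℝ] (ℝ × ℝ)} (h : InjOn (fun z => (e z).1) P) :
    InjOn Prod.fst (e '' P) := by
  rintro _ ⟨z, hz, rfl⟩ _ ⟨w, hw, rfl⟩ hzw
  rw [h hz hw hzw]

theorem peel {Q : Set (ℝ × ℝ)} (hf : Q.Finite) {m : ℕ} (h : Dec (inner Q) m) : Dec Q (m + 2) := by
  have hφ : LinearMap.fst ℝ ℝ ℝ ≠ 0 := by
    intro hcon
    have := LinearMap.congr_fun hcon ((1, 0) : ℝ × ℝ)
    simp at this
  obtain ⟨e, he, -⟩ := exists_generic hf (LinearMap.fst ℝ ℝ ℝ) hφ one_pos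
  refine Dec.of_map e (peel_inj (hf.image _) (Gen_injOn he) ?_)
  have h1 : inner (e '' Q) = e '' inner Q := (image_inter_interior e Q).symm
  rw [h1]
  exact h.map e

theorem Dec.mono {Q : Set (ℝ × ℝ)} {m m' : ℕ} (h : Dec Q m) (hm : m ≤ m') : Dec Q m' := by
  obtain ⟨F, h1, h2⟩ := h
  exact ⟨F, h1.trans hm, h2⟩

theorem dec_empty (m : ℕ) : Dec (∅ : Set (ℝ × ℝ)) m :=
  ⟨∅, by simp, by simp, by simp, by simp⟩

theorem join {A B : Set (ℝ × ℝ)} (hfA : A.Finite) (hfB : B.Finite) (hgp : GenPos (A ∪ B))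
    (φ : (ℝ × ℝ) →ₗ[ℝ] ℝ) (c : ℝ) (hA : ∀ z ∈ A, φ z < c) (hB : ∀ z ∈ B, c < φ z) {m m' : ℕ} (h : Dec A m)
    (h' : Dec B m') : Dec (A ∪ B) (m + m' + 2) := by
  rcases A.eq_empty_or_nonempty with hA0 | hAne
  · subst hA0
    rw [empty_union]
    exact h'.mono (by omega)
  rcases B.eq_empty_or_nonempty with hB0 | hBne
  · subst hB0
    rw [union_empty]
    exact h.mono (by omega)
  obtain ⟨a, ha, hamax⟩ := Set.exists_max_image A φ hfA hAne
  obtain ⟨b, hb, hbmin⟩ := Set.exists_min_image B φ hfB hBne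
  have hac := hA a ha
  have hcb := hB b hb
  have hφ : φ ≠ 0 := by
    intro hcon
    rw [hcon] at hac hcb
    simp only [LinearMap.zero_apply] at hac hcb
    linarith
  have hε : 0 < min (c - φ a) (φ b - c) := lt_min (by linarith) (by linarith)
  obtain ⟨e, he, hclose⟩ := exists_generic (hfA.union hfB) φ hφ hε
  refine Dec.of_map e ?_
  rw [image_union]
  have hinj : InjOn Prod.fst (e '' A ∪ e '' B) := by
    rw [← image_union]
    exact Gen_injOn he
  have hgp' : GenPos (e '' A ∪ e '' B) := by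
    rw [← image_union]
    exact hgp.map e
  refine join_inj (c := c) (hfA.image _) (hfB.image _) hinj hgp' ?_ ?_ (h.map e) (h'.map e)
  · rintro _ ⟨z, hz, rfl⟩
    have h1 := abs_lt.1 ((hclose z (Or.inl hz)).trans_le (min_le_left _ _))
    have h2 := hamax z hz
    linarith [h1.2]
  · rintro _ ⟨z, hz, rfl⟩
    have h1 := abs_lt.1 ((hclose z (Or.inr hz)).trans_le (min_le_right _ _))
    have h2 := hbmin z hz
    linarith [h1.1]

end Pool.Agent.TwoCvx
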