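import Pool.Agent.TwoCvx.PLb

/-!
# Gluing convex functions, and the lower and upper hull functions of a finite point set

* `convexOn_glue`: if `f` is convex on `[a, c]` and on `[c, b]` and there is an affine function `A ≤ f` on `[a, b]` with
  `A c = f c`, then `f` is convex on `[a, b]`: for `x ≤ c ≤ y` the chord from `x` to `y` lies above `A c = f c` at `c`,
  hence above the chords from `x` to `c` and from `c` to `y`. (`LinearOrder.convexOn_of_lt`.)
* `exists_lower` (gift wrapping): induction on the number of points of `P`. If `p` is the only point, take the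
  constant function. Otherwise choose `p' ∈ P \ {p}` with minimal slope from `p`, apply the induction hypothesis
  to `{z ∈ P | p'.1 ≤ z.1}` (leftmost point `p'`, rightmost point `q`), which gives `l'` with `l' p'.1 = p'.2`
  (as `PL` gives `(p'.1, l' p'.1) ∈ P` and abscissae are distinct), and put `l = lineT p p'` on `(-∞, p'.1]`, `l = l'` on
  `[p'.1, ∞)`. All points of `P` are above the line `p p'`, hence `l' ≥ lineT p p'` on `[p'.1, q.1]`
  (`PL.ge_of_convex`), and `l` is convex by the gluing lemma.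
* `exists_upper`: reflection (`PL.refl_neg`; `refl '' (refl '' P) = P`).
* `convexHull_eq`: the region is convex (epigraph and hypograph) and contains `P`; conversely `(x, l x)` and `(x, u x)`
  are in the hull and so is the vertical segment between them.
-/

set_option autoImplicit false

namespace Pool.Agent.TwoCvx

open Set

/-- three point form of convexity -/
theorem hull_three {f : ℝ → ℝ} {a b : ℝ} (h : ConvexOn ℝ (Icc a b) f) {x y z : ℝ} (hx : a ≤ x) (hxy : x < y)
    (hyz : y < z) (hz : z ≤ b) : (z - x) * f y ≤ (z - y) * f x + (y - x) * f z := by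
  have hxz : 0 < z - x := by linarith
  have hsum : (z - y) / (z - x) + (y - x) / (z - x) = 1 := by
    rw [← add_div, show z - y + (y - x) = z - x by ring]
    exact div_self hxz.ne'
  have h1 := h.2 (show x ∈ Icc a b from ⟨hx, by linarith⟩) (show z ∈ Icc a b from ⟨by linarith, hz⟩)
    (div_nonneg (by linarith) hxz.le : 0 ≤ (z - y) / (z - x))
    (div_nonneg (by linarith) hxz.le : 0 ≤ (y - x) / (z - x)) hsum
  have h2 : (z - y) / (z - x) * x + (y - x) / (z - x) * z = y := by
    field_simp
    ring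
  simp only [smul_eq_mul] at h1
  rw [h2] at h1
  have h3 := mul_le_mul_of_nonneg_left h1 hxz.le
  refine h3.trans (le_of_eq ?_)
  field_simp

theorem hull_of_three {f : ℝ → ℝ} {a b : ℝ}
    (h : ∀ x y z : ℝ, a ≤ x → x < y → y < z → z ≤ b → (z - x) * f y ≤ (z - y) * f x + (y - x) * f z) :
    ConvexOn ℝ (Icc a b) f := by
  refine LinearOrder.convexOn_of_lt (convex_Icc a b) ?_
  intro x hx z hz hxz α β hα hβ hαβ
  simp only [smul_eq_mul]
  have hβ' : β = 1 - α := by linarith
  subst hβ'
  have h1 : x < α * x + (1 - α) * z := by nlinarith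
  have h2 : α * x + (1 - α) * z < z := by nlinarith
  have h3 := h x (α * x + (1 - α) * z) z hx.1 h1 h2 hz.2
  have h4 : z - (α * x + (1 - α) * z) = α * (z - x) := by ring
  have h5 : α * x + (1 - α) * z - x = (1 - α) * (z - x) := by ring
  rw [h4, h5] at h3
  have h6 : 0 < z - x := by linarith
  have h7 : (z - x) * f (α * x + (1 - α) * z) ≤ (z - x) * (α * f x + (1 - α) * f z) := by
    refine h3.trans (le_of_eq ?_)
    ring
  exact le_of_mul_le_mul_left h7 h6

theorem convexOn_glue {f : ℝ → ℝ} {a c b m k : ℝ} (hac : a ≤ c) (hcb : c ≤ b) (h1 : ConvexOn ℝ (Icc a c) f)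
    (h2 : ConvexOn ℝ (Icc c b) f) (hc : f c = m * c + k) (hs : ∀ x ∈ Icc a b, m * x + k ≤ f x) :
    ConvexOn ℝ (Icc a b) f := by
  refine hull_of_three fun x y z hx hxy hyz hz => ?_
  rcases le_or_gt z c with hzc | hcz
  · exact hull_three h1 hx hxy hyz hzc
  rcases le_or_gt c x with hcx | hxc
  · exact hull_three h2 hcx hxy hyz hz
  -- `x < c < z`
  have hc3 : (z - x) * f c ≤ (z - c) * f x + (c - x) * f z := by
    have e1 := mul_le_mul_of_nonneg_left (hs x ⟨hx, by linarith⟩) (by linarith : 0 ≤ z - c)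
    have e2 := mul_le_mul_of_nonneg_left (hs z ⟨by linarith, hz⟩) (by linarith : 0 ≤ c - x)
    rw [hc]
    nlinarith
  rcases lt_trichotomy y c with hyc | hyc | hcy
  · have h3 := hull_three h1 hx hxy hyc le_rfl
    have h4 : 0 < c - x := by linarith
    have h5 := mul_le_mul_of_nonneg_left h3 (by linarith : 0 ≤ z - x)
    have h6 := mul_le_mul_of_nonneg_left hc3 (by linarith : 0 ≤ y - x)
    have h7 : (c - x) * ((z - x) * f y) ≤ (c - x) * ((z - y) * f x + (y - x) * f z) := by
      calc (c - x) * ((z - x) * f y) = (z - x) * ((c - x) * f y) := by ring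
        _ ≤ (z - x) * ((c - y) * f x + (y - x) * f c) := h5
        _ = (z - x) * (c - y) * f x + (y - x) * ((z - x) * f c) := by ring
        _ ≤ (z - x) * (c - y) * f x + (y - x) * ((z - c) * f x + (c - x) * f z) := by linarith
        _ = _ := by ring
    exact le_of_mul_le_mul_left h7 h4
  · rw [hyc]
    exact hc3
  · have h3 := hull_three h2 le_rfl hcy hyz hz
    have h4 : 0 < z - c := by linarith
    have h5 := mul_le_mul_of_nonneg_left h3 (by linarith : 0 ≤ z - x)
    have h6 := mul_le_mul_of_nonneg_left hc3 (by linarith : 0 ≤ z - y)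
    have h7 : (z - c) * ((z - x) * f y) ≤ (z - c) * ((z - y) * f x + (y - x) * f z) := by
      calc (z - c) * ((z - x) * f y) = (z - x) * ((z - c) * f y) := by ring
        _ ≤ (z - x) * ((z - y) * f c + (y - c) * f z) := h5
        _ = (z - y) * ((z - x) * f c) + (z - x) * (y - c) * f z := by ring
        _ ≤ (z - y) * ((z - c) * f x + (c - x) * f z) + (z - x) * (y - c) * f z := by linarith
        _ = _ := by ring
    exact le_of_mul_le_mul_left h7 h4

theorem concaveOn_glue {f : ℝ → ℝ} {a c b m k : ℝ} (hac : a ≤ c) (hcb : c ≤ b) (h1 : ConcaveOn ℝ (Icc a c) f)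
    (h2 : ConcaveOn ℝ (Icc c b) f) (hc : f c = m * c + k) (hs : ∀ x ∈ Icc a b, f x ≤ m * x + k) :
    ConcaveOn ℝ (Icc a b) f := by
  rw [← neg_convexOn_iff]
  refine convexOn_glue (m := -m) (k := -k) hac hcb (neg_convexOn_iff.2 h1) (neg_convexOn_iff.2 h2) ?_ ?_
  · simp only [Pi.neg_apply]
    rw [hc]
    ring
  · intro x hx
    simp only [Pi.neg_apply]
    have := hs x hx
    linarith

theorem hull_lower_aux (n : ℕ) : ∀ (P : Set (ℝ × ℝ)) (p q : ℝ × ℝ), P.Finite → P.ncard = n →
    InjOn Prod.fst P → Ext P p q → ∃ l, Lower P p q l := by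
  induction n using Nat.strong_induction_on with
  | _ n ih =>
    intro P p q hf hn hinj hE
    have hpq : p.1 ≤ q.1 := hE.hmin q hE.hq
    rcases hpq.eq_or_lt with h | h
    · have hpq' : p = q := hinj hE.hp hE.hq h
      subst hpq'
      refine ⟨fun _ => p.2, PL.single p hE.hp rfl, convexOn_const _ (convex_Icc _ _), ?_⟩
      intro z hz
      have hz1 : z.1 = p.1 := le_antisymm (hE.hmax z hz) (hE.hmin z hz)
      rw [hinj hz hE.hp hz1]
    · have hlt : ∀ z ∈ P, z ≠ p → p.1 < z.1 := by
        intro z hz hne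
        rcases (hE.hmin z hz).eq_or_lt with h' | h'
        · exact absurd (hinj hz hE.hp h'.symm) hne
        · exact h'
      have hqp : q ≠ p := by
        rintro rfl
        exact lt_irrefl _ h
      obtain ⟨p', hp', hmin⟩ := Set.exists_min_image (P \ {p})
        (fun z : ℝ × ℝ => (z.2 - p.2) / (z.1 - p.1)) (hf.subset sdiff_subset)
        ⟨q, hE.hq, by simpa using hqp⟩
      have hp'P : p' ∈ P := hp'.1
      have hp'ne : p' ≠ p := by simpa using hp'.2
      have hpp' : p.1 < p'.1 := hlt p' hp'P hp'ne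
      -- all points are above the line through `p` and `p'`
      have habove : ∀ z ∈ P, lineT p p' z.1 ≤ z.2 := by
        intro z hz
        by_cases hzp : z = p
        · rw [hzp, lineT_left]
        · have h1 := hmin z ⟨hz, by simpa using hzp⟩
          have h2 := hlt z hz hzp
          have h3 : 0 < z.1 - p.1 := by linarith
          rw [le_div_iff₀ h3] at h1
          unfold lineT
          linarith
      set P₂ : Set (ℝ × ℝ) := {z ∈ P | p'.1 ≤ z.1} with hP₂
      have hsub : P₂ ⊆ P := fun z hz => hz.1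
      have hE₂ : Ext P₂ p' q :=
        ⟨⟨hp'P, le_rfl⟩, ⟨hE.hq, hE.hmax p' hp'P⟩, fun z hz => hz.2, fun z hz => hE.hmax z hz.1⟩
      have hcard : P₂.ncard < n := by
        rw [← hn]
        refine Set.ncard_lt_ncard ⟨hsub, fun hcon => ?_⟩ hf
        have := (hcon hE.hp).2
        linarith
      obtain ⟨l', hl'⟩ := ih _ hcard P₂ p' q (hf.subset hsub) rfl (hinj.mono hsub) hE₂
      have hl'p : l' p'.1 = p'.2 := by
        have h1 := hl'.pl.left_mem
        have h2 := hinj h1.1 hp'P rfl
        have := congrArg Prod.snd h2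
        simpa using this
      have hp'q : p'.1 ≤ q.1 := hE.hmax p' hp'P
      set l : ℝ → ℝ := fun x => if x ≤ p'.1 then lineT p p' x else l' x with hl
      have hl1 : ∀ x ∈ Icc p.1 p'.1, l x = lineT p p' x := fun x hx => by
        simp only [hl]
        rw [if_pos hx.2]
      have hl2 : ∀ x ∈ Icc p'.1 q.1, l x = l' x := fun x hx => by
        simp only [hl]
        split_ifs with h1
        · have : x = p'.1 := le_antisymm h1 hx.1
          rw [this, lineT_right hpp', hl'p]
        · rfl
      obtain ⟨m, k, hmk⟩ := lineT_affine p p'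
      have haff : ConvexOn ℝ (Icc p.1 p'.1) (lineT p p') := AffOn.convexOn ⟨m, k, fun x _ => hmk x⟩
      have haff' : ConvexOn ℝ (Icc p'.1 q.1) (lineT p p') := AffOn.convexOn ⟨m, k, fun x _ => hmk x⟩
      have hge : ∀ x ∈ Icc p'.1 q.1, lineT p p' x ≤ l' x :=
        hl'.pl.ge_of_convex haff' fun z hz _ _ _ => habove z hz.1
      refine ⟨l, ?_, ?_, ?_⟩
      · exact PL.trans (PL.edge hE.hp hp'P hpp' hl1) ((hl'.pl.congr hl2).mono hsub)
      · refine convexOn_glue (c := p'.1) (m := m) (k := k) hpp'.le hp'q (haff.congr fun x hx => (hl1 x hx).symm)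
          (hl'.cv.congr fun x hx => (hl2 x hx).symm) ?_ ?_
        · rw [hl1 p'.1 ⟨hpp'.le, le_rfl⟩, hmk]
        · intro x hx
          rw [← hmk]
          rcases le_total x p'.1 with h1 | h1
          · rw [hl1 x ⟨hx.1, h1⟩]
          · rw [hl2 x ⟨h1, hx.2⟩]
            exact hge x ⟨h1, hx.2⟩
      · intro z hz
        rcases le_total z.1 p'.1 with h1 | h1
        · rw [hl1 z.1 ⟨hE.hmin z hz, h1⟩]
          exact habove z hz
        · rw [hl2 z.1 ⟨h1, hE.hmax z hz⟩]
          exact hl'.le z ⟨hz, h1⟩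

theorem exists_lower {P : Set (ℝ × ℝ)} {p q : ℝ × ℝ} (hf : P.Finite) (hinj : InjOn Prod.fst P)
    (hE : Ext P p q) : ∃ l, Lower P p q l :=
  hull_lower_aux P.ncard P p q hf rfl hinj hE

theorem hull_refl_refl (P : Set (ℝ × ℝ)) : refl '' (refl '' P) = P := by
  rw [Set.image_image]
  have : (fun z => refl (refl z)) = (id : ℝ × ℝ → ℝ × ℝ) := by
    funext z
    simp
  rw [this, Set.image_id]

theorem exists_upper {P : Set (ℝ × ℝ)} {p q : ℝ × ℝ} (hf : P.Finite) (hinj : InjOn Prod.fst P)
    (hE : Ext P p q) : ∃ u, Upper P p q u := by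
  have hE' : Ext (refl '' P) (refl p) (refl q) := by
    refine ⟨mem_image_of_mem _ hE.hp, mem_image_of_mem _ hE.hq, ?_, ?_⟩
    · rintro z ⟨w, hw, rfl⟩
      simpa using hE.hmin w hw
    · rintro z ⟨w, hw, rfl⟩
      simpa using hE.hmax w hw
  have hinj' : InjOn Prod.fst (refl '' P) := by
    rintro z ⟨w, hw, rfl⟩ z' ⟨w', hw', rfl⟩ h
    have : w.1 = w'.1 := by simpa using h
    rw [hinj hw hw' this]
  obtain ⟨l, hl⟩ := exists_lower (hf.image refl) hinj' hE'
  have hpl := hl.pl.refl_neg
  rw [hull_refl_refl] at hpl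
  have hcv := hl.cv
  simp only [refl_apply] at hpl hcv
  refine ⟨fun x => - l x, hpl, ?_, ?_⟩
  · exact hcv.neg
  · intro z hz
    have := hl.le (refl z) (mem_image_of_mem _ hz)
    simp only [refl_apply] at this
    linarith

theorem exists_ext {P : Set (ℝ × ℝ)} (hf : P.Finite) (hne : P.Nonempty) : ∃ p q, Ext P p q := by
  obtain ⟨p, hp, hmin⟩ := Set.exists_min_image P Prod.fst hf hne
  obtain ⟨q, hq, hmax⟩ := Set.exists_max_image P Prod.fst hf hne
  exact ⟨p, q, hp, hq, hmin, hmax⟩

theorem region_subset {P : Set (ℝ × ℝ)} {g h : ℝ → ℝ} {a b : ℝ} (hg : PL P g a b) (hh : PL P h a b) :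
    region a b g h ⊆ convexHull ℝ P := by
  rintro ⟨x, y⟩ ⟨h1, h2, h3, h4⟩
  simp only at h1 h2 h3 h4
  have e1 := hg.mem_convexHull (x := x) ⟨h1, h2⟩
  have e2 := hh.mem_convexHull (x := x) ⟨h1, h2⟩
  refine (convex_convexHull ℝ P).segment_subset e1 e2 ?_
  rw [← Prod.image_mk_segment_right, segment_eq_Icc (h3.trans h4)]
  exact ⟨y, ⟨h3, h4⟩, rfl⟩

theorem convexHull_eq {P : Set (ℝ × ℝ)} {p q : ℝ × ℝ} {l u : ℝ → ℝ} (hE : Ext P p q) (hl : Lower P p q l)
    (hu : Upper P p q u) : convexHull ℝ P = region p.1 q.1 l u := by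
  apply Subset.antisymm
  · refine convexHull_min (fun z hz => ⟨hE.hmin z hz, hE.hmax z hz, hl.le z hz, hu.le z hz⟩) ?_
    intro z hz w hw α β hα hβ hαβ
    obtain ⟨h1, h2, h3, h4⟩ := hz
    obtain ⟨k1, k2, k3, k4⟩ := hw
    have c1 := hl.cv.2 ⟨h1, h2⟩ ⟨k1, k2⟩ hα hβ hαβ
    have c2 := hu.cc.2 ⟨h1, h2⟩ ⟨k1, k2⟩ hα hβ hαβ
    have c3 := (convex_Icc p.1 q.1) ⟨h1, h2⟩ ⟨k1, k2⟩ hα hβ hαβ
    simp only [smul_eq_mul] at c1 c2 c3
    refine ⟨?_, ?_, ?_, ?_⟩
    · simpa using c3.1
    · simpa using c3.2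
    · simp only [Prod.fst_add, Prod.smul_fst, Prod.snd_add, Prod.smul_snd, smul_eq_mul]
      have := mul_le_mul_of_nonneg_left h3 hα
      have := mul_le_mul_of_nonneg_left k3 hβ
      linarith
    · simp only [Prod.fst_add, Prod.smul_fst, Prod.snd_add, Prod.smul_snd, smul_eq_mul]
      have := mul_le_mul_of_nonneg_left h4 hα
      have := mul_le_mul_of_nonneg_left k4 hβ
      linarith
  · exact region_subset hl.pl hu.pl

end Pool.Agent.TwoCvx
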