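import Pool.Agent.TwoCvx.PeelUp

/-!
# The piece above two separated point sets

`A` lies to the left of the vertical line `x = c`, `B` to the right, `a₁` is the rightmost point of `A`, `b₀` the leftmost
point of `B`, `u` and `v` the upper hull functions. `G = cross a₁ b₀ u v`.
* Tangent: choose `a' ∈ A`, `b' ∈ B` maximising `lineT a' b' c` (finite sets). Then all points of `A ∪ B` are on or below the
  line `T = lineT a' b'`: if `z ∈ A` were above it, then `lineT z b' c > lineT a' b' c`. By general position all points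
  of `A ∪ B` except `a', b'` are strictly below. Consequently (`PL.le_of_concave`) `u ≤ T` on `[a₀.1, a₁.1]`,
  `u a'.1 = a'.2`, `v ≤ T`, `v b'.1 = b'.2`.
* `W = {a₀.1 ≤ x ≤ b₁.1, y ≤ Up x}`, `Up = u` on `[a₀.1, a'.1]`, `T` on `[a'.1, b'.1]`, `v` on `[b'.1, b₁.1]`, is convex: `Up` is
  concave by `concaveOn_glue` (twice, with the affine function `T`). So `convexHull (A ∪ B) ⊆ W`.
* If `a' = a₁` and `b' = b₀` take `F = ∅`: in `W` we have `z.2 ≤ G z.1`.
* Otherwise `F = {R}` with `R = region a'.1 b'.1 G T`: `G` is `PL` on `[a'.1, b'.1]` (`PL.split`, `PL.edge`, `PL.trans`), `T` is one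
  edge, `G < T` on the open interval (`PL.lt_of_concave_left/right` on the two sides of the vertex `a₁` or `b₀`, which is
  different from `a', b'`, so strictly below `T`), polygon by `isPolygon_region`, `2`-convex by `two_region_join`. No point
  `z` of `A ∪ B` is in the interior: `z.2 ≤ G z.1` for all `z ∈ A ∪ B`.
* `join_low` follows by reflection.
-/

set_option autoImplicit false

namespace Pool.Agent.TwoCvx

open Set

variable {A B : Set (ℝ × ℝ)} {a₀ a₁ b₀ b₁ : ℝ × ℝ} {u v : ℝ → ℝ} {c : ℝ}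

theorem JoinUp_strict {P : Set (ℝ × ℝ)} {g T : ℝ → ℝ} {a b : ℝ} (hg : PL P g a b)
    (hT : ConcaveOn ℝ (Icc a b) T) (ha : g a ≤ T a) (hb : g b ≤ T b) {w : ℝ × ℝ} (hw : w ∈ P)
    (hgw : g w.1 = w.2) (h1 : a < w.1) (h2 : w.1 < b)
    (hv : ∀ z ∈ P, a < z.1 → z.1 < b → z.2 < T z.1) : ∀ x ∈ Ioo a b, g x < T x := by
  obtain ⟨p1, p2⟩ := hg.split hw hgw h1.le h2.le
  have c1 : ConcaveOn ℝ (Icc a w.1) T := hT.subset (Icc_subset_Icc le_rfl h2.le) (convex_Icc _ _)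
  have c2 : ConcaveOn ℝ (Icc w.1 b) T := hT.subset (Icc_subset_Icc h1.le le_rfl) (convex_Icc _ _)
  have q1 := p1.lt_of_concave_left c1 ha (fun z hz h3 h4 _ => hv z hz h3 (h4.trans_lt h2))
  have q2 := p2.lt_of_concave_right c2 hb (fun z hz h3 h4 _ => hv z hz (h1.trans_le h3) h4)
  intro x hx
  rcases le_or_gt x w.1 with h | h
  · exact q1 x ⟨hx.1, h⟩
  · exact q2 x ⟨h.le, hx.2⟩

theorem JoinUp_line_A {T : ℝ → ℝ} {m k : ℝ} (hT : ∀ x, T x = m * x + k) {z b' : ℝ × ℝ}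
    (hzc : z.1 < c) (hbc : c < b'.1) (hb : T b'.1 = b'.2) (h : T z.1 < z.2) :
    T c < lineT z b' c := by
  have h1 := lineT_spec (hzc.trans hbc) c
  have h2 : T c * (b'.1 - z.1) = (b'.1 - c) * T z.1 + (c - z.1) * b'.2 := by
    rw [← hb, hT, hT, hT]
    ring
  have h3 : (b'.1 - c) * T z.1 < (b'.1 - c) * z.2 := mul_lt_mul_of_pos_left h (by linarith)
  have h4 : T c * (b'.1 - z.1) < lineT z b' c * (b'.1 - z.1) := by linarith
  exact lt_of_mul_lt_mul_right h4 (by linarith)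

theorem JoinUp_line_B {T : ℝ → ℝ} {m k : ℝ} (hT : ∀ x, T x = m * x + k) {z a' : ℝ × ℝ}
    (hac : a'.1 < c) (hzc : c < z.1) (ha : T a'.1 = a'.2) (h : T z.1 < z.2) :
    T c < lineT a' z c := by
  have h1 := lineT_spec (hac.trans hzc) c
  have h2 : T c * (z.1 - a'.1) = (z.1 - c) * a'.2 + (c - a'.1) * T z.1 := by
    rw [← ha, hT, hT, hT]
    ring
  have h3 : (c - a'.1) * T z.1 < (c - a'.1) * z.2 := mul_lt_mul_of_pos_left h (by linarith)
  have h4 : T c * (z.1 - a'.1) < lineT a' z c * (z.1 - a'.1) := by linarith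
  exact lt_of_mul_lt_mul_right h4 (by linarith)

theorem join_up (hfA : A.Finite) (hfB : B.Finite) (hinj : InjOn Prod.fst (A ∪ B)) (hgp : GenPos (A ∪ B))
    (hAc : ∀ z ∈ A, z.1 < c) (hBc : ∀ z ∈ B, c < z.1) (hA : Ext A a₀ a₁) (hB : Ext B b₀ b₁)
    (hu : Upper A a₀ a₁ u) (hv : Upper B b₀ b₁ v) :
    ∃ F : Finset (Set (ℝ × ℝ)), F.card ≤ 1 ∧ (∀ R ∈ F, Piece (A ∪ B) R) ∧
      (∀ R ∈ F, ∀ z ∈ interior R, a₀.1 ≤ z.1 ∧ z.1 ≤ b₁.1 ∧ cross a₁ b₀ u v z.1 < z.2) ∧
      ∀ z ∈ convexHull ℝ (A ∪ B), cross a₁ b₀ u v z.1 < z.2 → ∃ R ∈ F, z ∈ R := by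
  classical
  have hinjA : InjOn Prod.fst A := hinj.mono subset_union_left
  have hinjB : InjOn Prod.fst B := hinj.mono subset_union_right
  -- the tangent
  obtain ⟨⟨a', b'⟩, hmem, hmax⟩ := Set.exists_max_image (A ×ˢ B)
    (fun z : (ℝ × ℝ) × (ℝ × ℝ) => lineT z.1 z.2 c) (hfA.prod hfB) ⟨(a₁, b₀), hA.hq, hB.hp⟩
  have ha' : a' ∈ A := hmem.1
  have hb' : b' ∈ B := hmem.2
  have hac := hAc a' ha'
  have hbc := hBc b' hb'
  have hab : a'.1 < b'.1 := hac.trans hbc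
  have ha1c := hAc a₁ hA.hq
  have hb0c := hBc b₀ hB.hp
  have hmax' : ∀ z ∈ A, ∀ w ∈ B, lineT z w c ≤ lineT a' b' c := fun z hz w hw => hmax (z, w) ⟨hz, hw⟩
  set T : ℝ → ℝ := lineT a' b' with hTdef
  obtain ⟨m, k, hT⟩ := lineT_affine a' b'
  have hTa : T a'.1 = a'.2 := lineT_left a' b'
  have hTb : T b'.1 = b'.2 := lineT_right hab
  have hTconc : ∀ s : Set ℝ, Convex ℝ s → ConcaveOn ℝ s T := by
    intro s hs
    refine ⟨hs, fun x _ y _ α β _ _ h1 => le_of_eq ?_⟩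
    simp only [smul_eq_mul]
    rw [hTdef, hT, hT, hT]
    have : k = (α + β) * k := by rw [h1, one_mul]
    linear_combination (-1 : ℝ) * this
  have hTA : ∀ z ∈ A, z.2 ≤ T z.1 := by
    intro z hz
    by_contra hc
    have := JoinUp_line_A hT (hAc z hz) hbc hTb (not_le.1 hc)
    exact absurd (hmax' z hz b' hb') (not_le.2 this)
  have hTB : ∀ z ∈ B, z.2 ≤ T z.1 := by
    intro z hz
    by_contra hc
    have := JoinUp_line_B hT hac (hBc z hz) hTa (not_le.1 hc)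
    exact absurd (hmax' a' ha' z hz) (not_le.2 this)
  have hTs : ∀ z ∈ A ∪ B, z ≠ a' → z ≠ b' → z.2 < T z.1 := by
    intro z hz h1 h2
    have h3 : z.2 ≤ T z.1 := by
      rcases hz with hz | hz
      · exact hTA z hz
      · exact hTB z hz
    refine lt_of_le_of_ne h3 ?_
    intro h4
    have h5 := hgp.orient_ne (Or.inl ha') (Or.inr hb') hz (by
      intro h
      rw [h] at hab
      exact lt_irrefl _ hab) (Ne.symm h2) (Ne.symm h1)
    apply h5
    have h6 := lineT_spec hab z.1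
    have h7 : lineT a' b' z.1 = z.2 := h4.symm
    rw [h7] at h6
    unfold orient
    linarith
  -- the hull functions at the tangent points
  have hIA : ∀ z ∈ A, z.1 ∈ Icc a₀.1 a₁.1 := fun z hz => ⟨hA.hmin z hz, hA.hmax z hz⟩
  have hIB : ∀ z ∈ B, z.1 ∈ Icc b₀.1 b₁.1 := fun z hz => ⟨hB.hmin z hz, hB.hmax z hz⟩
  have huT : ∀ x ∈ Icc a₀.1 a₁.1, u x ≤ T x :=
    hu.pl.le_of_concave (hTconc _ (convex_Icc _ _)) (fun z hz _ _ _ => hTA z hz)
  have hvT : ∀ x ∈ Icc b₀.1 b₁.1, v x ≤ T x :=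
    hv.pl.le_of_concave (hTconc _ (convex_Icc _ _)) (fun z hz _ _ _ => hTB z hz)
  have hua : u a'.1 = a'.2 := by
    apply le_antisymm
    · rw [← hTa]
      exact huT _ (hIA a' ha')
    · exact hu.le a' ha'
  have hvb : v b'.1 = b'.2 := by
    apply le_antisymm
    · rw [← hTb]
      exact hvT _ (hIB b' hb')
    · exact hv.le b' hb'
  have hu1 : u a₁.1 = a₁.2 := hu.right hinjA hA
  have hv0 : v b₀.1 = b₀.2 := hv.left hinjB hB
  have hab1 : a₁.1 < b₀.1 := ha1c.trans hb0c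
  -- the function G
  set G : ℝ → ℝ := cross a₁ b₀ u v with hG
  have hG1 : ∀ x ≤ a₁.1, G x = u x := by
    intro x hx
    rw [hG]
    unfold cross
    rw [if_pos hx]
  have hG2 : ∀ x ∈ Icc a₁.1 b₀.1, G x = lineT a₁ b₀ x := by
    intro x hx
    rcases eq_or_lt_of_le hx.1 with h | h
    · rw [hG1 x h.symm.le, ← h, hu1, lineT_left]
    · rw [hG]
      unfold cross
      rw [if_neg (not_le.2 h), if_pos hx.2]
  have hG3 : ∀ x, b₀.1 ≤ x → G x = v x := by
    intro x hx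
    rcases eq_or_lt_of_le hx with h | h
    · rw [hG2 x ⟨hab1.le.trans hx, h.symm.le⟩, ← h, hv0, lineT_right hab1]
    · rw [hG]
      unfold cross
      rw [if_neg (not_le.2 (hab1.trans h)), if_neg (not_le.2 h)]
  -- the upper hull of the union
  have hUA : ∀ x ≤ a'.1, cross a' b' u v x = u x := by
    intro x hx
    unfold cross
    rw [if_pos hx]
  have hUM : ∀ x ∈ Icc a'.1 b'.1, cross a' b' u v x = T x := by
    intro x hx
    rcases eq_or_lt_of_le hx.1 with h | h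
    · rw [hUA x h.symm.le, ← h, hua, hTa]
    · unfold cross
      rw [if_neg (not_le.2 h), if_pos hx.2]
  have hUB : ∀ x, b'.1 ≤ x → cross a' b' u v x = v x := by
    intro x hx
    rcases eq_or_lt_of_le hx with h | h
    · rw [hUM x ⟨hab.le.trans hx, h.symm.le⟩, ← h, hvb, hTb]
    · unfold cross
      rw [if_neg (not_le.2 (hab.trans h)), if_neg (not_le.2 h)]
  have hIa := hIA a' ha'
  have hIb := hIB b' hb'
  have hUle : ∀ x ∈ Icc a₀.1 b₁.1, cross a' b' u v x ≤ m * x + k := by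
    intro x hx
    rw [← hT x]
    rcases le_or_gt x a'.1 with h | h
    · rw [hUA x h]
      exact huT x ⟨hx.1, h.trans hIa.2⟩
    · rcases le_or_gt x b'.1 with h' | h'
      · rw [hUM x ⟨h.le, h'⟩]
      · rw [hUB x h'.le]
        exact hvT x ⟨hIb.1.trans h'.le, hx.2⟩
  have hconc1 : ConcaveOn ℝ (Icc a₀.1 b'.1) (cross a' b' u v) := by
    refine concaveOn_glue (m := m) (k := k) hIa.1 hab.le ?_ ?_ ?_ ?_
    · refine (hu.cc.subset (Icc_subset_Icc le_rfl hIa.2) (convex_Icc _ _)).congr ?_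
      intro x hx
      exact (hUA x hx.2).symm
    · refine (hTconc (Icc a'.1 b'.1) (convex_Icc _ _)).congr ?_
      intro x hx
      exact (hUM x hx).symm
    · rw [hUM a'.1 ⟨le_rfl, hab.le⟩]
      exact hT _
    · intro x hx
      exact hUle x ⟨hx.1, hx.2.trans hIb.2⟩
  have hconc : ConcaveOn ℝ (Icc a₀.1 b₁.1) (cross a' b' u v) := by
    refine concaveOn_glue (m := m) (k := k) (hIa.1.trans hab.le) hIb.2 hconc1 ?_ ?_ hUle
    · refine (hv.cc.subset (Icc_subset_Icc hIb.1 le_rfl) (convex_Icc _ _)).congr ?_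
      intro x hx
      exact (hUB x hx.1).symm
    · rw [hUM b'.1 ⟨hab.le, le_rfl⟩]
      exact hT _
  have hhull : ∀ z ∈ convexHull ℝ (A ∪ B), z.1 ∈ Icc a₀.1 b₁.1 ∧ z.2 ≤ cross a' b' u v z.1 := by
    intro z hz
    have hsub : convexHull ℝ (A ∪ B) ⊆
        {p : ℝ × ℝ | p.1 ∈ Icc a₀.1 b₁.1 ∧ p.2 ≤ cross a' b' u v p.1} := by
      refine convexHull_min ?_ hconc.convex_hypograph
      rintro w (hw | hw)
      · have h1 := hIA w hw
        refine ⟨⟨h1.1, h1.2.trans (hab1.le.trans (hIB b₁ hB.hq).1)⟩, ?_⟩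
        rcases le_or_gt w.1 a'.1 with h | h
        · rw [hUA w.1 h]
          exact hu.le w hw
        · rw [hUM w.1 ⟨h.le, (hAc w hw).le.trans hbc.le⟩]
          exact hTA w hw
      · have h1 := hIB w hw
        refine ⟨⟨(hIA a₁ hA.hq).1.trans (hab1.le.trans h1.1), h1.2⟩, ?_⟩
        rcases le_or_gt b'.1 w.1 with h | h
        · rw [hUB w.1 h]
          exact hv.le w hw
        · rw [hUM w.1 ⟨hac.le.trans (hBc w hw).le, h.le⟩]
          exact hTB w hw
    exact hsub hz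
  by_cases hcase : a' = a₁ ∧ b' = b₀
  · refine ⟨∅, by simp, by simp, by simp, ?_⟩
    intro z hz hlt
    exfalso
    have h1 := (hhull z hz).2
    rw [hcase.1, hcase.2] at h1
    exact absurd hlt (not_lt.2 h1)
  -- the region
  have hPLu : PL (A ∪ B) G a₀.1 a₁.1 :=
    (hu.pl.mono subset_union_left).congr fun x hx => hG1 x hx.2
  have hPLm : PL (A ∪ B) G a₁.1 b₀.1 := PL.edge (Or.inl hA.hq) (Or.inr hB.hp) hab1 hG2
  have hPLv : PL (A ∪ B) G b₀.1 b₁.1 :=
    (hv.pl.mono subset_union_right).congr fun x hx => hG3 x hx.1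
  have hPL : PL (A ∪ B) G a₀.1 b₁.1 := (hPLu.trans hPLm).trans hPLv
  have hGa : G a'.1 = a'.2 := by rw [hG1 _ hIa.2, hua]
  have hGb : G b'.1 = b'.2 := by rw [hG3 _ hIb.1, hvb]
  have hPL1 : PL (A ∪ B) G a'.1 b₁.1 := (hPL.split (Or.inl ha') hGa hIa.1 (hab.le.trans hIb.2)).2
  have hPL2 : PL (A ∪ B) G a'.1 b'.1 := (hPL1.split (Or.inr hb') hGb hab.le hIb.2).1
  have hTPL : PL (A ∪ B) T a'.1 b'.1 := PL.edge (Or.inl ha') (Or.inr hb') hab fun x _ => rfl
  have hTs' : ∀ z ∈ A ∪ B, a'.1 < z.1 → z.1 < b'.1 → z.2 < T z.1 := by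
    intro z hz h1 h2
    refine hTs z hz ?_ ?_
    · rintro rfl
      exact lt_irrefl _ h1
    · rintro rfl
      exact lt_irrefl _ h2
  have hlt : ∀ x ∈ Ioo a'.1 b'.1, G x < T x := by
    have hex : ∃ w ∈ A ∪ B, G w.1 = w.2 ∧ a'.1 < w.1 ∧ w.1 < b'.1 := by
      by_cases h1 : a' = a₁
      · have h2 : b' ≠ b₀ := fun h => hcase ⟨h1, h⟩
        refine ⟨b₀, Or.inr hB.hp, by rw [hG3 _ le_rfl, hv0], hac.trans hb0c, ?_⟩
        refine lt_of_le_of_ne hIb.1 fun h => h2 ?_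
        exact (hinjB hB.hp hb' h).symm
      · refine ⟨a₁, Or.inl hA.hq, by rw [hG1 _ le_rfl, hu1], ?_, ha1c.trans hbc⟩
        refine lt_of_le_of_ne hIa.2 fun h => h1 ?_
        exact hinjA ha' hA.hq h
    obtain ⟨w, hw, hgw, h1, h2⟩ := hex
    exact JoinUp_strict hPL2 (hTconc _ (convex_Icc _ _)) (by rw [hGa, hTa]) (by rw [hGb, hTb])
      hw hgw h1 h2 hTs'
  have hint := interior_region hPL2.continuousOn hTPL.continuousOn
  refine ⟨{region a'.1 b'.1 G T}, by simp, ?_, ?_, ?_⟩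
  · intro R hR
    rw [Finset.mem_singleton] at hR
    subst hR
    refine ⟨isPolygon_region hPL2 hTPL hab hlt (by rw [hGa, hTa]) (by rw [hGb, hTb]), ?_,
      region_subset hPL2 hTPL, ?_⟩
    · refine two_region_join (c := a₁.1) (d := b₀.1) hIa.2 hab1.le hIb.1 hPL2.continuousOn
        hTPL.continuousOn ?_ ?_ ?_ ⟨m, k, fun x _ => hT x⟩ (by rw [hGa, hTa]) (by rw [hGb, hTb])
      · refine (hu.cc.subset (Icc_subset_Icc hIa.1 le_rfl) (convex_Icc _ _)).congr ?_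
        intro x hx
        exact (hG1 x hx.2).symm
      · obtain ⟨m', k', hT'⟩ := lineT_affine a₁ b₀
        exact ⟨m', k', fun x hx => by rw [hG2 x hx, hT']⟩
      · refine (hv.cc.subset (Icc_subset_Icc le_rfl hIb.2) (convex_Icc _ _)).congr ?_
        intro x hx
        exact (hG3 x hx.1).symm
    · intro p hp hpi
      rw [hint] at hpi
      obtain ⟨_, _, h3, _⟩ := hpi
      rcases hp with hp | hp
      · rw [hG1 _ (hIA p hp).2] at h3
        exact absurd h3 (not_lt.2 (hu.le p hp))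
      · rw [hG3 _ (hIB p hp).1] at h3
        exact absurd h3 (not_lt.2 (hv.le p hp))
  · intro R hR z hz
    rw [Finset.mem_singleton] at hR
    subst hR
    rw [hint] at hz
    obtain ⟨h1, h2, h3, _⟩ := hz
    exact ⟨hIa.1.trans h1.le, h2.le.trans hIb.2, h3⟩
  · intro z hz hlt'
    refine ⟨_, Finset.mem_singleton_self _, ?_⟩
    obtain ⟨⟨h1, h2⟩, h3⟩ := hhull z hz
    have h4 : a'.1 ≤ z.1 := by
      by_contra hc
      have hc' := (not_le.1 hc).le
      rw [hUA _ hc'] at h3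
      rw [hG1 _ (hc'.trans hIa.2)] at hlt'
      exact absurd hlt' (not_lt.2 h3)
    have h5 : z.1 ≤ b'.1 := by
      by_contra hc
      have hc' := (not_le.1 hc).le
      rw [hUB _ hc'] at h3
      rw [hG3 _ (hIb.1.trans hc')] at hlt'
      exact absurd hlt' (not_lt.2 h3)
    rw [hUM _ ⟨h4, h5⟩] at h3
    exact ⟨h4, h5, hlt'.le, h3⟩

theorem JoinUp_lineT_refl (p q : ℝ × ℝ) (x : ℝ) : lineT (refl p) (refl q) x = - lineT p q x := by
  unfold lineT
  simp only [refl_apply]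
  ring

theorem JoinUp_cross_refl (p q : ℝ × ℝ) (w₁ w₂ : ℝ → ℝ) (x : ℝ) :
    cross (refl p) (refl q) (fun x => - w₁ x) (fun x => - w₂ x) x = - cross p q w₁ w₂ x := by
  unfold cross
  rw [JoinUp_lineT_refl]
  simp only [refl_apply]
  split_ifs <;> rfl

theorem join_low (hfA : A.Finite) (hfB : B.Finite) (hinj : InjOn Prod.fst (A ∪ B)) (hgp : GenPos (A ∪ B))
    (hAc : ∀ z ∈ A, z.1 < c) (hBc : ∀ z ∈ B, c < z.1) (hA : Ext A a₀ a₁) (hB : Ext B b₀ b₁)
    (hu : Lower A a₀ a₁ u) (hv : Lower B b₀ b₁ v) :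
    ∃ F : Finset (Set (ℝ × ℝ)), F.card ≤ 1 ∧ (∀ R ∈ F, Piece (A ∪ B) R) ∧
      (∀ R ∈ F, ∀ z ∈ interior R, a₀.1 ≤ z.1 ∧ z.1 ≤ b₁.1 ∧ z.2 < cross a₁ b₀ u v z.1) ∧
      ∀ z ∈ convexHull ℝ (A ∪ B), z.2 < cross a₁ b₀ u v z.1 → ∃ R ∈ F, z ∈ R := by
  classical
  have hun : refl '' A ∪ refl '' B = refl '' (A ∪ B) := (image_union _ _ _).symm
  obtain ⟨F, h1, h2, h3, h4⟩ := join_up (c := c) (hfA.image refl) (hfB.image refl)
    (by
      rw [hun]
      rintro _ ⟨z, hz, rfl⟩ _ ⟨w, hw, rfl⟩ h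
      rw [hinj hz hw h])
    (by
      rw [hun]
      exact hgp.map refl)
    (by
      rintro _ ⟨z, hz, rfl⟩
      exact hAc z hz)
    (by
      rintro _ ⟨z, hz, rfl⟩
      exact hBc z hz) hA.refl hB.refl hu.refl hv.refl
  have hrr : ∀ z : ℝ × ℝ, refl (refl z) = z := by
    intro z
    simp
  refine ⟨F.image (fun R => refl '' R), Finset.card_image_le.trans h1, ?_, ?_, ?_⟩
  · intro R hR
    obtain ⟨R', hR', rfl⟩ := Finset.mem_image.1 hR
    have h5 := (h2 R' hR').map refl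
    rw [hun, refl_refl_image] at h5
    exact h5
  · intro R hR z hz
    obtain ⟨R', hR', rfl⟩ := Finset.mem_image.1 hR
    rw [interior_image] at hz
    obtain ⟨w, hw, rfl⟩ := hz
    have h5 := h3 R' hR' w hw
    rw [JoinUp_cross_refl] at h5
    simp only [refl_apply] at h5 ⊢
    exact ⟨h5.1, h5.2.1, by linarith [h5.2.2]⟩
  · intro z hz hlt
    have h5 : refl z ∈ convexHull ℝ (refl '' A ∪ refl '' B) := by
      rw [hun, convexHull_image]
      exact mem_image_of_mem _ hz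
    obtain ⟨R, hR, hzR⟩ := h4 (refl z) h5 (by
      rw [JoinUp_cross_refl]
      simp only [refl_apply]
      linarith)
    refine ⟨refl '' R, Finset.mem_image_of_mem _ hR, refl z, hzR, hrr z⟩

end Pool.Agent.TwoCvx
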