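import Pool.Agent.TwoCvx.PLb

/-!
# Topology of the region between two continuous graphs

`interior_region`: `{a < x < b, g x < y < h x}` is open (`ContinuousOn.isOpen_inter_preimage` or similar) and contained
in the region; conversely, an interior point can be moved slightly in the four coordinate directions.
`frontier_region`: the region is compact, so closed, and the frontier is the region without the interior.
-/

set_option autoImplicit false

namespace Pool.Agent.TwoCvx

open Set

variable {a b : ℝ} {g h : ℝ → ℝ}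

theorem interior_region (hg : ContinuousOn g (Icc a b)) (hh : ContinuousOn h (Icc a b)) :
    interior (region a b g h) = {z | a < z.1 ∧ z.1 < b ∧ g z.1 < z.2 ∧ z.2 < h z.1} := by
  apply Subset.antisymm
  · intro z hz
    obtain ⟨ε, hε, hb⟩ := Metric.isOpen_iff.1 isOpen_interior z hz
    have key : ∀ w : ℝ × ℝ, dist w z < ε → w ∈ region a b g h := fun w hw =>
      interior_subset (hb hw)
    have h1 : (z.1 - ε / 2, z.2) ∈ region a b g h := by
      apply key
      rw [Prod.dist_eq, max_lt_iff, Real.dist_eq, Real.dist_eq]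
      constructor
      · rw [abs_lt]; constructor <;> dsimp only <;> linarith
      · simp [hε]
    have h2 : (z.1 + ε / 2, z.2) ∈ region a b g h := by
      apply key
      rw [Prod.dist_eq, max_lt_iff, Real.dist_eq, Real.dist_eq]
      constructor
      · rw [abs_lt]; constructor <;> dsimp only <;> linarith
      · simp [hε]
    have h3 : (z.1, z.2 - ε / 2) ∈ region a b g h := by
      apply key
      rw [Prod.dist_eq, max_lt_iff, Real.dist_eq, Real.dist_eq]
      constructor
      · simp [hε]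
      · rw [abs_lt]; constructor <;> dsimp only <;> linarith
    have h4 : (z.1, z.2 + ε / 2) ∈ region a b g h := by
      apply key
      rw [Prod.dist_eq, max_lt_iff, Real.dist_eq, Real.dist_eq]
      constructor
      · simp [hε]
      · rw [abs_lt]; constructor <;> dsimp only <;> linarith
    simp only [region, mem_setOf_eq] at h1 h2 h3 h4 ⊢
    refine ⟨by linarith [h1.1], by linarith [h2.2.1], by linarith [h3.2.2.1], by linarith [h4.2.2.2]⟩
  · apply interior_maximal
    · intro z hz
      simp only [mem_setOf_eq] at hz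
      simp only [region, mem_setOf_eq]
      exact ⟨hz.1.le, hz.2.1.le, hz.2.2.1.le, hz.2.2.2.le⟩
    · have hV : IsOpen (Prod.fst ⁻¹' Ioo a b : Set (ℝ × ℝ)) := isOpen_Ioo.preimage continuous_fst
      have hmap : MapsTo Prod.fst (Prod.fst ⁻¹' Ioo a b : Set (ℝ × ℝ)) (Icc a b) := by
        intro z hz
        exact Ioo_subset_Icc_self hz
      have c1 : ContinuousOn (fun z : ℝ × ℝ => z.2 - g z.1) (Prod.fst ⁻¹' Ioo a b) :=
        continuous_snd.continuousOn.sub (hg.comp continuous_fst.continuousOn hmap)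
      have c2 : ContinuousOn (fun z : ℝ × ℝ => h z.1 - z.2) (Prod.fst ⁻¹' Ioo a b) :=
        (hh.comp continuous_fst.continuousOn hmap).sub continuous_snd.continuousOn
      have o1 := c1.isOpen_inter_preimage hV (isOpen_Ioi (a := (0 : ℝ)))
      have o2 := c2.isOpen_inter_preimage hV (isOpen_Ioi (a := (0 : ℝ)))
      have : {z : ℝ × ℝ | a < z.1 ∧ z.1 < b ∧ g z.1 < z.2 ∧ z.2 < h z.1} =
          (Prod.fst ⁻¹' Ioo a b ∩ (fun z : ℝ × ℝ => z.2 - g z.1) ⁻¹' Ioi 0) ∩
          (Prod.fst ⁻¹' Ioo a b ∩ (fun z : ℝ × ℝ => h z.1 - z.2) ⁻¹' Ioi 0) := by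
        ext z
        simp only [mem_setOf_eq, mem_inter_iff, mem_preimage, mem_Ioo, mem_Ioi, sub_pos]
        tauto
      rw [this]
      exact o1.inter o2

theorem isCompact_region (hg : ContinuousOn g (Icc a b)) (hh : ContinuousOn h (Icc a b)) :
    IsCompact (region a b g h) := by
  obtain ⟨m, hm⟩ := isCompact_Icc.bddBelow_image hg
  obtain ⟨M, hM⟩ := isCompact_Icc.bddAbove_image hh
  have hK : IsClosed (Prod.fst ⁻¹' Icc a b : Set (ℝ × ℝ)) := isClosed_Icc.preimage continuous_fst
  have hmap : MapsTo Prod.fst (Prod.fst ⁻¹' Icc a b : Set (ℝ × ℝ)) (Icc a b) := fun z hz => hz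
  have c1 : ContinuousOn (fun z : ℝ × ℝ => z.2 - g z.1) (Prod.fst ⁻¹' Icc a b) :=
    continuous_snd.continuousOn.sub (hg.comp continuous_fst.continuousOn hmap)
  have c2 : ContinuousOn (fun z : ℝ × ℝ => h z.1 - z.2) (Prod.fst ⁻¹' Icc a b) :=
    (hh.comp continuous_fst.continuousOn hmap).sub continuous_snd.continuousOn
  have k1 := c1.preimage_isClosed_of_isClosed hK (isClosed_Ici (a := (0 : ℝ)))
  have k2 := c2.preimage_isClosed_of_isClosed hK (isClosed_Ici (a := (0 : ℝ)))
  have heq : region a b g h =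
      (Prod.fst ⁻¹' Icc a b ∩ (fun z : ℝ × ℝ => z.2 - g z.1) ⁻¹' Ici 0) ∩
      (Prod.fst ⁻¹' Icc a b ∩ (fun z : ℝ × ℝ => h z.1 - z.2) ⁻¹' Ici 0) := by
    ext z
    simp only [region, mem_setOf_eq, mem_inter_iff, mem_preimage, mem_Icc, mem_Ici, sub_nonneg]
    tauto
  have hcl : IsClosed (region a b g h) := by
    rw [heq]; exact k1.inter k2
  apply (isCompact_Icc.prod isCompact_Icc : IsCompact (Icc a b ×ˢ Icc m M)).of_isClosed_subset hcl
  intro z hz
  simp only [region, mem_setOf_eq] at hz
  have hx : z.1 ∈ Icc a b := ⟨hz.1, hz.2.1⟩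
  refine ⟨hx, ?_, ?_⟩
  · exact (hm (mem_image_of_mem g hx)).trans hz.2.2.1
  · exact hz.2.2.2.trans (hM (mem_image_of_mem h hx))

theorem frontier_region (hab : a < b) (hg : ContinuousOn g (Icc a b)) (hh : ContinuousOn h (Icc a b))
    (hlt : ∀ x ∈ Ioo a b, g x < h x) (ha : g a = h a) (hb : g b = h b) :
    frontier (region a b g h) = {z | a ≤ z.1 ∧ z.1 ≤ b ∧ (z.2 = g z.1 ∨ z.2 = h z.1)} := by
  have hle : ∀ x, a ≤ x → x ≤ b → g x ≤ h x := by
    intro x h1 h2
    rcases eq_or_lt_of_le h1 with h3 | h3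
    · rw [← h3]; exact ha.le
    · rcases eq_or_lt_of_le h2 with h4 | h4
      · rw [h4]; exact hb.le
      · exact (hlt x ⟨h3, h4⟩).le
  rw [(isCompact_region hg hh).isClosed.frontier_eq, interior_region hg hh]
  ext z
  simp only [region, mem_diff, mem_setOf_eq]
  constructor
  · rintro ⟨⟨h1, h2, h3, h4⟩, h5⟩
    refine ⟨h1, h2, ?_⟩
    rcases eq_or_lt_of_le h1 with h6 | h6
    · left
      rw [← h6] at h3 h4 ⊢
      linarith
    · rcases eq_or_lt_of_le h2 with h7 | h7
      · left
        rw [h7] at h3 h4 ⊢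
        linarith
      · rcases eq_or_lt_of_le h3 with h8 | h8
        · left; exact h8.symm
        · rcases eq_or_lt_of_le h4 with h9 | h9
          · right; exact h9
          · exact absurd ⟨h6, h7, h8, h9⟩ h5
  · rintro ⟨h1, h2, h3⟩
    have h4 := hle z.1 h1 h2
    refine ⟨⟨h1, h2, ?_, ?_⟩, ?_⟩
    · rcases h3 with h3 | h3 <;> linarith
    · rcases h3 with h3 | h3 <;> linarith
    · rintro ⟨_, _, h5, h6⟩
      rcases h3 with h3 | h3 <;> linarith

end Pool.Agent.TwoCvx
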