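import Pool.Agent.TwoCvx.PLb
import Pool.Agent.TwoCvx.Region

/-!
# Invariance under linear isomorphisms of the plane

A linear isomorphism `e` of `ℝ × ℝ` is a homeomorphism (`LinearEquiv.toContinuousLinearEquiv`), so it commutes with
`interior`, `frontier`, maps segments to segments and convex hulls to convex hulls, lines to lines (compose `φ` with
`e.symm`), null sets to null sets (`MeasureTheory.Measure.addHaar_image_linearMap`).
For `Dec.map` take the images of the members of the family (`Finset.image`).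
-/

set_option autoImplicit false

namespace Pool.Agent.TwoCvx

open Set MeasureTheory

variable (e : (ℝ × ℝ) ≃ₗ[ℝ] (ℝ × ℝ)) {P Q : Set (ℝ × ℝ)}

private noncomputable def map_homeo (e : (ℝ × ℝ) ≃ₗ[ℝ] (ℝ × ℝ)) : (ℝ × ℝ) ≃ₜ (ℝ × ℝ) :=
  e.toContinuousLinearEquiv.toHomeomorph

private theorem map_homeo_apply (z : ℝ × ℝ) : map_homeo e z = e z := rfl

private theorem map_homeo_image (S : Set (ℝ × ℝ)) : map_homeo e '' S = e '' S := rfl

private theorem map_cont : Continuous (e : (ℝ × ℝ) → (ℝ × ℝ)) := (map_homeo e).continuous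

theorem interior_image (Q : Set (ℝ × ℝ)) : interior (e '' Q) = e '' interior Q :=
  ((map_homeo e).image_interior Q).symm

private theorem map_frontier_image (Q : Set (ℝ × ℝ)) : frontier (e '' Q) = e '' frontier Q :=
  ((map_homeo e).image_frontier Q).symm

theorem convexHull_image (Q : Set (ℝ × ℝ)) : convexHull ℝ (e '' Q) = e '' convexHull ℝ Q :=
  (LinearMap.image_convexHull (e : (ℝ × ℝ) →ₗ[ℝ] (ℝ × ℝ)) Q).symm

private theorem map_segment (a b : ℝ × ℝ) : e '' segment ℝ a b = segment ℝ (e a) (e b) :=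
  image_segment ℝ ((e : (ℝ × ℝ) →ₗ[ℝ] (ℝ × ℝ)).toAffineMap) a b

theorem Two.map (h : Two Q) : Two (e '' Q) := by
  intro φ c hφ
  have hφe : φ.comp (e : (ℝ × ℝ) →ₗ[ℝ] (ℝ × ℝ)) ≠ 0 := by
    intro h0
    apply hφ
    apply LinearMap.ext
    intro z
    have := LinearMap.congr_fun h0 (e.symm z)
    simpa using this
  obtain ⟨C₁, C₂, h1, h2, h3⟩ := h (φ.comp (e : (ℝ × ℝ) →ₗ[ℝ] (ℝ × ℝ))) c hφe
  refine ⟨e '' C₁, e '' C₂, h1.image _ (map_cont e).continuousOn,
    h2.image _ (map_cont e).continuousOn, ?_⟩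
  rw [← image_union, ← h3, interior_image]
  ext z
  constructor
  · rintro ⟨hz, y, hy, rfl⟩
    exact ⟨y, ⟨hz, hy⟩, rfl⟩
  · rintro ⟨y, ⟨hy1, hy2⟩, rfl⟩
    exact ⟨hy1, y, hy2, rfl⟩

private theorem map_simpleClosed {k : ℕ} {v : ℕ → ℝ × ℝ} (h : SimpleClosed k v) :
    SimpleClosed k (fun i => e (v i)) where
  three_le := h.three_le
  closed := by rw [h.closed]
  distinct := fun i j hij hj h1 => h.distinct i j hij hj (e.injective h1)
  simple := by
    intro i j hij hj z hz1 hz2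
    rw [← map_segment] at hz1 hz2
    obtain ⟨y, hy, rfl⟩ := hz1
    obtain ⟨y', hy', h1⟩ := hz2
    have h2 : y' = y := e.injective h1
    rw [h2] at hy'
    rcases h.simple i j hij hj y hy hy' with ⟨h3, h4⟩ | ⟨h3, h4, h5⟩
    · exact Or.inl ⟨h3, by rw [h4]⟩
    · exact Or.inr ⟨h3, h4, by rw [h5]⟩

theorem IsPolygon.map {k : ℕ} {v : ℕ → ℝ × ℝ} (h : IsPolygon k v Q) :
    IsPolygon k (fun i => e (v i)) (e '' Q) := by
  obtain ⟨h1, h2, h3, h4⟩ := h
  refine ⟨map_simpleClosed e h1, h2.image (map_cont e), ?_, ?_⟩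
  · rw [interior_image]
    exact h3.image _
  · rw [map_frontier_image, h4, image_iUnion₂]
    exact iUnion₂_congr fun i _ => map_segment e _ _

theorem Piece.map (h : Piece P Q) : Piece (e '' P) (e '' Q) where
  polygon := by
    obtain ⟨k, v, hv, hP⟩ := h.polygon
    exact ⟨k, _, hv.map e, fun i hi => mem_image_of_mem _ (hP i hi)⟩
  two := h.two.map e
  sub := by
    rw [convexHull_image]
    exact image_mono h.sub
  empty := by
    rintro _ ⟨p, hp, rfl⟩ hcon
    rw [interior_image] at hcon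
    obtain ⟨q, hq, h1⟩ := hcon
    rw [e.injective h1] at hq
    exact h.empty p hp hq

theorem Dec.map {m : ℕ} (h : Dec P m) : Dec (e '' P) m := by
  classical
  obtain ⟨F, h1, h2, h3, h4⟩ := h
  refine ⟨F.image (fun Q => e '' Q), Finset.card_image_le.trans h1, ?_, ?_, ?_⟩
  · intro Q hQ
    obtain ⟨Q', hQ', rfl⟩ := Finset.mem_image.1 hQ
    exact (h2 Q' hQ').map e
  · intro Q hQ R hR hne
    obtain ⟨Q', hQ', rfl⟩ := Finset.mem_image.1 hQ
    obtain ⟨R', hR', rfl⟩ := Finset.mem_image.1 hR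
    rw [interior_image, interior_image]
    exact (disjoint_image_iff e.injective).2 (h3 Q' hQ' R' hR' fun h => hne (by rw [h]))
  · have e1 : convexHull ℝ (e '' P) \ ⋃ Q ∈ F.image (fun Q => e '' Q), Q =
        (e : (ℝ × ℝ) →ₗ[ℝ] (ℝ × ℝ)) '' (convexHull ℝ P \ ⋃ Q ∈ F, Q) := by
      rw [convexHull_image, LinearEquiv.coe_coe, image_diff e.injective, image_iUnion₂]
      congr 1
      ext z
      simp only [mem_iUnion, Finset.mem_image, exists_prop]
      constructor
      · rintro ⟨_, ⟨Q, hQ, rfl⟩, hz⟩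
        exact ⟨Q, hQ, hz⟩
      · rintro ⟨Q, hQ, hz⟩
        exact ⟨_, ⟨Q, hQ, rfl⟩, hz⟩
    rw [e1, Measure.addHaar_image_linearMap, h4, mul_zero]

theorem Dec.of_map {m : ℕ} (h : Dec (e '' P) m) : Dec P m := by
  have h1 := h.map e.symm
  have h2 : e.symm '' (e '' P) = P := by
    rw [image_image]
    simp
  rwa [h2] at h1

private theorem map_collinear {p q r : ℝ × ℝ} (h : Collinear ℝ ({p, q, r} : Set (ℝ × ℝ))) :
    Collinear ℝ ({e p, e q, e r} : Set (ℝ × ℝ)) := by
  rw [collinear_iff_of_mem (p₀ := p) (by simp)] at h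
  obtain ⟨v, hv⟩ := h
  rw [collinear_iff_of_mem (p₀ := e p) (by simp)]
  refine ⟨e v, ?_⟩
  intro z hz
  have key : ∀ x ∈ ({p, q, r} : Set (ℝ × ℝ)), ∃ t : ℝ, e x = t • e v +ᵥ e p := by
    intro x hx
    obtain ⟨t, ht⟩ := hv x hx
    refine ⟨t, ?_⟩
    rw [ht]
    simp [vadd_eq_add]
  simp only [mem_insert_iff, mem_singleton_iff] at hz
  rcases hz with rfl | rfl | rfl
  · exact key p (by simp)
  · exact key q (by simp)
  · exact key r (by simp)

theorem GenPos.map (h : GenPos P) : GenPos (e '' P) := by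
  rintro _ ⟨p, hp, rfl⟩ _ ⟨q, hq, rfl⟩ _ ⟨r, hr, rfl⟩ h1 h2 h3 hc
  have hc' := map_collinear e.symm hc
  rw [e.symm_apply_apply, e.symm_apply_apply, e.symm_apply_apply] at hc'
  exact h p hp q hq r hr (fun h => h1 (by rw [h])) (fun h => h2 (by rw [h]))
    (fun h => h3 (by rw [h])) hc'

theorem image_inter_interior (Q : Set (ℝ × ℝ)) :
    e '' (Q ∩ interior (convexHull ℝ Q)) = (e '' Q) ∩ interior (convexHull ℝ (e '' Q)) := by
  rw [convexHull_image, interior_image, image_inter e.injective]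

theorem refl_refl_image (Q : Set (ℝ × ℝ)) : refl '' (refl '' Q) = Q := by
  rw [image_image]
  simp

private theorem map_refl_refl (z : ℝ × ℝ) : refl (refl z) = z := by
  simp

private theorem map_mem_refl_image {z : ℝ × ℝ} {Q : Set (ℝ × ℝ)} : z ∈ refl '' Q ↔ refl z ∈ Q := by
  constructor
  · rintro ⟨y, hy, rfl⟩
    rwa [map_refl_refl]
  · intro h
    exact ⟨refl z, h, map_refl_refl z⟩

theorem refl_region (a b : ℝ) (g h : ℝ → ℝ) :
    refl '' region a b g h = region a b (fun x => - h x) (fun x => - g x) := by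
  ext z
  rw [map_mem_refl_image]
  unfold region
  simp only [refl_apply, mem_setOf_eq]
  constructor
  · rintro ⟨h1, h2, h3, h4⟩
    exact ⟨h1, h2, by linarith, by linarith⟩
  · rintro ⟨h1, h2, h3, h4⟩
    exact ⟨h1, h2, by linarith, by linarith⟩

/-! ### general position and orientation -/

theorem GenPos.mono (h : GenPos P) (hQ : Q ⊆ P) : GenPos Q :=
  fun p hp q hq r hr => h p (hQ hp) q (hQ hq) r (hQ hr)

theorem GenPos.orient_ne (h : GenPos P) {p q r : ℝ × ℝ} (hp : p ∈ P) (hq : q ∈ P) (hr : r ∈ P) (h1 : p ≠ q)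
    (h2 : q ≠ r) (h3 : p ≠ r) : orient p q r ≠ 0 := by
  intro h0
  apply h p hp q hq r hr h1 h2 h3
  rw [collinear_iff_of_mem (p₀ := p) (by simp)]
  refine ⟨q - p, ?_⟩
  unfold orient at h0
  have hr' : ∃ t : ℝ, r = t • (q - p) +ᵥ p := by
    by_cases hx : q.1 - p.1 = 0
    · have hy : q.2 - p.2 ≠ 0 := by
        intro hy
        apply h1
        exact Prod.ext (by linarith) (by linarith)
      refine ⟨(r.2 - p.2) / (q.2 - p.2), ?_⟩
      rw [hx, zero_mul, zero_sub, neg_eq_zero, mul_eq_zero] at h0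
      have hr1 := h0.resolve_left hy
      ext
      · simp only [vadd_eq_add, Prod.fst_add, Prod.smul_fst, Prod.fst_sub, smul_eq_mul, hx, mul_zero]
        linarith
      · simp only [vadd_eq_add, Prod.snd_add, Prod.smul_snd, Prod.snd_sub, smul_eq_mul]
        rw [div_mul_cancel₀ _ hy]
        ring
    · refine ⟨(r.1 - p.1) / (q.1 - p.1), ?_⟩
      ext
      · simp only [vadd_eq_add, Prod.fst_add, Prod.smul_fst, Prod.fst_sub, smul_eq_mul]
        rw [div_mul_cancel₀ _ hx]
        ring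
      · simp only [vadd_eq_add, Prod.snd_add, Prod.smul_snd, Prod.snd_sub, smul_eq_mul]
        field_simp
        linarith
  intro z hz
  simp only [mem_insert_iff, mem_singleton_iff] at hz
  rcases hz with rfl | rfl | rfl
  · exact ⟨0, by simp⟩
  · exact ⟨1, by simp⟩
  · exact hr'

theorem Ext.refl {p q : ℝ × ℝ} (h : Ext Q p q) :
    Ext (Pool.Agent.TwoCvx.refl '' Q) (Pool.Agent.TwoCvx.refl p) (Pool.Agent.TwoCvx.refl q) where
  hp := mem_image_of_mem _ h.hp
  hq := mem_image_of_mem _ h.hq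
  hmin := by
    rintro _ ⟨z, hz, rfl⟩
    exact h.hmin z hz
  hmax := by
    rintro _ ⟨z, hz, rfl⟩
    exact h.hmax z hz

theorem Lower.refl {p q : ℝ × ℝ} {l : ℝ → ℝ} (h : Lower Q p q l) :
    Upper (Pool.Agent.TwoCvx.refl '' Q) (Pool.Agent.TwoCvx.refl p) (Pool.Agent.TwoCvx.refl q) (fun x => - l x) where
  pl := h.pl.refl_neg
  cc := h.cv.neg
  le := by
    rintro _ ⟨z, hz, rfl⟩
    have := h.le z hz
    simp only [refl_apply]
    linarith

theorem Upper.refl {p q : ℝ × ℝ} {u : ℝ → ℝ} (h : Upper Q p q u) :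
    Lower (Pool.Agent.TwoCvx.refl '' Q) (Pool.Agent.TwoCvx.refl p) (Pool.Agent.TwoCvx.refl q) (fun x => - u x) where
  pl := h.pl.refl_neg
  cv := h.cc.neg
  le := by
    rintro _ ⟨z, hz, rfl⟩
    have := h.le z hz
    simp only [refl_apply]
    linarith

end Pool.Agent.TwoCvx
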