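import Pool.Agent.TwoCvx.Defs

/-!
# Piecewise linear interpolation functions: basic lemmas

Everything is an easy induction on the inductive predicate `PL` (see `Defs.lean`).
* `continuousOn`: on an edge the function is affine; `ContinuousOn` on two closed intervals with a common end point
  gives it on the union.
* `mem_convexHull`: on an edge the point `(x, g x)` lies in the segment of the two vertices.
* `split`: if a point `z ∈ P` lies on the graph, then the edge containing it is divided at `z`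
  (if `z.1` is the abscissa of a vertex, then `z` is that vertex, since both lie on the graph).
* `le_of_concave`, `lt_of_concave`: at the vertices `g ≤ f` (`g < f`), on an edge `g` is affine and `f` is concave.
* `lt_of_concave_left`: `g a ≤ f a` and `g < f` at all further vertices; on the first edge use the strict
  inequality at the right end point, then `lt_of_concave`.
* `refl_neg`: reflection.
-/

set_option autoImplicit false

namespace Pool.Agent.TwoCvx

open Set

variable {P P' : Set (ℝ × ℝ)} {g f : ℝ → ℝ} {a b c : ℝ}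

lemma lineT_left (p q : ℝ × ℝ) : lineT p q p.1 = p.2 := by
  simp [lineT]

lemma lineT_right {p q : ℝ × ℝ} (h : p.1 < q.1) : lineT p q q.1 = q.2 := by
  have h1 : q.1 - p.1 ≠ 0 := (sub_pos.mpr h).ne'
  unfold lineT
  field_simp
  ring

lemma lineT_spec {p q : ℝ × ℝ} (h : p.1 < q.1) (x : ℝ) :
    lineT p q x * (q.1 - p.1) = (q.1 - x) * p.2 + (x - p.1) * q.2 := by
  have h1 : q.1 - p.1 ≠ 0 := (sub_pos.mpr h).ne'
  unfold lineT
  field_simp
  ring

lemma lineT_affine (p q : ℝ × ℝ) : ∃ m k : ℝ, ∀ x, lineT p q x = m * x + k := by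
  refine ⟨(q.2 - p.2) / (q.1 - p.1), p.2 - (q.2 - p.2) / (q.1 - p.1) * p.1, fun x => ?_⟩
  unfold lineT
  ring

lemma AffOn.mono {c d : ℝ} (h : AffOn g a b) (h1 : a ≤ c) (h2 : d ≤ b) : AffOn g c d := by
  obtain ⟨m, k, h⟩ := h
  exact ⟨m, k, fun x hx => h x ⟨h1.trans hx.1, hx.2.trans h2⟩⟩

lemma AffOn.convexOn (h : AffOn g a b) : ConvexOn ℝ (Icc a b) g := by
  obtain ⟨m, k, h⟩ := h
  refine ⟨convex_Icc a b, fun x hx y hy s t hs ht hst => ?_⟩
  have h1 := convex_Icc a b hx hy hs ht hst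
  rw [h x hx, h y hy, h _ h1]
  simp only [smul_eq_mul]
  have : k = (s + t) * k := by rw [hst, one_mul]
  nlinarith

lemma AffOn.concaveOn (h : AffOn g a b) : ConcaveOn ℝ (Icc a b) g := by
  obtain ⟨m, k, h⟩ := h
  refine ⟨convex_Icc a b, fun x hx y hy s t hs ht hst => ?_⟩
  have h1 := convex_Icc a b hx hy hs ht hst
  rw [h x hx, h y hy, h _ h1]
  simp only [smul_eq_mul]
  have : k = (s + t) * k := by rw [hst, one_mul]
  nlinarith

lemma PL.le (h : PL P g a b) : a ≤ b := by
  induction h with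
  | single p hp hg => exact le_refl _
  | cons p q b hp hq hpq hgp hgq hlin h ih => exact hpq.le.trans ih

lemma PL.left_mem (h : PL P g a b) : (a, g a) ∈ P := by
  cases h with
  | single p hp hg => rw [hg]; exact hp
  | cons p q b hp hq hpq hgp hgq hlin h => rw [hgp]; exact hp

lemma PL.right_mem (h : PL P g a b) : (b, g b) ∈ P := by
  induction h with
  | single p hp hg => rw [hg]; exact hp
  | cons p q b hp hq hpq hgp hgq hlin h ih => exact ih

lemma PL.mono (hP : P ⊆ P') (h : PL P g a b) : PL P' g a b := by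
  induction h with
  | single p hp hg => exact PL.single p (hP hp) hg
  | cons p q b hp hq hpq hgp hgq hlin h ih =>
    exact PL.cons p q b (hP hp) (hP hq) hpq hgp hgq hlin ih

lemma PL.congr (h : PL P g a b) (hg : ∀ x ∈ Icc a b, f x = g x) : PL P f a b := by
  induction h with
  | single p hp hg' =>
    exact PL.single p hp ((hg _ ⟨le_refl _, le_refl _⟩).trans hg')
  | cons p q b hp hq hpq hgp hgq hlin h ih =>
    have hqb := h.le
    refine PL.cons p q b hp hq hpq ?_ ?_ ?_ (ih fun x hx => hg x ⟨hpq.le.trans hx.1, hx.2⟩)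
    · rw [hg _ ⟨le_refl _, hpq.le.trans hqb⟩, hgp]
    · rw [hg _ ⟨hpq.le, hqb⟩, hgq]
    · intro x hx
      rw [hg x ⟨hx.1, hx.2.trans hqb⟩]
      exact hlin x hx

lemma PL.trans (h1 : PL P g a c) (h2 : PL P g c b) : PL P g a b := by
  induction h1 with
  | single p hp hg => exact h2
  | cons p q c hp hq hpq hgp hgq hlin h ih =>
    exact PL.cons p q b hp hq hpq hgp hgq hlin (ih h2)

/-- one edge -/
lemma PL.edge {p q : ℝ × ℝ} (hp : p ∈ P) (hq : q ∈ P) (hpq : p.1 < q.1)
    (h : ∀ x ∈ Icc p.1 q.1, g x = lineT p q x) : PL P g p.1 q.1 := by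
  have h1 : g p.1 = p.2 := by
    rw [h _ ⟨le_refl _, hpq.le⟩, lineT_left]
  have h2 : g q.1 = q.2 := by
    rw [h _ ⟨hpq.le, le_refl _⟩, lineT_right hpq]
  refine PL.cons p q q.1 hp hq hpq h1 h2 (fun x hx => ?_) (PL.single q hq h2)
  rw [h x hx, lineT_spec hpq]

/-- points on an edge as convex combinations -/
private lemma edge_comb {p q : ℝ × ℝ} (hpq : p.1 < q.1)
    (hlin : ∀ x ∈ Icc p.1 q.1, g x * (q.1 - p.1) = (q.1 - x) * p.2 + (x - p.1) * q.2) {x : ℝ}
    (hx : x ∈ Icc p.1 q.1) : ∃ s t : ℝ, 0 ≤ s ∧ 0 ≤ t ∧ s + t = 1 ∧ x = s * p.1 + t * q.1 ∧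
      g x = s * p.2 + t * q.2 ∧ (p.1 < x → 0 < t) ∧ (x < q.1 → 0 < s) := by
  have h1 : 0 < q.1 - p.1 := sub_pos.mpr hpq
  have h2 := hlin x hx
  refine ⟨(q.1 - x) / (q.1 - p.1), (x - p.1) / (q.1 - p.1), div_nonneg (sub_nonneg.mpr hx.2) h1.le,
    div_nonneg (sub_nonneg.mpr hx.1) h1.le, ?_, ?_, ?_, fun h => div_pos (sub_pos.mpr h) h1,
    fun h => div_pos (sub_pos.mpr h) h1⟩
  · field_simp
    ring
  · field_simp
    ring
  · field_simp
    linarith

private lemma affine_of_lin {p q : ℝ × ℝ} (hpq : p.1 < q.1)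
    (hlin : ∀ x ∈ Icc p.1 q.1, g x * (q.1 - p.1) = (q.1 - x) * p.2 + (x - p.1) * q.2) :
    ∀ x ∈ Icc p.1 q.1, g x = lineT p q x := by
  intro x hx
  have h1 : q.1 - p.1 ≠ 0 := (sub_pos.mpr hpq).ne'
  have h2 := hlin x hx
  rw [← lineT_spec hpq] at h2
  exact mul_right_cancel₀ h1 h2

lemma PL.continuousOn (h : PL P g a b) : ContinuousOn g (Icc a b) := by
  induction h with
  | single p hp hg =>
    rw [Icc_self]
    exact continuousOn_singleton _ _
  | cons p q b hp hq hpq hgp hgq hlin h ih =>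
    have hqb := h.le
    rw [← Icc_union_Icc_eq_Icc hpq.le hqb]
    refine ContinuousOn.union_of_isClosed ?_ ih isClosed_Icc isClosed_Icc
    have h1 := affine_of_lin hpq hlin
    obtain ⟨m, k, h2⟩ := lineT_affine p q
    refine ContinuousOn.congr (f := fun x => m * x + k) (by fun_prop) fun x hx => ?_
    rw [h1 x hx, h2]

lemma PL.mem_convexHull (h : PL P g a b) {x : ℝ} (hx : x ∈ Icc a b) : (x, g x) ∈ convexHull ℝ P := by
  induction h with
  | single p hp hg =>
    have h1 : x = p.1 := le_antisymm hx.2 hx.1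
    rw [h1, hg]
    exact subset_convexHull ℝ P hp
  | cons p q b hp hq hpq hgp hgq hlin h ih =>
    rcases le_total x q.1 with hxq | hxq
    · obtain ⟨s, t, hs, ht, hst, h1, h2, -, -⟩ := edge_comb hpq hlin ⟨hx.1, hxq⟩
      have h3 := (convex_convexHull ℝ P) (subset_convexHull ℝ P hp) (subset_convexHull ℝ P hq) hs ht hst
      have h4 : s • p + t • q = (x, g x) := by
        ext
        · simp [h1]
        · simp [h2]
      rw [h4] at h3
      exact h3
    · exact ih ⟨hxq, hx.2⟩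

private lemma eq_of_graph {p z : ℝ × ℝ} (h : z.1 = p.1) (hz : g z.1 = z.2) (hp : g p.1 = p.2) :
    z = p := by
  ext
  · exact h
  · rw [← hz, h, hp]

lemma PL.split (h : PL P g a b) {z : ℝ × ℝ} (hz : z ∈ P) (hgz : g z.1 = z.2) (h1 : a ≤ z.1) (h2 : z.1 ≤ b) :
    PL P g a z.1 ∧ PL P g z.1 b := by
  induction h with
  | single p hp hg =>
    have h3 : z = p := eq_of_graph (le_antisymm h2 h1) hgz hg
    rw [h3]
    exact ⟨PL.single p hp hg, PL.single p hp hg⟩
  | cons p q b hp hq hpq hgp hgq hlin h ih =>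
    rcases le_or_gt q.1 z.1 with hqz | hqz
    · obtain ⟨h3, h4⟩ := ih hqz h2
      exact ⟨PL.cons p q z.1 hp hq hpq hgp hgq hlin h3, h4⟩
    · rcases h1.eq_or_lt with hpz | hpz
      · have h3 : z = p := eq_of_graph hpz.symm hgz hgp
        rw [h3]
        exact ⟨PL.single p hp hgp, PL.cons p q b hp hq hpq hgp hgq hlin h⟩
      · have h3 := affine_of_lin hpq hlin
        obtain ⟨m, k, h4⟩ := lineT_affine p q
        have h5 : ∀ x ∈ Icc p.1 q.1, g x = m * x + k := fun x hx => by rw [h3 x hx, h4]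
        have e1 : p.2 = m * p.1 + k := by rw [← hgp, h5 _ ⟨le_refl _, hpq.le⟩]
        have e2 : q.2 = m * q.1 + k := by rw [← hgq, h5 _ ⟨hpq.le, le_refl _⟩]
        have e3 : z.2 = m * z.1 + k := by rw [← hgz, h5 _ ⟨hpz.le, hqz.le⟩]
        refine ⟨PL.cons p z z.1 hp hz hpz hgp hgz ?_ (PL.single z hz hgz),
          PL.cons z q b hz hq hqz hgz hgq ?_ h⟩
        · intro x hx
          rw [h5 x ⟨hx.1, hx.2.trans hqz.le⟩, e1, e3]
          ring
        · intro x hx
          rw [h5 x ⟨hpz.le.trans hx.1, hx.2⟩, e2, e3]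
          ring

lemma PL.le_of_concave (h : PL P g a b) (hf : ConcaveOn ℝ (Icc a b) f)
    (hv : ∀ z ∈ P, a ≤ z.1 → z.1 ≤ b → g z.1 = z.2 → z.2 ≤ f z.1) : ∀ x ∈ Icc a b, g x ≤ f x := by
  induction h with
  | single p hp hg =>
    intro x hx
    have h1 : x = p.1 := le_antisymm hx.2 hx.1
    rw [h1, hg]
    exact hv p hp (le_refl _) (le_refl _) hg
  | cons p q b hp hq hpq hgp hgq hlin h ih =>
    intro x hx
    have hqb := h.le
    rcases le_total x q.1 with hxq | hxq
    · obtain ⟨s, t, hs, ht, hst, h1, h2, -, -⟩ := edge_comb hpq hlin ⟨hx.1, hxq⟩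
      have h3 := hf.2 (x := p.1) (y := q.1) ⟨le_refl _, hpq.le.trans hqb⟩ ⟨hpq.le, hqb⟩ hs ht hst
      simp only [smul_eq_mul] at h3
      rw [← h1] at h3
      rw [h2]
      have h4 := hv p hp (le_refl _) (hpq.le.trans hqb) hgp
      have h5 := hv q hq hpq.le hqb hgq
      have h6 := mul_le_mul_of_nonneg_left h4 hs
      have h7 := mul_le_mul_of_nonneg_left h5 ht
      linarith
    · refine ih (hf.subset (Icc_subset_Icc_left hpq.le) (convex_Icc _ _)) ?_ x ⟨hxq, hx.2⟩
      intro z hz h1 h2 h3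
      exact hv z hz (hpq.le.trans h1) h2 h3

lemma PL.ge_of_convex (h : PL P g a b) (hf : ConvexOn ℝ (Icc a b) f)
    (hv : ∀ z ∈ P, a ≤ z.1 → z.1 ≤ b → g z.1 = z.2 → f z.1 ≤ z.2) : ∀ x ∈ Icc a b, f x ≤ g x := by
  induction h with
  | single p hp hg =>
    intro x hx
    have h1 : x = p.1 := le_antisymm hx.2 hx.1
    rw [h1, hg]
    exact hv p hp (le_refl _) (le_refl _) hg
  | cons p q b hp hq hpq hgp hgq hlin h ih =>
    intro x hx
    have hqb := h.le
    rcases le_total x q.1 with hxq | hxq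
    · obtain ⟨s, t, hs, ht, hst, h1, h2, -, -⟩ := edge_comb hpq hlin ⟨hx.1, hxq⟩
      have h3 := hf.2 (x := p.1) (y := q.1) ⟨le_refl _, hpq.le.trans hqb⟩ ⟨hpq.le, hqb⟩ hs ht hst
      simp only [smul_eq_mul] at h3
      rw [← h1] at h3
      rw [h2]
      have h4 := hv p hp (le_refl _) (hpq.le.trans hqb) hgp
      have h5 := hv q hq hpq.le hqb hgq
      have h6 := mul_le_mul_of_nonneg_left h4 hs
      have h7 := mul_le_mul_of_nonneg_left h5 ht
      linarith
    · refine ih (hf.subset (Icc_subset_Icc_left hpq.le) (convex_Icc _ _)) ?_ x ⟨hxq, hx.2⟩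
      intro z hz h1 h2 h3
      exact hv z hz (hpq.le.trans h1) h2 h3

lemma PL.lt_of_concave (h : PL P g a b) (hf : ConcaveOn ℝ (Icc a b) f)
    (hv : ∀ z ∈ P, a ≤ z.1 → z.1 ≤ b → g z.1 = z.2 → z.2 < f z.1) : ∀ x ∈ Icc a b, g x < f x := by
  induction h with
  | single p hp hg =>
    intro x hx
    have h1 : x = p.1 := le_antisymm hx.2 hx.1
    rw [h1, hg]
    exact hv p hp (le_refl _) (le_refl _) hg
  | cons p q b hp hq hpq hgp hgq hlin h ih =>
    intro x hx
    have hqb := h.le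
    rcases le_total x q.1 with hxq | hxq
    · obtain ⟨s, t, hs, ht, hst, h1, h2, -, -⟩ := edge_comb hpq hlin ⟨hx.1, hxq⟩
      have h3 := hf.2 (x := p.1) (y := q.1) ⟨le_refl _, hpq.le.trans hqb⟩ ⟨hpq.le, hqb⟩ hs ht hst
      simp only [smul_eq_mul] at h3
      rw [← h1] at h3
      rw [h2]
      have h4 := hv p hp (le_refl _) (hpq.le.trans hqb) hgp
      have h5 := hv q hq hpq.le hqb hgq
      rcases hs.eq_or_lt with hs0 | hs0
      · have ht1 : t = 1 := by linarith
        rw [← hs0, ht1] at h3 ⊢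
        linarith
      · have h6 := mul_lt_mul_of_pos_left h4 hs0
        have h7 := mul_le_mul_of_nonneg_left h5.le ht
        linarith
    · refine ih (hf.subset (Icc_subset_Icc_left hpq.le) (convex_Icc _ _)) ?_ x ⟨hxq, hx.2⟩
      intro z hz h1 h2 h3
      exact hv z hz (hpq.le.trans h1) h2 h3

lemma PL.lt_of_concave_left (h : PL P g a b) (hf : ConcaveOn ℝ (Icc a b) f) (ha : g a ≤ f a)
    (hv : ∀ z ∈ P, a < z.1 → z.1 ≤ b → g z.1 = z.2 → z.2 < f z.1) : ∀ x ∈ Ioc a b, g x < f x := by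
  cases h with
  | single p hp hg =>
    intro x hx
    exact absurd (hx.1.trans_le hx.2) (lt_irrefl _)
  | cons p q b hp hq hpq hgp hgq hlin h =>
    intro x hx
    have hqb := h.le
    rcases le_total x q.1 with hxq | hxq
    · obtain ⟨s, t, hs, ht, hst, h1, h2, h8, -⟩ := edge_comb hpq hlin ⟨hx.1.le, hxq⟩
      have h3 := hf.2 (x := p.1) (y := q.1) ⟨le_refl _, hpq.le.trans hqb⟩ ⟨hpq.le, hqb⟩ hs ht hst
      simp only [smul_eq_mul] at h3
      rw [← h1] at h3
      rw [h2]
      rw [hgp] at ha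
      have h5 := hv q hq hpq hqb hgq
      have h6 := mul_le_mul_of_nonneg_left ha hs
      have h7 := mul_lt_mul_of_pos_left h5 (h8 hx.1)
      linarith
    · refine h.lt_of_concave (hf.subset (Icc_subset_Icc_left hpq.le) (convex_Icc _ _)) ?_ x
        ⟨hxq, hx.2⟩
      intro z hz h1 h2 h3
      exact hv z hz (hpq.trans_le h1) h2 h3

lemma PL.lt_of_concave_right (h : PL P g a b) (hf : ConcaveOn ℝ (Icc a b) f) (hb : g b ≤ f b)
    (hv : ∀ z ∈ P, a ≤ z.1 → z.1 < b → g z.1 = z.2 → z.2 < f z.1) : ∀ x ∈ Ico a b, g x < f x := by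
  induction h with
  | single p hp hg =>
    intro x hx
    exact absurd (hx.1.trans_lt hx.2) (lt_irrefl _)
  | cons p q b hp hq hpq hgp hgq hlin h ih =>
    intro x hx
    have hqb := h.le
    rcases lt_or_ge x q.1 with hxq | hxq
    · obtain ⟨s, t, hs, ht, hst, h1, h2, -, h8⟩ := edge_comb hpq hlin ⟨hx.1, hxq.le⟩
      have h3 := hf.2 (x := p.1) (y := q.1) ⟨le_refl _, hpq.le.trans hqb⟩ ⟨hpq.le, hqb⟩ hs ht hst
      simp only [smul_eq_mul] at h3
      rw [← h1] at h3
      rw [h2]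
      have h4 := hv p hp (le_refl _) (hpq.trans_le hqb) hgp
      have h5 : q.2 ≤ f q.1 := by
        rcases hqb.eq_or_lt with h9 | h9
        · rw [← hgq, h9]
          exact hb
        · exact (hv q hq hpq.le h9 hgq).le
      have h6 := mul_lt_mul_of_pos_left h4 (h8 hxq)
      have h7 := mul_le_mul_of_nonneg_left h5 ht
      linarith
    · refine ih (hf.subset (Icc_subset_Icc_left hpq.le) (convex_Icc _ _)) hb ?_ x ⟨hxq, hx.2⟩
      intro z hz h1 h2 h3
      exact hv z hz (hpq.le.trans h1) h2 h3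

lemma PL.refl_neg (h : PL P g a b) : PL (refl '' P) (fun x => - g x) a b := by
  induction h with
  | single p hp hg =>
    exact PL.single (P := refl '' P) (g := fun x => - g x) (refl p) ⟨p, hp, rfl⟩ (by simp [hg])
  | cons p q b hp hq hpq hgp hgq hlin h ih =>
    refine PL.cons (P := refl '' P) (g := fun x => - g x) (refl p) (refl q) b ⟨p, hp, rfl⟩
      ⟨q, hq, rfl⟩ hpq (by simp [hgp]) (by simp [hgq]) ?_ ih
    intro x hx
    have := hlin x hx
    simp only [refl_apply]
    linarith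

lemma PL.exists_chain (h : PL P g a b) : ∃ (r : ℕ) (p : ℕ → ℝ × ℝ), (p 0).1 = a ∧ (p r).1 = b ∧
    (∀ i ≤ r, p i ∈ P ∧ g (p i).1 = (p i).2) ∧ (∀ i < r, (p i).1 < (p (i + 1)).1) ∧
    ∀ i < r, ∀ x ∈ Icc (p i).1 (p (i + 1)).1,
      g x * ((p (i + 1)).1 - (p i).1) = ((p (i + 1)).1 - x) * (p i).2 + (x - (p i).1) * (p (i + 1)).2 := by
  induction h with
  | single p hp hg =>
    refine ⟨0, fun _ => p, rfl, rfl, fun i _ => ⟨hp, hg⟩, fun i hi => absurd hi (Nat.not_lt_zero _),
      fun i hi => absurd hi (Nat.not_lt_zero _)⟩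
  | cons p q b hp hq hpq hgp hgq hlin h ih =>
    obtain ⟨r, c, h0, hr, h1, h2, h3⟩ := ih
    have hc0 : c 0 = q := eq_of_graph h0 (h1 0 (Nat.zero_le _)).2 hgq
    refine ⟨r + 1, fun i => Nat.casesOn i p c, rfl, hr, ?_, ?_, ?_⟩
    · intro i hi
      rcases i with _ | i
      · exact ⟨hp, hgp⟩
      · exact h1 i (by omega)
    · intro i hi
      rcases i with _ | i
      · show p.1 < (c 0).1
        rw [h0]
        exact hpq
      · exact h2 i (by omega)
    · intro i hi
      rcases i with _ | i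
      · show ∀ x ∈ Icc p.1 (c 0).1, g x * ((c 0).1 - p.1) = ((c 0).1 - x) * p.2 + (x - p.1) * (c 0).2
        rw [hc0]
        exact hlin
      · exact h3 i (by omega)

end Pool.Agent.TwoCvx
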