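import Pool.Agent.TwoCvx.Region

/-!
# 2-convexity of the regions

A line `{z | φ z = c}`, `φ z = α z.1 + β z.2`.
* `β = 0`: the section of the interior of the region is `{x₀} × (g x₀, h x₀)` or empty.
* `β ≠ 0`: the line is the graph of `x ↦ m x + t`, the section is the image under the continuous map `x ↦ (x, m x + t)` of
  `S = {x | a < x < b ∧ g x < m x + t ∧ m x + t < h x}`. If `S` has no pattern `x₁ < y₁ < x₂ < y₂ < x₃` with `xᵢ ∈ S`,
  `yᵢ ∉ S`, then `S` is the union of two order connected sets: if `S` is not order connected, there are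
  `x₁ < y < x₂` with `x₁, x₂ ∈ S`, `y ∉ S`, and `S ∩ (-∞, y)`, `S ∩ (y, ∞)` are order connected.
* No pattern. Put `φ x = m x + t - g x`. As `h` is concave, `{x | m x + t < h x}` is order connected, so a pattern gives
  `φ(x₁) > 0, φ(y₁) ≤ 0, φ(x₂) > 0, φ(y₂) ≤ 0, φ(x₃) > 0`. A peak (`≤ 0`, `> 0`, `≤ 0` at three increasing places) is
  impossible inside an interval where `φ` is convex (i.e. `g` concave), a valley (`> 0`, `≤ 0`, `> 0`) is impossible
  inside an interval where `φ` is affine.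
  - `two_region_peel` (`φ` affine on `[a, c]`, convex on `[c, d]`, affine on `[d, b]`): `x₂ > c` (valley `x₁ y₁ x₂`) and
    `x₂ < d` (valley `x₂ y₂ x₃`). If `y₁ < c` then `φ(c) ≤ 0` (affine, `φ(x₁) > 0 ≥ φ(y₁)`), so in any case there is a point
    of `[c, x₂)` with `φ ≤ 0`, in the same way there is one of `(x₂, d]`: a peak in `[c, d]`.
  - `two_region_join` (`φ` convex on `[a, c]`, affine on `[c, d]`, convex on `[d, b]`; `h` affine, `h = g` at `a` and `b`):
    since `m x₁ + t < h x₁` and both sides are affine, `m x + t < h x = g x` for `x = a` or for `x = b`, i.e.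
    `φ(a) < 0` or `φ(b) < 0`. By the symmetry `x ↦ -x` (or the same argument) let `φ(a) < 0`. The peak `a, x₁, y₁`
    gives `y₁ > c`. The peak `y₁, x₂, y₂` gives `y₁ < d`. If `x₁ < c` then `φ(c) > 0` (else peak `a, x₁, c`). So there is a
    point of `[c, y₁)` with `φ > 0`; as `φ` is affine on `[c, d]`, `φ ≤ 0` on `[y₁, d]`; so `x₂ > d` and `d, x₂, y₂` is a peak in
    `[d, b]`: contradiction.
-/

set_option autoImplicit false

namespace Pool.Agent.TwoCvx

open Set

variable {a b c d : ℝ} {g h : ℝ → ℝ}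

/-- a set without a pattern `in, out, in, out, in` is the union of two order connected sets -/
theorem Pattern_split (S : Set ℝ) (hS : ∀ x₁ y₁ x₂ y₂ x₃ : ℝ, x₁ ∈ S → y₁ ∉ S → x₂ ∈ S → y₂ ∉ S →
    x₃ ∈ S → x₁ < y₁ → y₁ < x₂ → x₂ < y₂ → y₂ < x₃ → False) :
    ∃ S₁ S₂ : Set ℝ, S₁.OrdConnected ∧ S₂.OrdConnected ∧ S = S₁ ∪ S₂ := by
  by_cases hO : S.OrdConnected
  · exact ⟨S, ∅, hO, ordConnected_empty, (union_empty S).symm⟩
  · rw [ordConnected_iff] at hO
    push Not at hO
    obtain ⟨x, hx, z, hz, hxz, hsub⟩ := hO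
    rw [not_subset] at hsub
    obtain ⟨y, hy, hyS⟩ := hsub
    have hxy : x < y := lt_of_le_of_ne hy.1 (fun h => hyS (h ▸ hx))
    have hyz : y < z := lt_of_le_of_ne hy.2 (fun h => hyS (h ▸ hz))
    refine ⟨S ∩ Iio y, S ∩ Ioi y, ⟨?_⟩, ⟨?_⟩, ?_⟩
    · rintro p ⟨hp, hp2⟩ q ⟨hq, hq2⟩ r ⟨hr1, hr2⟩
      refine ⟨?_, lt_of_le_of_lt hr2 hq2⟩
      by_contra hr
      have h1 : p < r := lt_of_le_of_ne hr1 (fun h => hr (h ▸ hp))
      have h2 : r < q := lt_of_le_of_ne hr2 (fun h => hr (h ▸ hq))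
      exact hS p r q y z hp hr hq hyS hz h1 h2 hq2 hyz
    · rintro p ⟨hp, hp2⟩ q ⟨hq, hq2⟩ r ⟨hr1, hr2⟩
      refine ⟨?_, lt_of_lt_of_le hp2 hr1⟩
      by_contra hr
      have h1 : p < r := lt_of_le_of_ne hr1 (fun h => hr (h ▸ hp))
      have h2 : r < q := lt_of_le_of_ne hr2 (fun h => hr (h ▸ hq))
      exact hS x y p r q hx hyS hp hr hq hxy hp2 h1 h2
    · ext r
      constructor
      · intro hr
        rcases lt_trichotomy r y with h | h | h
        · exact Or.inl ⟨hr, h⟩
        · exact absurd (h ▸ hr) hyS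
        · exact Or.inr ⟨hr, h⟩
      · rintro (h | h)
        · exact h.1
        · exact h.1

/-- below a concave function at two points, below it in between -/
theorem Pattern_conc {u v : ℝ} (hg : ConcaveOn ℝ (Icc u v) g) (m t : ℝ) {x y z : ℝ} (hx : u ≤ x)
    (hxy : x < y) (hyz : y < z) (hz : z ≤ v) (h1 : m * x + t ≤ g x) (h2 : m * z + t ≤ g z) :
    m * y + t ≤ g y := by
  have hxz : 0 < z - x := by linarith
  have ha : 0 ≤ (z - y) / (z - x) := div_nonneg (by linarith) hxz.le
  have hb : 0 ≤ (y - x) / (z - x) := div_nonneg (by linarith) hxz.le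
  have hab : (z - y) / (z - x) + (y - x) / (z - x) = 1 := by
    field_simp
    ring
  have key := hg.2 (x := x) (y := z) ⟨hx, by linarith⟩ ⟨by linarith, hz⟩ ha hb hab
  have e1 : ((z - y) / (z - x)) • x + ((y - x) / (z - x)) • z = y := by
    simp only [smul_eq_mul]
    field_simp
    ring
  rw [e1] at key
  simp only [smul_eq_mul] at key
  have k1 := mul_le_mul_of_nonneg_left h1 ha
  have k2 := mul_le_mul_of_nonneg_left h2 hb
  have e2 : (z - y) / (z - x) * (m * x + t) + (y - x) / (z - x) * (m * z + t) = m * y + t := by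
    field_simp
    ring
  linarith

/-- the same with strict inequalities -/
theorem Pattern_conc_lt {u v : ℝ} (hg : ConcaveOn ℝ (Icc u v) g) (m t : ℝ) {x y z : ℝ} (hx : u ≤ x)
    (hxy : x < y) (hyz : y < z) (hz : z ≤ v) (h1 : m * x + t < g x) (h2 : m * z + t < g z) :
    m * y + t < g y := by
  have h3 := Pattern_conc hg m (t + min (g x - (m * x + t)) (g z - (m * z + t))) hx hxy hyz hz
    (by have := min_le_left (g x - (m * x + t)) (g z - (m * z + t)); linarith)
    (by have := min_le_right (g x - (m * x + t)) (g z - (m * z + t)); linarith)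
  have h4 : 0 < min (g x - (m * x + t)) (g z - (m * z + t)) :=
    lt_min (by linarith) (by linarith)
  linarith

/-- above an affine function at two points, above it in between -/
theorem Pattern_aff {u v : ℝ} (hg : AffOn g u v) (m t : ℝ) {x y z : ℝ} (hx : u ≤ x)
    (hxy : x < y) (hyz : y < z) (hz : z ≤ v) (h1 : g x < m * x + t) (h2 : g z < m * z + t) :
    g y < m * y + t := by
  obtain ⟨m', k, h⟩ := hg
  have hconc : ConcaveOn ℝ (Icc u v) (fun x => m * x + t - g x + 0) := by
    refine ⟨convex_Icc u v, ?_⟩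
    intro p hp q hq α β hα hβ hαβ
    have hpq : α • p + β • q ∈ Icc u v := convex_Icc u v hp hq hα hβ hαβ
    simp only
    rw [h p hp, h q hq, h _ hpq]
    simp only [smul_eq_mul]
    have : β = 1 - α := by linarith
    rw [this]
    apply le_of_eq
    ring
  have := Pattern_conc_lt hconc 0 0 hx hxy hyz hz (by linarith) (by linarith)
  linarith

/-- reduction of `Two` for a region to the absence of patterns -/
theorem Pattern_two (hg : ContinuousOn g (Icc a b)) (hh : ContinuousOn h (Icc a b))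
    (hc : ConcaveOn ℝ (Icc a b) h)
    (key : ∀ m t x₁ y₁ x₂ y₂ x₃ : ℝ, a < x₁ → x₁ < y₁ → y₁ < x₂ → x₂ < y₂ → y₂ < x₃ → x₃ < b →
      m * x₁ + t < h x₁ → g x₁ < m * x₁ + t → m * y₁ + t ≤ g y₁ → g x₂ < m * x₂ + t →
      m * y₂ + t ≤ g y₂ → g x₃ < m * x₃ + t → False) : Two (region a b g h) := by
  intro φ c hφ
  rw [interior_region hg hh]
  have hlin : ∀ z : ℝ × ℝ, φ z = φ (1, 0) * z.1 + φ (0, 1) * z.2 := by
    intro z
    have : z = z.1 • ((1, 0) : ℝ × ℝ) + z.2 • ((0, 1) : ℝ × ℝ) := by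
      ext <;> simp
    conv_lhs => rw [this]
    rw [map_add, map_smul, map_smul, smul_eq_mul, smul_eq_mul]
    ring
  by_cases hβ : φ (0, 1) = 0
  · have hα : φ (1, 0) ≠ 0 := by
      intro hα
      apply hφ
      ext1
      · ext
        simp [hα]
      · ext
        simp [hβ]
    by_cases hx0 : a < c / φ (1, 0) ∧ c / φ (1, 0) < b
    · refine ⟨{c / φ (1, 0)} ×ˢ Ioo (g (c / φ (1, 0))) (h (c / φ (1, 0))), ∅,
        isPreconnected_singleton.prod isPreconnected_Ioo, isPreconnected_empty, ?_⟩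
      rw [union_empty]
      ext z
      simp only [mem_inter_iff, mem_setOf_eq, mem_prod, mem_singleton_iff, mem_Ioo]
      rw [hlin z, hβ, zero_mul, add_zero]
      constructor
      · rintro ⟨h1, h2, h3, h4, h5⟩
        have : z.1 = c / φ (1, 0) := by
          rw [eq_div_iff hα, mul_comm]
          exact h1
        rw [← this]
        exact ⟨rfl, h4, h5⟩
      · rintro ⟨h1, h2, h3⟩
        rw [← h1] at h2 h3 hx0
        refine ⟨?_, hx0.1, hx0.2, h2, h3⟩
        rw [h1]
        field_simp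
    · refine ⟨∅, ∅, isPreconnected_empty, isPreconnected_empty, ?_⟩
      rw [union_empty]
      ext z
      simp only [mem_inter_iff, mem_setOf_eq, mem_empty_iff_false, iff_false, not_and]
      rw [hlin z, hβ, zero_mul, add_zero]
      intro h1 h2 h3
      exfalso
      apply hx0
      have : z.1 = c / φ (1, 0) := by
        rw [eq_div_iff hα, mul_comm]
        exact h1
      rw [← this]
      exact ⟨h2, h3⟩
  · -- non vertical lines
    set m : ℝ := -(φ (1, 0) / φ (0, 1)) with hm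
    set t : ℝ := c / φ (0, 1) with ht
    have hline : ∀ z : ℝ × ℝ, φ z = c ↔ z.2 = m * z.1 + t := by
      intro z
      rw [hlin z, hm, ht]
      constructor
      · intro h1
        field_simp
        linarith
      · intro h1
        rw [h1]
        field_simp
        ring
    set S : Set ℝ := {x | a < x ∧ x < b ∧ g x < m * x + t ∧ m * x + t < h x} with hS
    obtain ⟨S₁, S₂, h1, h2, h12⟩ := Pattern_split S (by
      rintro x₁ y₁ x₂ y₂ x₃ ⟨a1, a2, a3, a4⟩ b1 ⟨c1, c2, c3, c4⟩ d1 ⟨e1, e2, e3, e4⟩ l1 l2 l3 l4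
      have hy1 : m * y₁ + t < h y₁ := Pattern_conc_lt hc m t a1.le l1 l2 c2.le a4 c4
      have hy2 : m * y₂ + t < h y₂ := Pattern_conc_lt hc m t c1.le l3 l4 e2.le c4 e4
      refine key m t x₁ y₁ x₂ y₂ x₃ a1 l1 l2 l3 l4 e2 a4 a3 ?_ c3 ?_ e3
      · by_contra hcon
        push Not at hcon
        exact b1 ⟨by linarith, by linarith, hcon, hy1⟩
      · by_contra hcon
        push Not at hcon
        exact d1 ⟨by linarith, by linarith, hcon, hy2⟩)
    have hcont : Continuous (fun x : ℝ => ((x, m * x + t) : ℝ × ℝ)) := by fun_prop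
    refine ⟨(fun x : ℝ => ((x, m * x + t) : ℝ × ℝ)) '' S₁,
      (fun x : ℝ => ((x, m * x + t) : ℝ × ℝ)) '' S₂,
      h1.isPreconnected.image _ hcont.continuousOn, h2.isPreconnected.image _ hcont.continuousOn, ?_⟩
    rw [← image_union, ← h12]
    ext z
    simp only [mem_inter_iff, mem_setOf_eq, mem_image, hS, hline z]
    constructor
    · rintro ⟨h1, h2, h3, h4, h5⟩
      refine ⟨z.1, ⟨h2, h3, ?_, ?_⟩, ?_⟩
      · rw [← h1]; exact h4
      · rw [← h1]; exact h5
      · rw [← h1]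
    · rintro ⟨x, ⟨h1, h2, h3, h4⟩, rfl⟩
      exact ⟨rfl, h1, h2, h3, h4⟩

theorem two_region_peel (hac : a ≤ c) (hcd : c ≤ d) (hdb : d ≤ b)
    (hg : ContinuousOn g (Icc a b)) (hh : ContinuousOn h (Icc a b))
    (g1 : AffOn g a c) (g2 : ConcaveOn ℝ (Icc c d) g) (g3 : AffOn g d b) (hc : ConcaveOn ℝ (Icc a b) h) :
    Two (region a b g h) := by
  refine Pattern_two hg hh hc ?_
  intro m t x₁ y₁ x₂ y₂ x₃ hax l1 l2 l3 l4 hxb _ p1 q1 p2 q2 p3
  have hx2c : c < x₂ := by
    by_contra hcon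
    push Not at hcon
    exact absurd (Pattern_aff g1 m t hax.le l1 l2 hcon p1 p2) (not_lt.2 q1)
  have hx2d : x₂ < d := by
    by_contra hcon
    push Not at hcon
    exact absurd (Pattern_aff g3 m t hcon l3 l4 hxb.le p2 p3) (not_lt.2 q2)
  obtain ⟨p, hp1, hp2, hp3⟩ : ∃ p, c ≤ p ∧ p < x₂ ∧ m * p + t ≤ g p := by
    rcases le_or_gt c y₁ with h1 | h1
    · exact ⟨y₁, h1, l2, q1⟩
    · refine ⟨c, le_rfl, hx2c, ?_⟩
      by_contra hcon
      push Not at hcon
      exact absurd (Pattern_aff g1 m t hax.le l1 h1 le_rfl p1 hcon) (not_lt.2 q1)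
  obtain ⟨q, hq1, hq2, hq3⟩ : ∃ q, x₂ < q ∧ q ≤ d ∧ m * q + t ≤ g q := by
    rcases le_or_gt y₂ d with h1 | h1
    · exact ⟨y₂, l3, h1, q2⟩
    · refine ⟨d, hx2d, le_rfl, ?_⟩
      by_contra hcon
      push Not at hcon
      exact absurd (Pattern_aff g3 m t le_rfl h1 l4 hxb.le hcon p3) (not_lt.2 q2)
  exact absurd (Pattern_conc g2 m t hp1 hp2 hq1 hq2 hp3 hq3) (not_le.2 p2)

theorem two_region_join (hac : a ≤ c) (hcd : c ≤ d) (hdb : d ≤ b)
    (hg : ContinuousOn g (Icc a b)) (hh : ContinuousOn h (Icc a b))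
    (g1 : ConcaveOn ℝ (Icc a c) g) (g2 : AffOn g c d) (g3 : ConcaveOn ℝ (Icc d b) g) (hc : AffOn h a b)
    (ha : g a = h a) (hb : g b = h b) : Two (region a b g h) := by
  refine Pattern_two hg hh hc.concaveOn ?_
  intro m t x₁ y₁ x₂ y₂ x₃ hax l1 l2 l3 l4 hxb r1 p1 q1 p2 q2 p3
  have hends : m * a + t < g a ∨ m * b + t < g b := by
    by_contra hcon
    push Not at hcon
    obtain ⟨k1, k2⟩ := hcon
    rw [ha] at k1
    rw [hb] at k2
    obtain ⟨m', k, hk⟩ := hc
    have hab : a ≤ b := by linarith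
    rw [hk a ⟨le_rfl, hab⟩] at k1
    rw [hk b ⟨hab, le_rfl⟩] at k2
    rw [hk x₁ ⟨hax.le, by linarith⟩] at r1
    have e1 : 0 ≤ (b - x₁) * ((m - m') * a + (t - k)) :=
      mul_nonneg (by linarith) (by linarith)
    have e2 : 0 ≤ (x₁ - a) * ((m - m') * b + (t - k)) :=
      mul_nonneg (by linarith) (by linarith)
    have e3 : (b - x₁) * ((m - m') * a + (t - k)) + (x₁ - a) * ((m - m') * b + (t - k)) =
        (b - a) * ((m - m') * x₁ + (t - k)) := by ring
    have e4 : (b - a) * ((m - m') * x₁ + (t - k)) < 0 :=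
      mul_neg_of_pos_of_neg (by linarith) (by linarith)
    linarith
  rcases hends with hA | hB
  · -- left end
    have hy1c : c < y₁ := by
      by_contra hcon
      push Not at hcon
      exact absurd (Pattern_conc g1 m t le_rfl hax l1 hcon hA.le q1) (not_le.2 p1)
    have hy1d : y₁ < d := by
      by_contra hcon
      push Not at hcon
      exact absurd (Pattern_conc g3 m t hcon l2 l3 (by linarith) q1 q2) (not_le.2 p2)
    obtain ⟨p, hp1, hp2, hp3⟩ : ∃ p, c ≤ p ∧ p < y₁ ∧ g p < m * p + t := by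
      rcases le_or_gt c x₁ with h1 | h1
      · exact ⟨x₁, h1, l1, p1⟩
      · refine ⟨c, le_rfl, hy1c, ?_⟩
        by_contra hcon
        push Not at hcon
        exact absurd (Pattern_conc g1 m t le_rfl hax h1 le_rfl hA.le hcon) (not_le.2 p1)
    have hneg : ∀ q, y₁ < q → q ≤ d → m * q + t ≤ g q := by
      intro q hq1 hq2
      by_contra hcon
      push Not at hcon
      exact absurd (Pattern_aff g2 m t hp1 hp2 hq1 hq2 hp3 hcon) (not_lt.2 q1)
    have hx2 : d < x₂ := by
      by_contra hcon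
      push Not at hcon
      exact absurd (hneg x₂ l2 hcon) (not_le.2 p2)
    exact absurd (Pattern_conc g3 m t le_rfl hx2 l3 (by linarith) (hneg d hy1d le_rfl) q2)
      (not_le.2 p2)
  · -- right end
    have hy2d : y₂ < d := by
      by_contra hcon
      push Not at hcon
      exact absurd (Pattern_conc g3 m t hcon l4 hxb le_rfl q2 hB.le) (not_le.2 p3)
    have hy2c : c < y₂ := by
      by_contra hcon
      push Not at hcon
      exact absurd (Pattern_conc g1 m t (by linarith) l2 l3 hcon q1 q2) (not_le.2 p2)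
    obtain ⟨p, hp1, hp2, hp3⟩ : ∃ p, y₂ < p ∧ p ≤ d ∧ g p < m * p + t := by
      rcases le_or_gt x₃ d with h1 | h1
      · exact ⟨x₃, l4, h1, p3⟩
      · refine ⟨d, hy2d, le_rfl, ?_⟩
        by_contra hcon
        push Not at hcon
        exact absurd (Pattern_conc g3 m t le_rfl h1 hxb le_rfl hcon hB.le) (not_le.2 p3)
    have hneg : ∀ q, c ≤ q → q < y₂ → m * q + t ≤ g q := by
      intro q hq1 hq2
      by_contra hcon
      push Not at hcon
      exact absurd (Pattern_aff g2 m t hq1 hq2 hp1 hp2 hcon hp3) (not_lt.2 q2)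
    have hx2 : x₂ < c := by
      by_contra hcon
      push Not at hcon
      exact absurd (hneg x₂ hcon l3) (not_le.2 p2)
    exact absurd (Pattern_conc g1 m t (by linarith) l2 hx2 le_rfl q1 (hneg c le_rfl hy2c))
      (not_le.2 p2)

theorem two_of_convex {Q : Set (ℝ × ℝ)} (hQ : Convex ℝ Q) : Two Q := by
  intro φ c _
  refine ⟨{z | φ z = c} ∩ interior Q, ∅, ?_, isPreconnected_empty, (union_empty _).symm⟩
  exact ((convex_hyperplane φ.isLinear c).inter hQ.interior).isPreconnected

end Pool.Agent.TwoCvx
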