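import Pool.Agent.TwoCvx.PeelUp

/-!
# Peeling: `Dec (inner Q) m → Dec Q (m + 2)` for point sets with distinct abscissae

* If `convexHull ℝ Q` has empty interior, it is a null set (`Convex.addHaar_frontier`, the hull is closed as `Q` is
  finite) and the empty family works.
* Otherwise take `p₁, q₁, l, u` (`exists_ext`, `exists_lower`, `exists_upper`); there is a point with `l < u` inside the
  open interval, so `l < u` on the whole open interval (concavity of `u - l ≥ 0`), and `l = u` at the ends.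
* If `inner Q = ∅`, the one piece `region p₁.1 q₁.1 l u = convexHull ℝ Q` works (`isPolygon_region`, `two_of_convex`).
* If `inner Q ≠ ∅`: take the family `F'` of `inner Q` and the two pieces `U = region p₁.1 q₁.1 G₊ u` (`peel_up`),
  `L = region p₁.1 q₁.1 l G₋` (`peel_low`), `G₊ = bridge p₁ p₂ q₂ q₁ u'`, `G₋ = bridge p₁ p₂ q₂ q₁ l'`.
  - members of `F'` are pieces for `Q`: the points of `Q` outside `inner Q` are not in the interior of the hull of `Q`;
  - `interior U` is disjoint from `convexHull (inner Q) = region p₂.1 q₂.1 l' u'` as `G₊ = u'` there, the same for `L`;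
    `interior U` and `interior L` are disjoint as `G₋ ≤ G₊` (`bridge_eq_*`);
  - covering: a point `z` of `convexHull ℝ Q = region p₁.1 q₁.1 l u` with `z.2 ≥ G₊ z.1` is in `U`, with `z.2 ≤ G₋ z.1` in `L`,
    and with `G₋ z.1 < z.2 < G₊ z.1` it must have `p₂.1 ≤ z.1 ≤ q₂.1` (elsewhere `G₋ = G₊`), so it is in the hull of
    `inner Q`, which is covered by `F'` up to a null set.
-/

set_option autoImplicit false

namespace Pool.Agent.TwoCvx

open Set MeasureTheory

theorem dec_of_interior_empty {Q : Set (ℝ × ℝ)} (hf : Q.Finite) (h : interior (convexHull ℝ Q) = ∅) (m : ℕ) :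
    Dec Q m := by
  refine ⟨∅, by simp, by simp, by simp, ?_⟩
  have hcl : IsClosed (convexHull ℝ Q) := hf.isClosed_convexHull ℝ
  have hfr : frontier (convexHull ℝ Q) = convexHull ℝ Q := by
    rw [hcl.frontier_eq, h, sdiff_empty]
  have h0 : volume (frontier (convexHull ℝ Q)) = 0 := (convex_convexHull ℝ Q).addHaar_frontier volume
  rw [hfr] at h0
  simpa using h0

/-- the vertical inequalities are strict in the interior of a region -/
theorem peel_interior_lt {a b : ℝ} {g h : ℝ → ℝ} {z : ℝ × ℝ} (hz : z ∈ interior (region a b g h)) :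
    a ≤ z.1 ∧ z.1 ≤ b ∧ g z.1 < z.2 ∧ z.2 < h z.1 := by
  have hz' : z ∈ region a b g h := interior_subset hz
  obtain ⟨ε, hε, hball⟩ := Metric.isOpen_iff.1 isOpen_interior z hz
  have hd : ∀ t : ℝ, |t| < ε → (z.1, z.2 + t) ∈ region a b g h := by
    intro t ht
    refine interior_subset (hball ?_)
    rw [Metric.mem_ball, Prod.dist_eq, max_lt_iff]
    constructor
    · simpa using hε
    · simpa [Real.dist_eq] using ht
  have h1 := hd (ε / 2) (by rw [abs_of_pos (half_pos hε)]; exact half_lt_self hε)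
  have h2 := hd (-(ε / 2)) (by rw [abs_neg, abs_of_pos (half_pos hε)]; exact half_lt_self hε)
  refine ⟨hz'.1, hz'.2.1, ?_, ?_⟩
  · have := h2.2.2.1
    simp only at this
    linarith
  · have := h1.2.2.2
    simp only at this
    linarith

/-- a nonnegative concave function which is positive at one interior point is positive at all interior points -/
theorem peel_concave_pos {w : ℝ → ℝ} {a b c : ℝ} (hw : ConcaveOn ℝ (Icc a b) w) (ha : 0 ≤ w a) (hb : 0 ≤ w b)
    (hac : a < c) (hcb : c < b) (hc : 0 < w c) : ∀ x ∈ Ioo a b, 0 < w x := by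
  intro x hx
  rcases le_total x c with hxc | hcx
  · -- x in the segment from a to c
    have hpos : 0 < c - a := sub_pos.2 hac
    have h1 : 0 ≤ (c - x) / (c - a) := div_nonneg (by linarith) hpos.le
    have h2 : 0 < (x - a) / (c - a) := div_pos (by linarith [hx.1]) hpos
    have h3 : (c - x) / (c - a) + (x - a) / (c - a) = 1 := by field_simp; ring
    have h4 := hw.2 (left_mem_Icc.2 (hac.trans hcb).le) (⟨hac.le, hcb.le⟩ : c ∈ Icc a b) h1 h2.le h3
    have h5 : ((c - x) / (c - a)) • a + ((x - a) / (c - a)) • c = x := by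
      simp only [smul_eq_mul]; field_simp; ring
    rw [h5] at h4
    simp only [smul_eq_mul] at h4
    have h6 : 0 ≤ (c - x) / (c - a) * w a := mul_nonneg h1 ha
    have h7 : 0 < (x - a) / (c - a) * w c := mul_pos h2 hc
    linarith
  · have hpos : 0 < b - c := sub_pos.2 hcb
    have h1 : 0 < (b - x) / (b - c) := div_pos (by linarith [hx.2]) hpos
    have h2 : 0 ≤ (x - c) / (b - c) := div_nonneg (by linarith) hpos.le
    have h3 : (b - x) / (b - c) + (x - c) / (b - c) = 1 := by field_simp; ring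
    have h4 := hw.2 (⟨hac.le, hcb.le⟩ : c ∈ Icc a b) (right_mem_Icc.2 (hac.trans hcb).le) h1.le h2 h3
    have h5 : ((b - x) / (b - c)) • c + ((x - c) / (b - c)) • b = x := by
      simp only [smul_eq_mul]; field_simp; ring
    rw [h5] at h4
    simp only [smul_eq_mul] at h4
    have h6 : 0 < (b - x) / (b - c) * w c := mul_pos h1 hc
    have h7 : 0 ≤ (x - c) / (b - c) * w b := mul_nonneg h2 hb
    linarith

theorem peel_inj {Q : Set (ℝ × ℝ)} (hf : Q.Finite) (hinj : InjOn Prod.fst Q) {m : ℕ} (h : Dec (inner Q) m) :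
    Dec Q (m + 2) := by
  classical
  rcases (interior (convexHull ℝ Q)).eq_empty_or_nonempty with hempty | hne
  · exact dec_of_interior_empty hf hempty _
  have hQne : Q.Nonempty := by
    rw [← convexHull_nonempty_iff (𝕜 := ℝ)]
    exact hne.mono interior_subset
  obtain ⟨p₁, q₁, hE⟩ := exists_ext hf hQne
  obtain ⟨l, hl⟩ := exists_lower hf hinj hE
  obtain ⟨u, hu⟩ := exists_upper hf hinj hE
  have hhull : convexHull ℝ Q = region p₁.1 q₁.1 l u := convexHull_eq hE hl hu
  have hint : interior (convexHull ℝ Q) = {z | p₁.1 < z.1 ∧ z.1 < q₁.1 ∧ l z.1 < z.2 ∧ z.2 < u z.1} := by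
    rw [hhull]
    exact interior_region hl.pl.continuousOn hu.pl.continuousOn
  obtain ⟨z₀, hz₀⟩ := hne
  rw [hint] at hz₀
  obtain ⟨hz1, hz2, hz3, hz4⟩ := hz₀
  have hab : p₁.1 < q₁.1 := hz1.trans hz2
  have hlp : l p₁.1 = p₁.2 := hl.left hinj hE
  have hlq : l q₁.1 = q₁.2 := hl.right hinj hE
  have hup : u p₁.1 = p₁.2 := hu.left hinj hE
  have huq : u q₁.1 = q₁.2 := hu.right hinj hE
  have hlt : ∀ x ∈ Ioo p₁.1 q₁.1, l x < u x := by
    intro x hx
    have hw : ConcaveOn ℝ (Icc p₁.1 q₁.1) (fun x => u x - l x) := hu.cc.sub hl.cv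
    exact sub_pos.1 (peel_concave_pos hw (by simp [hlp, hup]) (by simp [hlq, huq]) hz1 hz2
      (sub_pos.2 (hz3.trans hz4)) x hx)
  have hconvU : Convex ℝ (region p₁.1 q₁.1 l u) := hhull ▸ convex_convexHull ℝ Q
  rcases (inner Q).eq_empty_or_nonempty with hin | hin
  · -- no inner points: one piece
    refine ⟨{region p₁.1 q₁.1 l u}, by simp, ?_, ?_, ?_⟩
    · intro R hR
      rw [Finset.mem_singleton] at hR
      subst hR
      refine ⟨isPolygon_region hl.pl hu.pl hab hlt (hlp.trans hup.symm) (hlq.trans huq.symm),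
        two_of_convex hconvU, hhull.symm.subset, ?_⟩
      intro p hp hpi
      rw [← hhull] at hpi
      have : p ∈ inner Q := ⟨hp, hpi⟩
      rw [hin] at this
      exact this
    · intro R hR R' hR' hne'
      rw [Finset.mem_singleton] at hR hR'
      exact absurd (hR.trans hR'.symm) hne'
    · simp [hhull]
  -- inner points
  have hfin : (inner Q).Finite := hf.subset inter_subset_left
  have hinj' : InjOn Prod.fst (inner Q) := hinj.mono inter_subset_left
  obtain ⟨p₂, q₂, hE'⟩ := exists_ext hfin hin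
  obtain ⟨l', hl'⟩ := exists_lower hfin hinj' hE'
  obtain ⟨u', hu'⟩ := exists_upper hfin hinj' hE'
  have hhull' : convexHull ℝ (inner Q) = region p₂.1 q₂.1 l' u' := convexHull_eq hE' hl' hu'
  have hlp' : l' p₂.1 = p₂.2 := hl'.left hinj' hE'
  have hlq' : l' q₂.1 = q₂.2 := hl'.right hinj' hE'
  have hup' : u' p₂.1 = p₂.2 := hu'.left hinj' hE'
  have huq' : u' q₂.1 = q₂.2 := hu'.right hinj' hE'
  have h12 : p₁.1 < p₂.1 := (inner_spec hE hl hu hE'.hp).1
  have h21 : q₂.1 < q₁.1 := (inner_spec hE hl hu hE'.hq).2.1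
  have h2 : p₂.1 ≤ q₂.1 := hE'.hmin _ hE'.hq
  have hl'u' : ∀ x ∈ Icc p₂.1 q₂.1, l' x ≤ u' x :=
    hl'.pl.le_of_concave hu'.cc fun z hz _ _ _ => hu'.le z hz
  obtain ⟨F', hcard, hpiece, hdisj, hvol⟩ := h
  set Gp : ℝ → ℝ := bridge p₁ p₂ q₂ q₁ u' with hGp
  set Gm : ℝ → ℝ := bridge p₁ p₂ q₂ q₁ l' with hGm
  have hU : Piece Q (region p₁.1 q₁.1 Gp u) := peel_up hinj hE hl hu hE' hu'
  have hL : Piece Q (region p₁.1 q₁.1 l Gm) := peel_low hinj hE hl hu hE' hl'
  set U := region p₁.1 q₁.1 Gp u with hUdef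
  set L := region p₁.1 q₁.1 l Gm with hLdef
  have hsub : convexHull ℝ (inner Q) ⊆ convexHull ℝ Q := convexHull_mono inter_subset_left
  have hGmid : ∀ x ∈ Icc p₂.1 q₂.1, Gp x = u' x ∧ Gm x = l' x := fun x hx =>
    ⟨bridge_eq_mid h12 hup' hx, bridge_eq_mid h12 hlp' hx⟩
  have hGleft : ∀ x, x ≤ p₂.1 → Gp x = Gm x := fun x hx =>
    (bridge_eq_left hx).trans (bridge_eq_left hx).symm
  have hGright : ∀ x, q₂.1 ≤ x → Gp x = Gm x := fun x hx =>
    (bridge_eq_right h12 h2 hup' huq' hx).trans (bridge_eq_right h12 h2 hlp' hlq' hx).symm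
  have hGle : ∀ x, Gm x ≤ Gp x := by
    intro x
    rcases le_total x p₂.1 with hx | hx
    · exact (hGleft x hx).symm.le
    · rcases le_total x q₂.1 with hx' | hx'
      · rw [(hGmid x ⟨hx, hx'⟩).1, (hGmid x ⟨hx, hx'⟩).2]
        exact hl'u' x ⟨hx, hx'⟩
      · exact (hGright x hx').symm.le
  have hUL : Disjoint (interior U) (interior L) := by
    rw [Set.disjoint_left]
    intro z hzU hzL
    have h3 := (peel_interior_lt hzU).2.2.1
    have h4 := (peel_interior_lt hzL).2.2.2
    have h5 := hGle z.1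
    linarith
  have hUF : ∀ R ∈ F', Disjoint (interior U) (interior R) := by
    intro R hR
    rw [Set.disjoint_left]
    intro z hzU hzR
    have h3 := (peel_interior_lt hzU).2.2.1
    have hz : z ∈ region p₂.1 q₂.1 l' u' := hhull' ▸ (hpiece R hR).sub (interior_subset hzR)
    rw [(hGmid z.1 ⟨hz.1, hz.2.1⟩).1] at h3
    exact absurd hz.2.2.2 (not_le.2 h3)
  have hLF : ∀ R ∈ F', Disjoint (interior L) (interior R) := by
    intro R hR
    rw [Set.disjoint_left]
    intro z hzL hzR
    have h3 := (peel_interior_lt hzL).2.2.2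
    have hz : z ∈ region p₂.1 q₂.1 l' u' := hhull' ▸ (hpiece R hR).sub (interior_subset hzR)
    rw [(hGmid z.1 ⟨hz.1, hz.2.1⟩).2] at h3
    exact absurd hz.2.2.1 (not_le.2 h3)
  refine ⟨insert U (insert L F'), ?_, ?_, ?_, ?_⟩
  · have h3 := Finset.card_insert_le U (insert L F')
    have h4 := Finset.card_insert_le L F'
    omega
  · intro R hR
    rw [Finset.mem_insert, Finset.mem_insert] at hR
    rcases hR with rfl | rfl | hR
    · exact hU
    · exact hL
    · have hP := hpiece R hR
      refine ⟨?_, hP.two, hP.sub.trans hsub, ?_⟩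
      · obtain ⟨k, v, hv, hvin⟩ := hP.polygon
        exact ⟨k, v, hv, fun i hi => (hvin i hi).1⟩
      · intro p hp hpi
        have hpin : p ∈ inner Q := ⟨hp, interior_mono (hP.sub.trans hsub) hpi⟩
        exact hP.empty p hpin hpi
  · intro R hR R' hR' hne'
    rw [Finset.mem_insert, Finset.mem_insert] at hR hR'
    rcases hR with hR | hR | hR <;> rcases hR' with hR' | hR' | hR'
    · exact absurd (hR.trans hR'.symm) hne'
    · rw [hR, hR']; exact hUL
    · rw [hR]; exact hUF R' hR'
    · rw [hR, hR']; exact hUL.symm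
    · exact absurd (hR.trans hR'.symm) hne'
    · rw [hR]; exact hLF R' hR'
    · rw [hR']; exact (hUF R hR).symm
    · rw [hR']; exact (hLF R hR).symm
    · exact hdisj R hR R' hR' hne'
  · refine measure_mono_null ?_ hvol
    rintro z ⟨hz, hzn⟩
    have hzU : z ∉ U := fun hc => hzn (mem_iUnion₂.2 ⟨U, Finset.mem_insert_self _ _, hc⟩)
    have hzL : z ∉ L := fun hc => hzn (mem_iUnion₂.2
      ⟨L, Finset.mem_insert_of_mem (Finset.mem_insert_self _ _), hc⟩)
    have hzF : z ∉ ⋃ R ∈ F', R := by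
      intro hc
      obtain ⟨R, hR, hzR⟩ := mem_iUnion₂.1 hc
      exact hzn (mem_iUnion₂.2 ⟨R, Finset.mem_insert_of_mem (Finset.mem_insert_of_mem hR), hzR⟩)
    rw [hhull] at hz
    have h3 : z.2 < Gp z.1 := by
      by_contra hcon
      exact hzU ⟨hz.1, hz.2.1, not_lt.1 hcon, hz.2.2.2⟩
    have h4 : Gm z.1 < z.2 := by
      by_contra hcon
      exact hzL ⟨hz.1, hz.2.1, hz.2.2.1, not_lt.1 hcon⟩
    have h5 : p₂.1 ≤ z.1 := by
      by_contra hcon
      have := hGleft z.1 (not_le.1 hcon).le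
      linarith
    have h6 : z.1 ≤ q₂.1 := by
      by_contra hcon
      have := hGright z.1 (not_le.1 hcon).le
      linarith
    have h7 := hGmid z.1 ⟨h5, h6⟩
    refine ⟨?_, hzF⟩
    rw [hhull']
    refine ⟨h5, h6, ?_, ?_⟩
    · rw [← h7.2]; exact h4.le
    · rw [← h7.1]; exact h3.le

end Pool.Agent.TwoCvx
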