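import Pool.Agent.TwoCvx.Region

/-!
# The region between two polygonal chains is a polygon

Let `p 0, …, p r` be the chain of `g` and `q 0, …, q s` the chain of `h` (`PL.exists_chain`); `p 0 = q 0`, `p r = q s`.
Put `k = r + s` and `v i = p i` for `i ≤ r`, `v i = q (r + s - i)` for `i > r`. Since `a < b`, `r, s ≥ 1`, and
`r = s = 1` is impossible because then `g = h` on `[a, b]`. For `i < j < r` the edges `i, j` lie over the
intervals `[p i, p (i+1)]` and `[p j, p (j+1)]` (abscissae), which meet only if `j = i + 1`, in the abscissa of `p j`; the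
same for `r ≤ i < j`; for `i < r ≤ j` a common point is on both graphs, so it is over `a` or `b`: over `b` only if
`i + 1 = r = j`, over `a` only if `i = 0` and `j + 1 = k`. The frontier is the union of the two graphs by
`frontier_region`, and every graph is the union of the edges. The interior is nonempty, take `x = (a + b) / 2`.
-/

set_option linter.all false

set_option autoImplicit false

namespace Pool.Agent.TwoCvx

open Set

theorem Poly_mono {r : ℕ} {p : ℕ → ℝ × ℝ} (hinc : ∀ i < r, (p i).1 < (p (i + 1)).1) :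
    ∀ i j, i < j → j ≤ r → (p i).1 < (p j).1 := by
  intro i j hij hj
  induction j with
  | zero => omega
  | succ n ih =>
    rcases Nat.lt_succ_iff_lt_or_eq.1 hij with h | h
    · exact (ih h (by omega)).trans (hinc n (by omega))
    · rw [h]
      exact hinc n (by omega)

theorem Poly_le {r : ℕ} {p : ℕ → ℝ × ℝ} (hinc : ∀ i < r, (p i).1 < (p (i + 1)).1) :
    ∀ i j, i ≤ j → j ≤ r → (p i).1 ≤ (p j).1 := by
  intro i j hij hj
  rcases eq_or_lt_of_le hij with h | h
  · rw [h]
  · exact (Poly_mono hinc i j h hj).le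

theorem Poly_lt_of {r : ℕ} {p : ℕ → ℝ × ℝ} (hinc : ∀ i < r, (p i).1 < (p (i + 1)).1) {i j : ℕ}
    (hi : i ≤ r) (h : (p i).1 ≤ (p j).1) (hj : j ≤ r) : i ≤ j := by
  by_contra hc
  push Not at hc
  have := Poly_mono hinc j i hc hi
  linarith

theorem Poly_cover {p : ℕ → ℝ × ℝ} {x : ℝ} (r : ℕ) (hr : 1 ≤ r) (h0 : (p 0).1 ≤ x)
    (h1 : x ≤ (p r).1) : ∃ i < r, x ∈ Icc (p i).1 (p (i + 1)).1 := by
  induction r with
  | zero => omega
  | succ n ih =>
    rcases Nat.eq_zero_or_pos n with hn | hn
    · subst hn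
      exact ⟨0, by omega, h0, h1⟩
    · rcases le_total x (p n).1 with h | h
      · obtain ⟨i, hi, hx⟩ := ih hn h
        exact ⟨i, by omega, hx⟩
      · exact ⟨n, by omega, h, h1⟩

theorem Poly_seg {g : ℝ → ℝ} {p q : ℝ × ℝ} (hpq : p.1 < q.1)
    (hlin : ∀ x ∈ Icc p.1 q.1, g x * (q.1 - p.1) = (q.1 - x) * p.2 + (x - p.1) * q.2)
    (z : ℝ × ℝ) : z ∈ segment ℝ p q ↔ z.1 ∈ Icc p.1 q.1 ∧ z.2 = g z.1 := by
  have hd : 0 < q.1 - p.1 := sub_pos.2 hpq
  constructor
  · rintro ⟨α, β, hα, hβ, hαβ, rfl⟩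
    have e1 : (α • p + β • q).1 = α * p.1 + β * q.1 := rfl
    have e2 : (α • p + β • q).2 = α * p.2 + β * q.2 := rfl
    rw [e1, e2]
    have hα2 : α = 1 - β := by linarith
    have hmem : α * p.1 + β * q.1 ∈ Icc p.1 q.1 := by
      constructor
      · rw [hα2]; nlinarith
      · have hβ2 : β = 1 - α := by linarith
        rw [hβ2]; nlinarith
    refine ⟨hmem, ?_⟩
    have h1 := hlin _ hmem
    have h2 : (α * p.2 + β * q.2) * (q.1 - p.1) = g (α * p.1 + β * q.1) * (q.1 - p.1) := by
      rw [h1, hα2]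
      ring
    exact mul_right_cancel₀ hd.ne' h2
  · rintro ⟨hz, hz2⟩
    refine ⟨(q.1 - z.1) / (q.1 - p.1), (z.1 - p.1) / (q.1 - p.1),
      div_nonneg (sub_nonneg.2 hz.2) hd.le, div_nonneg (sub_nonneg.2 hz.1) hd.le, ?_, ?_⟩
    · field_simp
      ring
    · have h1 := hlin z.1 hz
      apply Prod.ext
      · show (q.1 - z.1) / (q.1 - p.1) * p.1 + (z.1 - p.1) / (q.1 - p.1) * q.1 = z.1
        field_simp
        ring
      · show (q.1 - z.1) / (q.1 - p.1) * p.2 + (z.1 - p.1) / (q.1 - p.1) * q.2 = z.2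
        rw [hz2]
        have h2 : (q.1 - z.1) / (q.1 - p.1) * p.2 + (z.1 - p.1) / (q.1 - p.1) * q.2
            = ((q.1 - z.1) * p.2 + (z.1 - p.1) * q.2) / (q.1 - p.1) := by ring
        rw [h2, ← h1]
        field_simp

theorem isPolygon_region {P : Set (ℝ × ℝ)} {a b : ℝ} {g h : ℝ → ℝ} (hg : PL P g a b) (hh : PL P h a b)
    (hab : a < b) (hlt : ∀ x ∈ Ioo a b, g x < h x) (ha : g a = h a) (hb : g b = h b) :
    ∃ k v, IsPolygon k v (region a b g h) ∧ ∀ i < k, v i ∈ P := by
  obtain ⟨r, p, hp0, hpr, hpm, hpi, hpl⟩ := hg.exists_chain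
  obtain ⟨s, q, hq0, hqs, hqm, hqi, hql⟩ := hh.exists_chain
  have hgc := hg.continuousOn
  have hhc := hh.continuousOn
  have hr1 : 1 ≤ r := by
    rcases Nat.eq_zero_or_pos r with hc | hc
    · rw [hc, hp0] at hpr
      exact absurd hpr hab.ne
    · exact hc
  have hs1 : 1 ≤ s := by
    rcases Nat.eq_zero_or_pos s with hc | hc
    · rw [hc, hq0] at hqs
      exact absurd hqs hab.ne
    · exact hc
  have hp0' : p 0 = (a, g a) := by
    apply Prod.ext
    · exact hp0
    · rw [← (hpm 0 (by omega)).2, hp0]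
  have hq0' : q 0 = (a, g a) := by
    apply Prod.ext
    · exact hq0
    · rw [← (hqm 0 (by omega)).2, hq0, ha]
  have hpr' : p r = (b, g b) := by
    apply Prod.ext
    · exact hpr
    · rw [← (hpm r le_rfl).2, hpr]
  have hqs' : q s = (b, g b) := by
    apply Prod.ext
    · exact hqs
    · rw [← (hqm s le_rfl).2, hqs, hb]
  have hk3 : 3 ≤ r + s := by
    by_contra hc
    have hr : r = 1 := by omega
    have hs : s = 1 := by omega
    subst hr
    subst hs
    have hx : (a + b) / 2 ∈ Ioo a b := ⟨by linarith, by linarith⟩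
    have h1 := hpl 0 (by omega) ((a + b) / 2) (by
      rw [hp0', hpr']; exact ⟨by show a ≤ _; linarith, by show _ ≤ b; linarith⟩)
    have h2 := hql 0 (by omega) ((a + b) / 2) (by
      rw [hq0', hqs']; exact ⟨by show a ≤ _; linarith, by show _ ≤ b; linarith⟩)
    rw [hp0', hpr'] at h1
    rw [hq0', hqs'] at h2
    have h3 : g ((a + b) / 2) * (b - a) = h ((a + b) / 2) * (b - a) := h1.trans h2.symm
    have h4 := mul_right_cancel₀ (sub_pos.2 hab).ne' h3
    have h5 := hlt _ hx
    linarith
  set k := r + s with hk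
  set v : ℕ → ℝ × ℝ := fun i => if i ≤ r then p i else q (k - i) with hv
  have hv1 : ∀ i ≤ r, v i = p i := fun i hi => by
    show (if i ≤ r then p i else q (k - i)) = p i
    rw [if_pos hi]
  have hv2 : ∀ i, r ≤ i → v i = q (k - i) := fun i hi => by
    show (if i ≤ r then p i else q (k - i)) = q (k - i)
    rcases eq_or_lt_of_le hi with h | h
    · have e : k - i = s := by omega
      rw [if_pos h.ge, ← h, hpr', h, e, hqs']
    · rw [if_neg (not_le.2 h)]
  have hseg1 : ∀ i < r, ∀ z, z ∈ segment ℝ (v i) (v (i + 1)) ↔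
      z.1 ∈ Icc (p i).1 (p (i + 1)).1 ∧ z.2 = g z.1 := by
    intro i hi z
    rw [hv1 i hi.le, hv1 (i + 1) hi]
    exact Poly_seg (hpi i hi) (hpl i hi) z
  have hseg2 : ∀ i, r ≤ i → i < k → ∀ z, z ∈ segment ℝ (v i) (v (i + 1)) ↔
      z.1 ∈ Icc (q (k - i - 1)).1 (q (k - i)).1 ∧ z.2 = h z.1 := by
    intro i hi hik z
    rw [hv2 i hi, hv2 (i + 1) (by omega), segment_symm]
    have e1 : k - (i + 1) = k - i - 1 := by omega
    have e2 : k - i = (k - i - 1) + 1 := by omega
    rw [e1]
    have h1 := Poly_seg (hqi (k - i - 1) (by omega)) (hql (k - i - 1) (by omega)) z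
    rw [← e2] at h1
    exact h1
  have hpab : ∀ i ≤ r, a ≤ (p i).1 ∧ (p i).1 ≤ b := fun i hi =>
    ⟨hp0 ▸ Poly_le hpi 0 i (by omega) hi, hpr ▸ Poly_le hpi i r hi le_rfl⟩
  have hqab : ∀ i ≤ s, a ≤ (q i).1 ∧ (q i).1 ≤ b := fun i hi =>
    ⟨hq0 ▸ Poly_le hqi 0 i (by omega) hi, hqs ▸ Poly_le hqi i s hi le_rfl⟩
  refine ⟨k, v, ⟨⟨hk3, ?_, ?_, ?_⟩, isCompact_region hgc hhc, ?_, ?_⟩, ?_⟩
  · rw [hv2 k (by omega), hv1 0 (by omega), Nat.sub_self, hq0', hp0']
  · -- distinct
    intro i j hij hj hvij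
    rcases le_or_gt j r with hjr | hjr
    · rw [hv1 i (by omega), hv1 j hjr] at hvij
      have := Poly_mono hpi i j hij hjr
      rw [hvij] at this
      exact lt_irrefl _ this
    · rcases le_or_gt r i with hir | hir
      · rw [hv2 i hir, hv2 j hjr.le] at hvij
        have := Poly_mono hqi (k - j) (k - i) (by omega) (by omega)
        rw [hvij] at this
        exact lt_irrefl _ this
      · rw [hv1 i hir.le, hv2 j hjr.le] at hvij
        have h1 := Poly_mono hqi 0 (k - j) (by omega) (by omega)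
        have h2 := Poly_mono hqi (k - j) s (by omega) (by omega)
        rw [hq0] at h1
        rw [hqs] at h2
        have h3 := hlt _ ⟨h1, h2⟩
        rw [(hqm (k - j) (by omega)).2, ← hvij, (hpm i hir.le).2] at h3
        exact lt_irrefl _ h3
  · -- simple
    intro i j hij hj z hzi hzj
    rcases lt_or_ge j r with hjr | hjr
    · rw [hseg1 i (by omega)] at hzi
      rw [hseg1 j hjr] at hzj
      have h1 : (p j).1 ≤ (p (i + 1)).1 := hzj.1.1.trans hzi.1.2
      have h2 := Poly_lt_of hpi (by omega) h1 (by omega)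
      have h3 : j = i + 1 := by omega
      left
      refine ⟨h3, ?_⟩
      rw [hv1 j hjr.le]
      have h4 : z.1 = (p j).1 := le_antisymm (by rw [h3]; exact hzi.1.2) hzj.1.1
      apply Prod.ext h4
      rw [hzj.2, h4, (hpm j hjr.le).2]
    · rcases le_or_gt r i with hir | hir
      · rw [hseg2 i hir (by omega)] at hzi
        rw [hseg2 j hjr hj] at hzj
        have h1 : (q (k - i - 1)).1 ≤ (q (k - j)).1 := hzi.1.1.trans hzj.1.2
        have h2 := Poly_lt_of hqi (by omega) h1 (by omega)
        have h3 : j = i + 1 := by omega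
        left
        refine ⟨h3, ?_⟩
        rw [hv2 j hjr]
        have h5 : k - i - 1 = k - j := by omega
        have h4 : z.1 = (q (k - j)).1 := le_antisymm hzj.1.2 (by rw [← h5]; exact hzi.1.1)
        apply Prod.ext h4
        rw [hzj.2, h4, (hqm (k - j) (by omega)).2]
      · rw [hseg1 i hir] at hzi
        rw [hseg2 j hjr hj] at hzj
        have hza : a ≤ z.1 := (hpab i (by omega)).1.trans hzi.1.1
        have hzb : z.1 ≤ b := hzi.1.2.trans (hpab (i + 1) (by omega)).2
        have hgh : g z.1 = h z.1 := hzi.2.symm.trans hzj.2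
        have hcase : z.1 = a ∨ z.1 = b := by
          by_contra hc
          push Not at hc
          have := hlt z.1 ⟨lt_of_le_of_ne hza (Ne.symm hc.1), lt_of_le_of_ne hzb hc.2⟩
          linarith
        rcases hcase with hc | hc
        · right
          have h1 : (p i).1 ≤ (p 0).1 := by rw [hp0, ← hc]; exact hzi.1.1
          have h2 := Poly_lt_of hpi (by omega) h1 (by omega)
          have h3 : (q (k - j - 1)).1 ≤ (q 0).1 := by rw [hq0, ← hc]; exact hzj.1.1
          have h4 := Poly_lt_of hqi (by omega) h3 (by omega)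
          refine ⟨by omega, by omega, ?_⟩
          rw [hv1 0 (by omega), hp0']
          apply Prod.ext hc
          rw [hzi.2, hc]
        · left
          have h1 : (p r).1 ≤ (p (i + 1)).1 := by rw [hpr, ← hc]; exact hzi.1.2
          have h2 := Poly_lt_of hpi (by omega) h1 (by omega)
          have h3 : (q s).1 ≤ (q (k - j)).1 := by rw [hqs, ← hc]; exact hzj.1.2
          have h4 := Poly_lt_of hqi (by omega) h3 (by omega)
          have h5 : j = r := by omega
          refine ⟨by omega, ?_⟩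
          rw [h5, hv1 r le_rfl, hpr']
          apply Prod.ext hc
          rw [hzi.2, hc]
  · -- interior
    rw [interior_region hgc hhc]
    have hx : (a + b) / 2 ∈ Ioo a b := ⟨by linarith, by linarith⟩
    have h1 := hlt _ hx
    refine ⟨((a + b) / 2, (g ((a + b) / 2) + h ((a + b) / 2)) / 2), hx.1, hx.2, ?_, ?_⟩
    · show g ((a + b) / 2) < (g ((a + b) / 2) + h ((a + b) / 2)) / 2
      linarith
    · show (g ((a + b) / 2) + h ((a + b) / 2)) / 2 < h ((a + b) / 2)
      linarith
  · -- frontier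
    rw [frontier_region hab hgc hhc hlt ha hb]
    ext z
    simp only [mem_setOf_eq, mem_iUnion, Finset.mem_range, exists_prop]
    constructor
    · rintro ⟨hz1, hz2, hz3 | hz3⟩
      · obtain ⟨i, hi, hx⟩ := Poly_cover (p := p) (x := z.1) r hr1 (by rw [hp0]; exact hz1)
          (by rw [hpr]; exact hz2)
        exact ⟨i, by omega, (hseg1 i hi z).2 ⟨hx, hz3⟩⟩
      · obtain ⟨i, hi, hx⟩ := Poly_cover (p := q) (x := z.1) s hs1 (by rw [hq0]; exact hz1)
          (by rw [hqs]; exact hz2)
        refine ⟨k - i - 1, by omega, (hseg2 (k - i - 1) (by omega) (by omega) z).2 ⟨?_, hz3⟩⟩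
        have e1 : k - (k - i - 1) = i + 1 := by omega
        have e2 : i + 1 - 1 = i := by omega
        rw [e1, e2]
        exact hx
    · rintro ⟨i, hi, hz⟩
      rcases lt_or_ge i r with hir | hir
      · rw [hseg1 i hir] at hz
        exact ⟨(hpab i (by omega)).1.trans hz.1.1, hz.1.2.trans (hpab (i + 1) (by omega)).2,
          Or.inl hz.2⟩
      · rw [hseg2 i hir hi] at hz
        exact ⟨(hqab (k - i - 1) (by omega)).1.trans hz.1.1,
          hz.1.2.trans (hqab (k - i) (by omega)).2, Or.inr hz.2⟩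
  · intro i hi
    rcases lt_or_ge i r with hir | hir
    · rw [hv1 i hir.le]
      exact (hpm i hir.le).1
    · rw [hv2 i hir]
      exact (hqm (k - i) (by omega)).1

end Pool.Agent.TwoCvx
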