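import Pool.Agent.TwoCvx.Hull
import Pool.Agent.TwoCvx.Poly
import Pool.Agent.TwoCvx.Pattern
import Pool.Agent.TwoCvx.Map

/-!
# The upper (and the lower) piece between the hull of `Q` and the hull of the inner points of `Q`

`inner Q = Q ∩ interior (convexHull ℝ Q)`. Let `p₁, q₁` be the leftmost and rightmost points of `Q`, `p₂, q₂` those of `inner Q`,
`u, l` the hull functions of `Q`, `u', l'` those of `inner Q`. `G = bridge p₁ p₂ q₂ q₁ u'` is the link from `p₁` to `p₂`,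
followed by `u'`, followed by the link from `q₂` to `q₁`.
* `convexHull ℝ Q = region p₁.1 q₁.1 l u`, and by `interior_region` every point `z` of `inner Q` has `p₁.1 < z.1 < q₁.1`,
  `l z.1 < z.2 < u z.1`.
* `u p₁.1 = p₁.2` since `PL` gives `(p₁.1, u p₁.1) ∈ Q` and abscissae are distinct on `Q`; the same for `q₁`, `p₂`, `q₂`.
* `bridge_pl`: `G` is `PL` over `Q` on `[p₁.1, q₁.1]`: link + `u'` + link (`PL.edge`, `PL.congr`, `PL.mono`, `PL.trans`).
* `bridge_lt`: `G < u` on the open interval: on the first link `G p₁.1 = u p₁.1`, `G p₂.1 = p₂.2 < u p₂.1`, `u` is concave,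
  `G` affine (`PL.lt_of_concave_left` for the one edge `[p₁, p₂]`); in the middle all vertices of `u'` are inner points,
  so strictly below `u` (`PL.lt_of_concave`); the last link as the first one.
* `peel_up`: polygon by `isPolygon_region`, `2`-convex by `two_region_peel`, contained in the hull by `region_subset`, and
  no point of `Q` lies in its interior: a point of `Q` in the interior of the region lies in the interior of the hull, so it
  is an inner point, so `z.2 ≤ u' z.1 = G z.1`.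
* `peel_low`: apply `peel_up` to `refl '' Q` (`Lower.refl`, `Upper.refl`, `Ext.refl`, `refl_region`, `image_inter_interior`,
  `Piece.map`, `refl_refl_image`).
-/

set_option autoImplicit false

namespace Pool.Agent.TwoCvx

open Set

variable {Q : Set (ℝ × ℝ)} {p₁ q₁ p₂ q₂ : ℝ × ℝ} {l u l' u' : ℝ → ℝ}

/-- the inner points -/
def inner (Q : Set (ℝ × ℝ)) : Set (ℝ × ℝ) := Q ∩ interior (convexHull ℝ Q)

theorem inner_spec (hE : Ext Q p₁ q₁) (hl : Lower Q p₁ q₁ l) (hu : Upper Q p₁ q₁ u) {z : ℝ × ℝ} (hz : z ∈ inner Q) :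
    p₁.1 < z.1 ∧ z.1 < q₁.1 ∧ l z.1 < z.2 ∧ z.2 < u z.1 := by
  have h := hz.2
  rw [convexHull_eq hE hl hu, interior_region hl.pl.continuousOn hu.pl.continuousOn] at h
  exact ⟨h.1, h.2.1, h.2.2.1, h.2.2.2⟩

theorem Upper.left (hinj : InjOn Prod.fst Q) (hE : Ext Q p₁ q₁) (hu : Upper Q p₁ q₁ u) : u p₁.1 = p₁.2 := by
  have h := hinj hu.pl.left_mem hE.hp rfl
  exact congrArg Prod.snd h

theorem Upper.right (hinj : InjOn Prod.fst Q) (hE : Ext Q p₁ q₁) (hu : Upper Q p₁ q₁ u) : u q₁.1 = q₁.2 := by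
  have h := hinj hu.pl.right_mem hE.hq rfl
  exact congrArg Prod.snd h

theorem Lower.left (hinj : InjOn Prod.fst Q) (hE : Ext Q p₁ q₁) (hl : Lower Q p₁ q₁ l) : l p₁.1 = p₁.2 := by
  have h := hinj hl.pl.left_mem hE.hp rfl
  exact congrArg Prod.snd h

theorem Lower.right (hinj : InjOn Prod.fst Q) (hE : Ext Q p₁ q₁) (hl : Lower Q p₁ q₁ l) : l q₁.1 = q₁.2 := by
  have h := hinj hl.pl.right_mem hE.hq rfl
  exact congrArg Prod.snd h

theorem bridge_eq_left {w : ℝ → ℝ} {x : ℝ} (hx : x ≤ p₂.1) : bridge p₁ p₂ q₂ q₁ w x = lineT p₁ p₂ x := by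
  unfold bridge
  rw [if_pos hx]

theorem bridge_eq_mid {w : ℝ → ℝ} (h12 : p₁.1 < p₂.1) (hp : w p₂.1 = p₂.2) {x : ℝ} (hx : x ∈ Icc p₂.1 q₂.1) :
    bridge p₁ p₂ q₂ q₁ w x = w x := by
  unfold bridge
  by_cases h : x ≤ p₂.1
  · rw [if_pos h]
    have hx' : x = p₂.1 := le_antisymm h hx.1
    rw [hx', lineT_right h12, hp]
  · rw [if_neg h, if_pos hx.2]

theorem bridge_eq_right {w : ℝ → ℝ} (h12 : p₁.1 < p₂.1) (h2 : p₂.1 ≤ q₂.1) (hp : w p₂.1 = p₂.2) (hq : w q₂.1 = q₂.2)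
    {x : ℝ} (hx : q₂.1 ≤ x) : bridge p₁ p₂ q₂ q₁ w x = lineT q₂ q₁ x := by
  unfold bridge
  by_cases h : x ≤ p₂.1
  · rw [if_pos h]
    have hx' : x = p₂.1 := le_antisymm h (h2.trans hx)
    have hx2 : x = q₂.1 := le_antisymm (h.trans h2) hx
    have h3 : p₂.2 = q₂.2 := by rw [← hp, ← hq, ← hx', hx2]
    rw [hx', lineT_right h12, ← hx', hx2, lineT_left, h3]
  · rw [if_neg h]
    by_cases h' : x ≤ q₂.1
    · rw [if_pos h']
      have hx' : x = q₂.1 := le_antisymm h' hx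
      rw [hx', lineT_left, hq]
    · rw [if_neg h']

theorem bridge_pl (hinj : InjOn Prod.fst Q) (hE : Ext Q p₁ q₁) (hl : Lower Q p₁ q₁ l) (hu : Upper Q p₁ q₁ u)
    (hE' : Ext (inner Q) p₂ q₂) (hu' : Upper (inner Q) p₂ q₂ u') :
    PL Q (bridge p₁ p₂ q₂ q₁ u') p₁.1 q₁.1 := by
  have hin : inner Q ⊆ Q := inter_subset_left
  have hinj' : InjOn Prod.fst (inner Q) := hinj.mono hin
  obtain ⟨h12, -, -, -⟩ := inner_spec hE hl hu hE'.hp
  obtain ⟨-, h21, -, -⟩ := inner_spec hE hl hu hE'.hq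
  have h2 : p₂.1 ≤ q₂.1 := hE'.hmax _ hE'.hp
  have hp := Upper.left hinj' hE' hu'
  have hq := Upper.right hinj' hE' hu'
  have e1 : PL Q (bridge p₁ p₂ q₂ q₁ u') p₁.1 p₂.1 :=
    PL.edge hE.hp (hin hE'.hp) h12 fun x hx => bridge_eq_left hx.2
  have e2 : PL Q (bridge p₁ p₂ q₂ q₁ u') p₂.1 q₂.1 :=
    (hu'.pl.mono hin).congr fun x hx => bridge_eq_mid h12 hp hx
  have e3 : PL Q (bridge p₁ p₂ q₂ q₁ u') q₂.1 q₁.1 :=
    PL.edge (hin hE'.hq) hE.hq h21 fun x hx => bridge_eq_right h12 h2 hp hq hx.1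
  exact (e1.trans e2).trans e3

theorem bridge_lt (hinj : InjOn Prod.fst Q) (hE : Ext Q p₁ q₁) (hl : Lower Q p₁ q₁ l) (hu : Upper Q p₁ q₁ u)
    (hE' : Ext (inner Q) p₂ q₂) (hu' : Upper (inner Q) p₂ q₂ u') :
    ∀ x ∈ Ioo p₁.1 q₁.1, bridge p₁ p₂ q₂ q₁ u' x < u x := by
  have hin : inner Q ⊆ Q := inter_subset_left
  have hinj' : InjOn Prod.fst (inner Q) := hinj.mono hin
  obtain ⟨h12, hp2q1, -, hp2u⟩ := inner_spec hE hl hu hE'.hp
  obtain ⟨hp1q2, h21, -, hq2u⟩ := inner_spec hE hl hu hE'.hq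
  have h2 : p₂.1 ≤ q₂.1 := hE'.hmax _ hE'.hp
  have hp := Upper.left hinj' hE' hu'
  have hq := Upper.right hinj' hE' hu'
  intro x hx
  have e1 : PL {p₁, p₂} (bridge p₁ p₂ q₂ q₁ u') p₁.1 p₂.1 :=
    PL.edge (mem_insert _ _) (mem_insert_of_mem _ rfl) h12 fun x hx => bridge_eq_left hx.2
  have e2 : PL (inner Q) (bridge p₁ p₂ q₂ q₁ u') p₂.1 q₂.1 :=
    hu'.pl.congr fun x hx => bridge_eq_mid h12 hp hx
  have e3 : PL {q₂, q₁} (bridge p₁ p₂ q₂ q₁ u') q₂.1 q₁.1 :=
    PL.edge (mem_insert _ _) (mem_insert_of_mem _ rfl) h21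
      fun x hx => bridge_eq_right h12 h2 hp hq hx.1
  rcases le_total x p₂.1 with hx1 | hx1
  · refine e1.lt_of_concave_left (f := u) (hu.cc.subset (Icc_subset_Icc_right hp2q1.le)
      (convex_Icc _ _)) ?_ ?_ x ⟨hx.1, hx1⟩
    · rw [bridge_eq_left h12.le, lineT_left]
      exact hu.le _ hE.hp
    · intro z hz hz1 _ _
      rcases hz with hz | hz
      · rw [hz] at hz1
        exact absurd hz1 (lt_irrefl _)
      · rw [mem_singleton_iff] at hz
        rw [hz]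
        exact hp2u
  · rcases le_total x q₂.1 with hx2 | hx2
    · refine e2.lt_of_concave (f := u) (hu.cc.subset (Icc_subset_Icc h12.le h21.le)
        (convex_Icc _ _)) ?_ x ⟨hx1, hx2⟩
      intro z hz _ _ _
      exact (inner_spec hE hl hu hz).2.2.2
    · refine e3.lt_of_concave_right (f := u) (hu.cc.subset (Icc_subset_Icc_left hp1q2.le)
        (convex_Icc _ _)) ?_ ?_ x ⟨hx2, hx.2⟩
      · rw [bridge_eq_right h12 h2 hp hq h21.le, lineT_right h21]
        exact hu.le _ hE.hq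
      · intro z hz _ hz1 _
        rcases hz with hz | hz
        · rw [hz]
          exact hq2u
        · rw [mem_singleton_iff] at hz
          rw [hz] at hz1
          exact absurd hz1 (lt_irrefl _)

theorem peel_up (hinj : InjOn Prod.fst Q) (hE : Ext Q p₁ q₁) (hl : Lower Q p₁ q₁ l) (hu : Upper Q p₁ q₁ u)
    (hE' : Ext (inner Q) p₂ q₂) (hu' : Upper (inner Q) p₂ q₂ u') :
    Piece Q (region p₁.1 q₁.1 (bridge p₁ p₂ q₂ q₁ u') u) := by
  have hin : inner Q ⊆ Q := inter_subset_left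
  have hinj' : InjOn Prod.fst (inner Q) := hinj.mono hin
  obtain ⟨h12, hp2q1, -, hp2u⟩ := inner_spec hE hl hu hE'.hp
  obtain ⟨hp1q2, h21, -, hq2u⟩ := inner_spec hE hl hu hE'.hq
  have h2 : p₂.1 ≤ q₂.1 := hE'.hmax _ hE'.hp
  have hp := Upper.left hinj' hE' hu'
  have hq := Upper.right hinj' hE' hu'
  have hG := bridge_pl hinj hE hl hu hE' hu'
  have hsub := region_subset hG hu.pl
  refine ⟨?_, ?_, hsub, ?_⟩
  · refine isPolygon_region hG hu.pl (h12.trans hp2q1) (bridge_lt hinj hE hl hu hE' hu') ?_ ?_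
    · rw [bridge_eq_left h12.le, lineT_left, Upper.left hinj hE hu]
    · rw [bridge_eq_right h12 h2 hp hq h21.le, lineT_right h21, Upper.right hinj hE hu]
  · refine two_region_peel h12.le h2 h21.le hG.continuousOn hu.pl.continuousOn ?_ ?_ ?_ hu.cc
    · obtain ⟨m, k, hmk⟩ := lineT_affine p₁ p₂
      exact ⟨m, k, fun x hx => by rw [bridge_eq_left hx.2, hmk]⟩
    · exact hu'.cc.congr fun x hx => (bridge_eq_mid h12 hp hx).symm
    · obtain ⟨m, k, hmk⟩ := lineT_affine q₂ q₁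
      exact ⟨m, k, fun x hx => by rw [bridge_eq_right h12 h2 hp hq hx.1, hmk]⟩
  · intro z hz hzi
    have hz' : z ∈ inner Q := ⟨hz, interior_mono hsub hzi⟩
    rw [interior_region hG.continuousOn hu.pl.continuousOn] at hzi
    have h3 := hzi.2.2.1
    rw [bridge_eq_mid h12 hp ⟨hE'.hmin _ hz', hE'.hmax _ hz'⟩] at h3
    exact absurd (hu'.le _ hz') (not_le.2 h3)

theorem peel_low (hinj : InjOn Prod.fst Q) (hE : Ext Q p₁ q₁) (hl : Lower Q p₁ q₁ l) (hu : Upper Q p₁ q₁ u)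
    (hE' : Ext (inner Q) p₂ q₂) (hl' : Lower (inner Q) p₂ q₂ l') :
    Piece Q (region p₁.1 q₁.1 l (bridge p₁ p₂ q₂ q₁ l')) := by
  have hfst : ∀ z : ℝ × ℝ, (refl z).1 = z.1 := fun z => rfl
  have hsnd : ∀ z : ℝ × ℝ, (refl z).2 = -z.2 := fun z => rfl
  have hinj2 : InjOn Prod.fst (refl '' Q) := by
    rintro _ ⟨z, hz, rfl⟩ _ ⟨w, hw, rfl⟩ hzw
    rw [hinj hz hw hzw]
  have hi : refl '' inner Q = inner (refl '' Q) := image_inter_interior refl Q
  have hE2 := hE'.refl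
  have hu2 := hl'.refl
  rw [hi] at hE2 hu2
  have h := (peel_up hinj2 hE.refl hu.refl hl.refl hE2 hu2).map refl
  rw [refl_refl_image, refl_region] at h
  have hline : ∀ (p q : ℝ × ℝ) (x : ℝ), lineT (refl p) (refl q) x = -lineT p q x := by
    intro p q x
    unfold lineT
    rw [hfst, hfst, hsnd, hsnd]
    ring
  have e1 : (fun x => -(-l x)) = l := funext fun x => neg_neg _
  have e2 : (fun x => -bridge (refl p₁) (refl p₂) (refl q₂) (refl q₁) (fun x => -l' x) x) =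
      bridge p₁ p₂ q₂ q₁ l' := by
    funext x
    unfold bridge
    rw [hline, hline, hfst, hfst]
    split_ifs
    · exact neg_neg _
    · exact neg_neg _
    · exact neg_neg _
  rw [e1, e2] at h
  exact h

end Pool.Agent.TwoCvx
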