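import Pool.Agent.TwoCvx.Gen

/-!
# The peeling process and cutting by lines

* `not_inner_of_max`: a point maximising a nonzero linear functional is not an inner point.
* `process`: given `L` half planes `{t i < φ i}` such that no point of `Q` lies in two of them, we peel until one of the half
  planes contains no point any more. Every layer removes at least `L` points.
* `cut`: cut off the points outside the half planes `{φ i ≤ t i}`, `i < k`.
-/

set_option autoImplicit false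

namespace Pool.Agent.TwoCvx

open Set

theorem not_inner_of_max {Q : Set (ℝ × ℝ)} {φ : (ℝ × ℝ) →ₗ[ℝ] ℝ} (hφ : φ ≠ 0) {z : ℝ × ℝ}
    (hmax : ∀ w ∈ Q, φ w ≤ φ z) : z ∉ inner Q := by
  rintro ⟨_, hz⟩
  have hsub : convexHull ℝ Q ⊆ {w | φ w ≤ φ z} :=
    convexHull_min hmax (convex_halfSpace_le φ.isLinear _)
  obtain ⟨v, hv⟩ : ∃ v, φ v ≠ 0 := by
    by_contra hcon
    push Not at hcon
    exact hφ (LinearMap.ext hcon)
  obtain ⟨v, hv⟩ : ∃ v, 0 < φ v := by
    rcases lt_or_gt_of_ne hv with h | h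
    · exact ⟨-v, by rw [map_neg]; linarith⟩
    · exact ⟨v, h⟩
  have hcont : Continuous (fun t : ℝ => z + t • v) := by fun_prop
  have h0 : (fun t : ℝ => z + t • v) 0 ∈ interior (convexHull ℝ Q) := by simpa using hz
  have hev := hcont.continuousAt.eventually (isOpen_interior.mem_nhds h0)
  rw [Metric.eventually_nhds_iff] at hev
  obtain ⟨ε, hε, hball⟩ := hev
  have h1 := hball (y := ε / 2) (by rw [Real.dist_eq]; rw [sub_zero, abs_of_pos (by linarith)]; linarith)
  have h2 := hsub (interior_subset h1)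
  simp only [mem_ofPred_eq, map_add, map_smul, smul_eq_mul] at h2
  nlinarith [mul_pos (half_pos hε) hv]

theorem process (L : ℕ) (hL : 1 ≤ L) (φ : ℕ → (ℝ × ℝ) →ₗ[ℝ] ℝ) (t : ℕ → ℝ) (hφ : ∀ i < L, φ i ≠ 0) :
    ∀ (n : ℕ) (Q : Finset (ℝ × ℝ)), Q.card = n →
      (∀ z ∈ Q, ∀ i < L, ∀ j < L, t i < φ i z → t j < φ j z → i = j) →
      ∃ R ⊆ Q, ∃ s : ℕ, L * s + R.card ≤ Q.card ∧ (∃ i < L, ∀ z ∈ R, φ i z ≤ t i) ∧
        ∀ m, Dec (R : Set (ℝ × ℝ)) m → Dec (Q : Set (ℝ × ℝ)) (m + 2 * s) := by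
  classical
  intro n
  induction n using Nat.strong_induction_on with
  | _ n ih =>
    intro Q hQ hdis
    by_cases hc : ∃ i < L, ∀ z ∈ Q, φ i z ≤ t i
    · exact ⟨Q, Finset.Subset.refl _, 0, by simp, hc, fun m hm => by simpa using hm⟩
    · push Not at hc
      -- the maximisers
      have hmax : ∀ i : ℕ, ∃ z : ℝ × ℝ, i < L → z ∈ Q ∧ (∀ w ∈ Q, φ i w ≤ φ i z) := by
        intro i
        by_cases hi : i < L
        · obtain ⟨z, hz, _⟩ := hc i hi
          obtain ⟨w, hw, hw'⟩ := Q.exists_max_image (φ i) ⟨z, hz⟩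
          exact ⟨w, fun _ => ⟨hw, hw'⟩⟩
        · exact ⟨0, fun h => absurd h hi⟩
      choose z hz using hmax
      have hzH : ∀ i < L, t i < φ i (z i) := by
        intro i hi
        obtain ⟨w, hw, hw'⟩ := hc i hi
        exact lt_of_lt_of_le hw' ((hz i hi).2 w hw)
      set Q' : Finset (ℝ × ℝ) := Q.filter (fun w => w ∈ inner (Q : Set (ℝ × ℝ))) with hQ'
      have hcoe : (Q' : Set (ℝ × ℝ)) = inner (Q : Set (ℝ × ℝ)) := by
        ext w
        simp only [hQ', Finset.coe_filter, mem_ofPred_eq]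
        exact ⟨fun h => h.2, fun h => ⟨h.1, h⟩⟩
      have hsub : (Finset.range L).image z ⊆ Q \ Q' := by
        intro w hw
        rw [Finset.mem_image] at hw
        obtain ⟨i, hi, rfl⟩ := hw
        rw [Finset.mem_range] at hi
        rw [Finset.mem_sdiff]
        refine ⟨(hz i hi).1, ?_⟩
        rw [hQ', Finset.mem_filter]
        rintro ⟨_, h⟩
        exact not_inner_of_max (hφ i hi) (fun w hw => (hz i hi).2 w hw) h
      have hcard : L ≤ (Q \ Q').card := by
        have h1 : ((Finset.range L).image z).card = L := by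
          rw [Finset.card_image_of_injOn, Finset.card_range]
          intro i hi j hj hij
          simp only [Finset.coe_range, mem_Iio] at hi hj
          have hij' : z i = z j := hij
          have h2 := hzH j hj
          rw [← hij'] at h2
          exact hdis (z i) (hz i hi).1 i hi j hj (hzH i hi) h2
        calc L = ((Finset.range L).image z).card := h1.symm
          _ ≤ _ := Finset.card_le_card hsub
      have hQQ : Q' ⊆ Q := Finset.filter_subset _ _
      have hcd : (Q \ Q').card + Q'.card = Q.card := Finset.card_sdiff_add_card_eq_card hQQ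
      obtain ⟨R, hR, s, hs, hi, hD⟩ := ih Q'.card (by omega) Q' rfl
        (fun w hw => hdis w (hQQ hw))
      refine ⟨R, hR.trans hQQ, s + 1, ?_, hi, ?_⟩
      · rw [mul_add]; omega
      · intro m hm
        have h1 := hD m hm
        rw [hcoe] at h1
        have h2 := peel Q.finite_toSet h1
        have h3 : m + 2 * (s + 1) = m + 2 * s + 2 := by ring
        rw [h3]; exact h2

/-- a linear bound on the number of polygons -/
def Bd (α C : ℝ) : Prop :=
  ∀ P : Finset (ℝ × ℝ), GenPos (P : Set (ℝ × ℝ)) → ∃ m : ℕ, Dec (P : Set (ℝ × ℝ)) m ∧ (m : ℝ) ≤ α * P.card + C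

theorem cut_one {P : Finset (ℝ × ℝ)} (hgp : GenPos (P : Set (ℝ × ℝ))) (φ : (ℝ × ℝ) →ₗ[ℝ] ℝ) (t : ℝ) {m m' : ℕ}
    (h : Dec ((P.filter (fun z => φ z ≤ t) : Finset (ℝ × ℝ)) : Set (ℝ × ℝ)) m)
    (h' : Dec ((P.filter (fun z => ¬ φ z ≤ t) : Finset (ℝ × ℝ)) : Set (ℝ × ℝ)) m') :
    Dec (P : Set (ℝ × ℝ)) (m + m' + 2) := by
  classical
  set A := P.filter (fun z => φ z ≤ t) with hA
  set B := P.filter (fun z => ¬ φ z ≤ t) with hB
  have hAB : (A : Set (ℝ × ℝ)) ∪ (B : Set (ℝ × ℝ)) = (P : Set (ℝ × ℝ)) := by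
    rw [← Finset.coe_union, Finset.filter_union_filter_not_eq]
  rcases B.eq_empty_or_nonempty with hBe | hBne
  · have hPA : (P : Set (ℝ × ℝ)) = (A : Set (ℝ × ℝ)) := by rw [← hAB, hBe]; simp
    rw [hPA]
    exact h.mono (by omega)
  · obtain ⟨w, hw, hwmin⟩ := B.exists_min_image φ hBne
    have hwt : t < φ w := by
      have := (Finset.mem_filter.mp hw).2
      exact not_le.mp this
    have hj := join (A := (A : Set (ℝ × ℝ))) (B := (B : Set (ℝ × ℝ))) A.finite_toSet B.finite_toSet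
      (by rw [hAB]; exact hgp) φ ((t + φ w) / 2)
      (fun z hz => by
        have := (Finset.mem_filter.mp (Finset.mem_coe.mp hz)).2
        linarith)
      (fun z hz => by
        have := hwmin z (Finset.mem_coe.mp hz)
        linarith) h h'
    rwa [hAB] at hj

theorem cut {α C : ℝ} (hB : Bd α C) (φ : ℕ → (ℝ × ℝ) →ₗ[ℝ] ℝ) (t : ℕ → ℝ) :
    ∀ (k : ℕ) (P : Finset (ℝ × ℝ)), GenPos (P : Set (ℝ × ℝ)) → ∀ mQ : ℕ,
      Dec ((P.filter (fun z => ∀ i < k, φ i z ≤ t i) : Finset (ℝ × ℝ)) : Set (ℝ × ℝ)) mQ →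
      ∃ m : ℕ, Dec (P : Set (ℝ × ℝ)) m ∧
        (m : ℝ) ≤ mQ + α * ((P.card : ℝ) - ((P.filter (fun z => ∀ i < k, φ i z ≤ t i)).card : ℝ)) + k * (C + 2) := by
  classical
  intro k
  induction k with
  | zero =>
    intro P hgp mQ hQ
    refine ⟨mQ, ?_, ?_⟩
    · simpa using hQ
    · simp
  | succ k ih =>
    intro P hgp mQ hQ
    set P' := P.filter (fun z => ∀ i < k, φ i z ≤ t i) with hP'
    have hQe : P.filter (fun z => ∀ i < k + 1, φ i z ≤ t i) = P'.filter (fun z => φ k z ≤ t k) := by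
      ext z
      simp only [hP', Finset.mem_filter]
      constructor
      · rintro ⟨h1, h2⟩
        exact ⟨⟨h1, fun i hi => h2 i (by omega)⟩, h2 k (by omega)⟩
      · rintro ⟨⟨h1, h2⟩, h3⟩
        refine ⟨h1, fun i hi => ?_⟩
        rcases Nat.lt_succ_iff_lt_or_eq.mp hi with h | h
        · exact h2 i h
        · rw [h]; exact h3
    rw [hQe] at hQ ⊢
    have hgpP' : GenPos (P' : Set (ℝ × ℝ)) := hgp.mono (by
      intro z hz; exact Finset.filter_subset _ _ (Finset.mem_coe.mp hz))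
    obtain ⟨m', hm', hm'le⟩ := hB (P'.filter (fun z => ¬ φ k z ≤ t k)) (hgpP'.mono (by
      intro z hz; exact Finset.filter_subset _ _ (Finset.mem_coe.mp hz)))
    have h1 := cut_one hgpP' (φ k) (t k) hQ hm'
    obtain ⟨m, hm, hmle⟩ := ih P hgp _ h1
    refine ⟨m, hm, ?_⟩
    have hcard : ((P'.filter (fun z => φ k z ≤ t k)).card : ℝ) + ((P'.filter (fun z => ¬ φ k z ≤ t k)).card : ℝ)
        = (P'.card : ℝ) := by
      exact_mod_cast Finset.card_filter_add_card_filter_not (s := P') (fun z => φ k z ≤ t k)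
    push_cast at hmle ⊢
    have e1 : ((P'.filter (fun z => ¬ φ k z ≤ t k)).card : ℝ)
        = (P'.card : ℝ) - ((P'.filter (fun z => φ k z ≤ t k)).card : ℝ) := by linarith
    rw [e1] at hm'le
    nlinarith [hmle, hm'le]

end Pool.Agent.TwoCvx
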