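import Mathlib

/-!
# Decomposing planar point sets into 2-convex polygons: the definitions of the final statement  (MP_e32f45_co)
-/

set_option autoImplicit false

namespace Pool.Agent.TwoCvx

open Set

/-- `P` is in general position: no three distinct points of `P` are collinear. -/
def GenPos (P : Set (ℝ × ℝ)) : Prop :=
  ∀ p ∈ P, ∀ q ∈ P, ∀ r ∈ P, p ≠ q → q ≠ r → p ≠ r → ¬ Collinear ℝ ({p, q, r} : Set (ℝ × ℝ))

/-- `v 0, v 1, …, v (k-1)` are, in cyclic order, the vertices of a simple closed polygonal curve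
(`v k = v 0` closes the curve): the vertices are distinct, and two different edges `[v i, v (i+1)]`, `[v j, v (j+1)]`
(`i < j < k`) have no common point, except that consecutive edges share their common end point. -/
structure SimpleClosed (k : ℕ) (v : ℕ → ℝ × ℝ) : Prop where
  three_le : 3 ≤ k
  closed : v k = v 0
  distinct : ∀ i j, i < j → j < k → v i ≠ v j
  simple : ∀ i j, i < j → j < k → ∀ z ∈ segment ℝ (v i) (v (i + 1)), z ∈ segment ℝ (v j) (v (j + 1)) →
    (j = i + 1 ∧ z = v j) ∨ (i = 0 ∧ j + 1 = k ∧ z = v 0)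

/-- `Q` is the simple polygon with vertices `v 0, …, v (k-1)`: the closed region bounded by the simple closed
polygonal curve with these vertices, i.e. the compact set with nonempty interior whose boundary is the curve. -/
def IsPolygon (k : ℕ) (v : ℕ → ℝ × ℝ) (Q : Set (ℝ × ℝ)) : Prop :=
  SimpleClosed k v ∧ IsCompact Q ∧ (interior Q).Nonempty ∧
    frontier Q = ⋃ i ∈ Finset.range k, segment ℝ (v i) (v (i + 1))

/-- A line of the plane. -/
def IsLine (l : Set (ℝ × ℝ)) : Prop :=
  ∃ (φ : (ℝ × ℝ) →ₗ[ℝ] ℝ) (c : ℝ), φ ≠ 0 ∧ l = {z | φ z = c}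

/-- `Q` is `k`-convex: for every line `l`, the set `l ∩ int Q` has at most `k` connected components. -/
def KConvex (k : ℕ) (Q : Set (ℝ × ℝ)) : Prop :=
  ∀ l : Set (ℝ × ℝ), IsLine l → ENat.card (ConnectedComponents ↥(l ∩ interior Q)) ≤ k

/-- `F` is a decomposition of the point set `P` into `2`-convex polygons. -/
structure IsDecomposition (P : Set (ℝ × ℝ)) (F : Finset (Set (ℝ × ℝ))) : Prop where
  /-- every member is a polygon with vertices in `P` -/
  polygon : ∀ Q ∈ F, ∃ k v, IsPolygon k v Q ∧ ∀ i < k, v i ∈ P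
  /-- every member is `2`-convex -/
  twoConvex : ∀ Q ∈ F, KConvex 2 Q
  /-- the interiors are pairwise disjoint -/
  disjoint : ∀ Q ∈ F, ∀ Q' ∈ F, Q ≠ Q' → Disjoint (interior Q) (interior Q')
  /-- the union is the convex hull of `P` -/
  cover : ⋃ Q ∈ F, Q = convexHull ℝ P
  /-- no point of `P` lies in the interior of a member -/
  empty : ∀ Q ∈ F, ∀ p ∈ P, p ∉ interior Q

end Pool.Agent.TwoCvx
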